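import Mathlib

/-!
# Additive squares are avoidable over a finite set of integers

We construct a Lipschitz function `g : ℕ → ℤ` whose graph contains no 3-term arithmetic progression,
i.e. an infinite word over a finite alphabet of integers without two consecutive blocks of the same
length and the same sum.

The function satisfies a two-branch recursion: for `r < 18`,
`g (18 m + r)` is `15 g(m) + P r` (left branch) or `15 g(m+1) + Q r` (right branch).  The residues
modulo `15` of the `P r`, `Q r` form a subset of `(ZMod 18) × (ZMod 15)` without non-trivial 3-term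
progressions, so that every progression on the graph of `g` comes from a progression with a
difference 18 times smaller.
-/

namespace Pool.Agent.H55.AddSq

/-- the left branch -/
def P (r : ℕ) : ℤ :=
  [0, 946, 1890, 2836, 3784, 4728, 5670, 6616, 7560, 8511, 9454, 10398, 11350, 12303, 13254,
    14206].getD r 0

/-- the right branch -/
def Q (r : ℕ) : ℤ :=
  [0, 643, 609, 577, 535, 503, 460, 423, 389, 352, 309, 276, 238, 193, 149, 111, 69, 36].getD r 0

/-- the function -/
def g : ℕ → ℤ
  | 0 => 0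
  | 1 => 946
  | n + 2 =>
    if (n + 2) % 18 = 0 then 15 * g ((n + 2) / 18)
    else if (n + 2) % 18 ≤ 15 then
      min (15 * g ((n + 2) / 18) + P ((n + 2) % 18)) (15 * g ((n + 2) / 18 + 1) + Q ((n + 2) % 18))
    else 15 * g ((n + 2) / 18 + 1) + Q ((n + 2) % 18)
decreasing_by all_goals omega

theorem g_zero : g 0 = 0 := by rw [g]
theorem g_one : g 1 = 946 := by rw [g]

theorem g_eq (n : ℕ) : g n =
    if n % 18 = 0 then 15 * g (n / 18)
    else if n % 18 ≤ 15 then
      min (15 * g (n / 18) + P (n % 18)) (15 * g (n / 18 + 1) + Q (n % 18))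
    else 15 * g (n / 18 + 1) + Q (n % 18) := by
  match n with
  | 0 => simp [g_zero]
  | 1 => simp [g_zero, g_one, P, Q]
  | n + 2 => rw [g]

/-- the increments are bounded -/
theorem g_step (n : ℕ) : -45 ≤ g (n + 1) - g n ∧ g (n + 1) - g n ≤ 955 := by
  induction n using Nat.strong_induction_on with
  | _ n ih =>
    rcases Nat.eq_zero_or_pos n with rfl | hn
    · rw [g_zero, g_one]; norm_num
    · obtain ⟨h1, h2⟩ := ih (n / 18) (by omega)
      rcases (by omega : n % 18 < 17 ∨ n % 18 = 17) with hr | hr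
      · have e1 : (n + 1) / 18 = n / 18 := by omega
        have e2 : (n + 1) % 18 = n % 18 + 1 := by omega
        rw [g_eq n, g_eq (n + 1), e1, e2]
        generalize g (n / 18) = a at *
        generalize g (n / 18 + 1) = b at *
        generalize n % 18 = r at *
        interval_cases r <;> simp [P, Q] <;> omega
      · have e1 : (n + 1) / 18 = n / 18 + 1 := by omega
        have e2 : (n + 1) % 18 = 0 := by omega
        rw [g_eq n, g_eq (n + 1), e1, e2, hr]
        simp [Q]

/-- admissible branches -/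
def ok (b : Bool) (r : ℕ) : Prop := if b then r ≤ 15 else 1 ≤ r

instance (b : Bool) (r : ℕ) : Decidable (ok b r) := by unfold ok; infer_instance

/-- value of a branch -/
def val (b : Bool) (r : ℕ) : ℤ := if b then P r else Q r

/-- shift of a branch -/
def sh (b : Bool) : ℕ := if b then 0 else 1

theorem g_rep (n : ℕ) : ∃ b, ok b (n % 18) ∧ g n = 15 * g (n / 18 + sh b) + val b (n % 18) := by
  rw [g_eq n]
  split_ifs with h1 h2
  · exact ⟨true, by simp [ok, h1], by simp [sh, val, h1, P]⟩
  · rcases min_choice (15 * g (n / 18) + P (n % 18)) (15 * g (n / 18 + 1) + Q (n % 18)) with h | h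
    · exact ⟨true, by simp [ok, h2], by simp [sh, val, h]⟩
    · exact ⟨false, by simp [ok]; omega, by simp [sh, val, h]⟩
  · exact ⟨false, by simp [ok]; omega, by simp [sh, val]⟩

theorem key0 : ∀ (r1 r2 r3 : Fin 18), (r1.1 + r3.1) % 18 = (2 * r2.1) % 18 →
    ∀ b1 b2 b3 : Bool, ok b1 r1.1 → ok b2 r2.1 → ok b3 r3.1 →
      (val b1 r1.1 + val b3 r3.1 - 2 * val b2 r2.1) % 15 = 0 →
        r1.1 = r2.1 ∧ r2.1 = r3.1 ∧ b1 = b2 ∧ b2 = b3 := by
  decide +kernel

theorem key (r1 : ℕ) (h1 : r1 < 18) (r2 : ℕ) (h2 : r2 < 18) (r3 : ℕ) (h3 : r3 < 18)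
    (h : (r1 + r3) % 18 = (2 * r2) % 18) (b1 b2 b3 : Bool) (o1 : ok b1 r1) (o2 : ok b2 r2)
    (o3 : ok b3 r3) (hv : (val b1 r1 + val b3 r3 - 2 * val b2 r2) % 15 = 0) :
    r1 = r2 ∧ r2 = r3 ∧ b1 = b2 ∧ b2 = b3 :=
  key0 ⟨r1, h1⟩ ⟨r2, h2⟩ ⟨r3, h3⟩ h b1 b2 b3 o1 o2 o3 hv

/-- the graph of `g` has no 3-term progression -/
theorem g_noAP (d : ℕ) : 1 ≤ d → ∀ n, g n + g (n + 2 * d) ≠ 2 * g (n + d) := by
  induction d using Nat.strong_induction_on with
  | _ d ih =>
    intro hd n h
    obtain ⟨b1, o1, e1⟩ := g_rep n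
    obtain ⟨b2, o2, e2⟩ := g_rep (n + d)
    obtain ⟨b3, o3, e3⟩ := g_rep (n + 2 * d)
    have hk := key (n % 18) (Nat.mod_lt _ (by norm_num)) ((n + d) % 18)
      (Nat.mod_lt _ (by norm_num)) ((n + 2 * d) % 18) (Nat.mod_lt _ (by norm_num)) (by omega)
      b1 b2 b3 o1 o2 o3 (by omega)
    obtain ⟨k1, k2, k3, k4⟩ := hk
    subst k3; subst k4
    obtain ⟨e, rfl⟩ : ∃ e, d = 18 * e := ⟨d / 18, by omega⟩
    have q2 : (n + 18 * e) / 18 = n / 18 + e := by omega
    have q3 : (n + 2 * (18 * e)) / 18 = n / 18 + 2 * e := by omega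
    rw [q2, ← k1] at e2
    rw [q3, ← k2, ← k1] at e3
    refine ih e (by omega) (by omega) (n / 18 + sh b1) ?_
    rw [show n / 18 + sh b1 + 2 * e = n / 18 + 2 * e + sh b1 by ring,
      show n / 18 + sh b1 + e = n / 18 + e + sh b1 by ring]
    omega

end Pool.Agent.H55.AddSq
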