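import Mathlib

/-!
Definitions for forcibly biconnected degree sequences.
-/

namespace Pool.Agent.H55.Bic

/-- `G` is biconnected: it is connected, and deleting any single vertex leaves it connected. -/
def Biconnected {V : Type*} (G : SimpleGraph V) : Prop :=
  G.Connected ∧ ∀ v : V, (G.induce ({v}ᶜ : Set V)).Connected

/-- The graph `G` on the `n` labelled vertices `Fin n` is a realization of `d`: vertex `i` has
exactly `d i` neighbours. -/
def Realizes {n : ℕ} (G : SimpleGraph (Fin n)) (d : Fin n → ℕ) : Prop :=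
  ∀ i, (G.neighborSet i).ncard = d i

/-- `d` is graphical and every realization of `d` is biconnected. -/
def ForciblyBiconnected {n : ℕ} (d : Fin n → ℕ) : Prop :=
  (∃ G : SimpleGraph (Fin n), Realizes G d) ∧
    ∀ G : SimpleGraph (Fin n), Realizes G d → Biconnected G

/-- The set of forcibly biconnected graphical (non-increasing) degree sequences of length `n`
with sum `N`. -/
def F2set (n N : ℕ) : Set (Fin n → ℕ) :=
  {d | Antitone d ∧ ∑ i, d i = N ∧ ForciblyBiconnected d}

/-- `F_2(n, N)`: the number of forcibly biconnected graphical degree sequences of length `n` with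
sum `N`. -/
noncomputable def F2 (n N : ℕ) : ℕ := (F2set n N).ncard

/-- The finite sequence `a 0, a 1, ..., a m` is unimodal: for some `k ≤ m`,
`a 0 ≤ ... ≤ a k ≥ a (k+1) ≥ ... ≥ a m`. -/
def Unimodal (a : ℕ → ℕ) (m : ℕ) : Prop :=
  ∃ k, k ≤ m ∧ (∀ i, i < k → a i ≤ a (i + 1)) ∧ (∀ i, k ≤ i → i < m → a (i + 1) ≤ a i)

end Pool.Agent.H55.Bic
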