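import Pool.Agent.H55.ErdosGallai
import Pool.Agent.H55.BicDefs

/-!
Biconnected graphs and forcibly biconnected degree sequences: structural lemmas.
-/

namespace Pool.Agent.H55.Bic

open Finset Pool.Agent.H55.EG

theorem biconnected_of_deleted {V : Type*} [Fintype V] (G : SimpleGraph V)
    (hcard : 3 ≤ Fintype.card V)
    (h : ∀ v : V, (G.induce ({v}ᶜ : Set V)).Connected) : Biconnected G := by
  classical
  refine ⟨?_, h⟩
  have hpre : G.Preconnected := by
    intro a b
    have hex : ∃ v, v ≠ a ∧ v ≠ b := by
      by_contra hcon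
      push Not at hcon
      have hsub : (univ : Finset V) ⊆ {a, b} := by
        intro x _
        by_cases hx : x = a
        · simp [hx]
        · simp [hcon x hx]
      have h1 := Finset.card_le_card hsub
      have h2 : ({a, b} : Finset V).card ≤ 2 := Finset.card_le_two
      rw [Finset.card_univ] at h1
      omega
    obtain ⟨v, hva, hvb⟩ := hex
    have h1 := (h v).preconnected ⟨a, by simpa using hva.symm⟩ ⟨b, by simpa using hvb.symm⟩
    exact h1.map (SimpleGraph.Embedding.induce _).toHom
  have : Nonempty V := by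
    rw [← Fintype.card_pos_iff]
    omega
  exact ⟨hpre⟩

/-- A set closed under adjacency up to the vertex `v` shows that `v` separates. -/
theorem not_connected_of_sep {V : Type*} (G : SimpleGraph V) (S : Set V) (v : V)
    {s x : V} (hs : s ∈ S) (hvS : v ∉ S) (hx : x ∉ S) (hxv : x ≠ v)
    (hcl : ∀ a ∈ S, ∀ b, G.Adj a b → b ∈ S ∨ b = v) :
    ¬ (G.induce ({v}ᶜ : Set V)).Connected := by
  intro hcon
  have hsv : s ≠ v := fun h => hvS (h ▸ hs)
  have h1 := hcon.preconnected ⟨s, by simpa using hsv⟩ ⟨x, by simpa using hxv⟩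
  rw [SimpleGraph.reachable_iff_reflTransGen] at h1
  have key : ∀ y : ({v}ᶜ : Set V), Relation.ReflTransGen (G.induce ({v}ᶜ : Set V)).Adj
      ⟨s, by simpa using hsv⟩ y → (y : V) ∈ S := by
    intro y hy
    induction hy with
    | refl => exact hs
    | @tail b c _ hbc ih =>
      have h2 : G.Adj (b : V) (c : V) := by simpa using hbc
      rcases hcl _ ih _ h2 with h3 | h3
      · exact h3
      · exact absurd (Set.mem_singleton_iff.mpr h3) c.2
  exact hx (key _ h1)

theorem not_biconnected_of_sep {V : Type*} (G : SimpleGraph V) (S : Set V) (v : V)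
    {s x : V} (hs : s ∈ S) (hvS : v ∉ S) (hx : x ∉ S) (hxv : x ≠ v)
    (hcl : ∀ a ∈ S, ∀ b, G.Adj a b → b ∈ S ∨ b = v) :
    ¬ Biconnected G := fun h => not_connected_of_sep G S v hs hvS hx hxv hcl (h.2 v)

/-- A biconnected graph on at least three vertices has minimum degree at least two. -/
theorem two_le_deg_of_biconnected {V : Type*} [Fintype V] (G : SimpleGraph V)
    (hcard : 3 ≤ Fintype.card V) (h : Biconnected G) (a : V) : 2 ≤ deg G a := by
  classical
  by_contra hlt
  push Not at hlt
  -- a vertex v with all neighbours of a equal to v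
  have hv : ∃ v, v ≠ a ∧ ∀ b, G.Adj a b → b = v := by
    by_cases hne : (G.neighborSet a).Nonempty
    · obtain ⟨v, hv⟩ := hne
      refine ⟨v, ?_, ?_⟩
      · rintro rfl
        exact G.loopless.irrefl _ hv
      · intro b hb
        have h1 : (G.neighborSet a).ncard ≤ 1 := by
          unfold deg at hlt
          omega
        exact (Set.ncard_le_one (Set.toFinite _)).mp h1 b hb v hv
    · rw [Set.not_nonempty_iff_eq_empty] at hne
      have : ∃ v, v ≠ a := by
        by_contra hcon
        push Not at hcon
        have hsub : (univ : Finset V) ⊆ {a} := by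
          intro x _
          simp [hcon x]
        have h1 := Finset.card_le_card hsub
        rw [Finset.card_univ, Finset.card_singleton] at h1
        omega
      obtain ⟨v, hv⟩ := this
      refine ⟨v, hv, ?_⟩
      intro b hb
      exfalso
      have : b ∈ G.neighborSet a := hb
      rw [hne] at this
      exact this
  obtain ⟨v, hva, hv⟩ := hv
  have hx : ∃ x, x ≠ a ∧ x ≠ v := by
    by_contra hcon
    push Not at hcon
    have hsub : (univ : Finset V) ⊆ {a, v} := by
      intro x _
      by_cases hx : x = a
      · simp [hx]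
      · simp [hcon x hx]
    have h1 := Finset.card_le_card hsub
    have h2 : ({a, v} : Finset V).card ≤ 2 := Finset.card_le_two
    rw [Finset.card_univ] at h1
    omega
  obtain ⟨x, hxa, hxv⟩ := hx
  exact not_biconnected_of_sep G {a} v (s := a) (x := x) (by simp) (by simpa using hva)
    (by simpa using hxa) hxv (by
      intro c hc b hb
      rw [Set.mem_singleton_iff] at hc
      subst hc
      exact Or.inr (hv b hb)) h

/-- A clique `K` with at least two vertices such that all other vertices have all their
(at least two) neighbours in `K` forces biconnectedness. -/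
theorem biconnected_of_hub {V : Type*} [Fintype V] (G : SimpleGraph V)
    (hcard : 3 ≤ Fintype.card V) (K : Finset V) (hK : 2 ≤ K.card)
    (hcl : ∀ v ∈ K, ∀ w ∈ K, v ≠ w → G.Adj v w)
    (hout : ∀ w, w ∉ K → ∀ v, G.Adj w v → v ∈ K)
    (hdeg : ∀ w, w ∉ K → 2 ≤ deg G w) : Biconnected G := by
  classical
  apply biconnected_of_deleted G hcard
  intro v
  have hc : ∃ c ∈ K, c ≠ v := by
    by_contra hcon
    push Not at hcon
    have : K ⊆ {v} := by
      intro x hx
      simp [hcon x hx]
    have := Finset.card_le_card this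
    simp at this
    omega
  obtain ⟨c, hcK, hcv⟩ := hc
  have hcv' : c ∈ ({v}ᶜ : Set V) := by simpa using hcv
  have key1 : ∀ x (hx : x ∈ ({v}ᶜ : Set V)), x ∈ K →
      (G.induce ({v}ᶜ : Set V)).Reachable ⟨x, hx⟩ ⟨c, hcv'⟩ := by
    intro x hx hxK
    by_cases hxc : x = c
    · subst hxc
      exact SimpleGraph.Reachable.refl _
    · apply SimpleGraph.Adj.reachable
      simpa using hcl x hxK c hcK hxc
  have key : ∀ x : ({v}ᶜ : Set V), (G.induce ({v}ᶜ : Set V)).Reachable x ⟨c, hcv'⟩ := by
    rintro ⟨x, hx⟩
    by_cases hxK : x ∈ K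
    · exact key1 x hx hxK
    · have h1 : 1 < (G.neighborSet x).ncard := hdeg x hxK
      obtain ⟨y, hy, hyv⟩ := Set.exists_ne_of_one_lt_ncard h1 v
      have hyK : y ∈ K := hout x hxK y hy
      have hy' : y ∈ ({v}ᶜ : Set V) := by simpa using hyv
      refine SimpleGraph.Reachable.trans (v := ⟨y, hy'⟩) ?_ (key1 y hy' hyK)
      apply SimpleGraph.Adj.reachable
      simpa using hy
  have : Nonempty ({v}ᶜ : Set V) := ⟨⟨c, hcv'⟩⟩
  exact ⟨fun a b => (key a).trans (key b).symm⟩

/-- A vertex of degree at least `|V| - 2` misses at most one other vertex. -/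
theorem adj_or_adj {V : Type*} [Fintype V] (G : SimpleGraph V) {u x y : V}
    (hcard : 3 ≤ Fintype.card V)
    (hu : Fintype.card V ≤ deg G u + 2) (hxu : x ≠ u) (hyu : y ≠ u) (hxy : x ≠ y) :
    G.Adj u x ∨ G.Adj u y := by
  classical
  by_contra hcon
  push Not at hcon
  have hsub : G.neighborSet u ⊆ (((univ : Finset V).erase u).erase x).erase y := by
    intro w hw
    simp only [Finset.coe_erase, Finset.coe_univ, Set.mem_sdiff, Set.mem_univ, true_and,
      Set.mem_singleton_iff]
    refine ⟨⟨?_, ?_⟩, ?_⟩
    · rintro rfl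
      exact G.loopless.irrefl _ hw
    · rintro rfl
      exact hcon.1 hw
    · rintro rfl
      exact hcon.2 hw
  have h1 := Set.ncard_le_ncard hsub (Set.toFinite _)
  rw [Set.ncard_coe_finset, Finset.card_erase_of_mem (by simp [hyu, hxy.symm]),
    Finset.card_erase_of_mem (by simp [hxu]), Finset.card_erase_of_mem (by simp),
    Finset.card_univ] at h1
  unfold deg at hu
  omega

/-- Two vertices of degree at least `|V| - 2` and minimum degree two force biconnectedness. -/
theorem biconnected_of_two_big {V : Type*} [Fintype V] (G : SimpleGraph V)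
    (hcard : 4 ≤ Fintype.card V) {u w : V} (huw : u ≠ w)
    (hu : Fintype.card V ≤ deg G u + 2) (hw : Fintype.card V ≤ deg G w + 2)
    (hdeg : ∀ x, 2 ≤ deg G x) : Biconnected G := by
  classical
  apply biconnected_of_deleted G (by omega)
  -- general step: if v ≠ c, c big, then every x ≠ v, x ≠ c is reachable provided ...
  have step : ∀ (v c : V) (hcv : c ∈ ({v}ᶜ : Set V)) (_ : Fintype.card V ≤ deg G c + 2) (x : V)
      (hx : x ∈ ({v}ᶜ : Set V)),
      (G.induce ({v}ᶜ : Set V)).Reachable ⟨x, hx⟩ ⟨c, hcv⟩ := by
    intro v c hcv hc x hx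
    have hxv : x ≠ v := by simpa using hx
    have hcv2 : c ≠ v := by simpa using hcv
    by_cases hxc : x = c
    · subst hxc
      exact SimpleGraph.Reachable.refl _
    by_cases hadj : G.Adj c x
    · apply SimpleGraph.Adj.reachable
      simpa using hadj.symm
    · -- x is the missing vertex of c; take a neighbour y ≠ v of x
      have h1 : 1 < (G.neighborSet x).ncard := hdeg x
      obtain ⟨y, hy, hyv⟩ := Set.exists_ne_of_one_lt_ncard h1 v
      have hyx : x ≠ y := by
        rintro rfl
        exact G.loopless.irrefl _ hy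
      have hyc : y ≠ c := by
        rintro rfl
        exact hadj (SimpleGraph.Adj.symm hy)
      have hy' : y ∈ ({v}ᶜ : Set V) := by simpa using hyv
      have h2 : G.Adj c y := by
        rcases adj_or_adj G (by omega) hc hxc hyc hyx with h | h
        · exact absurd h hadj
        · exact h
      refine SimpleGraph.Reachable.trans (v := ⟨y, hy'⟩) ?_ ?_
      · apply SimpleGraph.Adj.reachable
        simpa using hy
      · apply SimpleGraph.Adj.reachable
        simpa using h2.symm
  intro v
  by_cases hv : u = v
  · have hwv : w ∈ ({v}ᶜ : Set V) := by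
      rw [← hv]
      simpa using huw.symm
    have : Nonempty ({v}ᶜ : Set V) := ⟨⟨w, hwv⟩⟩
    exact ⟨fun a b => (step v w hwv hw a.1 a.2).trans (step v w hwv hw b.1 b.2).symm⟩
  · have huv : u ∈ ({v}ᶜ : Set V) := by simpa using hv
    have : Nonempty ({v}ᶜ : Set V) := ⟨⟨u, huv⟩⟩
    exact ⟨fun a b => (step v u huv hu a.1 a.2).trans (step v u huv hu b.1 b.2).symm⟩

end Pool.Agent.H55.Bic
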