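import Pool.Agent.H55.BicReduce

/-!
Classification of the forcibly biconnected sequences with degree sum `4n-2`.
-/

namespace Pool.Agent.H55.Bic

open Finset Pool.Agent.H55.EG

theorem card_filter_val_lt {n m : ℕ} (hm : m ≤ n) :
    ((univ : Finset (Fin n)).filter (fun i => i.val < m)).card = m := by
  have : (univ : Finset (Fin n)).filter (fun i => i.val < m) =
      (univ : Finset (Fin m)).map (Fin.castLEEmb hm) := by
    ext i
    simp only [Finset.mem_filter, Finset.mem_univ, true_and, Finset.mem_map]
    constructor
    · intro h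
      exact ⟨⟨i.val, h⟩, by ext; simp⟩
    · rintro ⟨j, rfl⟩
      simp
  rw [this, Finset.card_map, Finset.card_univ, Fintype.card_fin]

theorem card_filter_val_ge {n m : ℕ} (hm : m ≤ n) :
    ((univ : Finset (Fin n)).filter (fun i => m ≤ i.val)).card = n - m := by
  have h1 := Finset.card_filter_add_card_filter_not (s := (univ : Finset (Fin n))) (fun i => i.val < m)
  rw [card_filter_val_lt hm, Finset.card_univ, Fintype.card_fin] at h1
  have h2 : (univ : Finset (Fin n)).filter (fun i => ¬ i.val < m) =
      (univ : Finset (Fin n)).filter (fun i => m ≤ i.val) := by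
    ext i
    simp
  rw [h2] at h1
  omega

theorem card_compl_filter_lt {n m : ℕ} (hm : m ≤ n) (K : Finset (Fin n)) :
    m ≤ (Kᶜ.filter (fun i => i.val < m)).card + K.card := by
  have h1 : (univ : Finset (Fin n)).filter (fun i => i.val < m) ⊆
      Kᶜ.filter (fun i => i.val < m) ∪ K := by
    intro i hi
    rw [Finset.mem_filter] at hi
    by_cases hK : i ∈ K
    · exact Finset.mem_union_right _ hK
    · apply Finset.mem_union_left
      rw [Finset.mem_filter, Finset.mem_compl]
      exact ⟨hK, hi.2⟩
  have h2 := Finset.card_le_card h1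
  rw [card_filter_val_lt hm] at h2
  exact h2.trans (Finset.card_union_le _ _)

section
variable {n : ℕ} (d : Fin n → ℕ)

/-- Lower bound for the sum of `min (d i) k + d i` over the complement of `K`. -/
theorem W_bound (K : Finset (Fin n)) (k a c m : ℕ) (hk : K.card = k) (hm : m ≤ n)
    (h : ∀ i : Fin n, a + (if i.val < m then c else 0) ≤ min (d i) k + d i) :
    a * (n - k) + c * (m - k) ≤ ∑ i ∈ Kᶜ, min (d i) k + ∑ i ∈ Kᶜ, d i := by
  rw [← Finset.sum_add_distrib]
  calc a * (n - k) + c * (m - k)
      ≤ ∑ i ∈ Kᶜ, (a + (if i.val < m then c else 0)) := by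
        rw [Finset.sum_add_distrib, Finset.sum_const, Finset.card_compl, Fintype.card_fin, hk,
          ← Finset.sum_filter, Finset.sum_const]
        have h1 := card_compl_filter_lt hm K
        rw [hk] at h1
        have h2 : c * (m - k) ≤ (Kᶜ.filter (fun i => i.val < m)).card * c := by
          rw [mul_comm]
          exact Nat.mul_le_mul_right _ (by omega)
        simp only [smul_eq_mul]
        rw [mul_comm (n - k) a]
        omega
    _ ≤ _ := Finset.sum_le_sum (fun i _ => h i)

theorem caseI (hn : 26 ≤ n) (hd : Antitone d) (hsum : ∑ i, d i = 4 * n - 2)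
    (h2 : ∀ i, 2 ≤ d i) (hEG : EGCond d)
    (hA : d ⟨1, by omega⟩ + 3 ≤ n)
    (hB : (∀ i : Fin n, i.val < 6 → 3 ≤ d i) ∨ (∀ i : Fin n, i.val < 5 → 4 ≤ d i))
    (hl1 : d ⟨n - 2, by omega⟩ = 2) (hl2 : d ⟨n - 1, by omega⟩ = 2) :
    ∃ G : SimpleGraph (Fin n), (∀ i, deg G i = d i) ∧ ¬ Biconnected G := by
  set v : Fin n := ⟨0, by omega⟩ with hv
  set S : Finset (Fin n) := {⟨n - 2, by omega⟩, ⟨n - 1, by omega⟩} with hS
  have hScard : S.card = 2 := by
    rw [hS, Finset.card_pair]
    intro h
    have := congrArg Fin.val h
    simp at this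
    omega
  have hvS : v ∉ S := by
    rw [hS, hv]
    simp only [Finset.mem_insert, Finset.mem_singleton, Fin.mk.injEq, not_or]
    omega
  have hdS : ∀ s ∈ S, d s = 2 := by
    intro s hs
    rw [hS] at hs
    simp only [Finset.mem_insert, Finset.mem_singleton] at hs
    rcases hs with rfl | rfl
    · exact hl1
    · exact hl2
  -- maximum and second maximum
  have hmax : ∀ i, d i ≤ d v := fun i => hd (by rw [hv, Fin.le_def]; simp)
  have hsec : ∀ i, i ≠ v → d i + 3 ≤ n := by
    intro i hi
    have h1 : (⟨1, by omega⟩ : Fin n) ≤ i := by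
      rw [Fin.le_def]
      have : i.val ≠ 0 := fun h => hi (by ext; simpa [hv] using h)
      simp
      omega
    have := hd h1
    omega
  have hdn : d v + 1 ≤ n := by
    have h1 := hEG {v}
    simp only [Finset.sum_singleton, Finset.card_singleton] at h1
    have h3 : ∑ i ∈ ({v} : Finset (Fin n))ᶜ, min (d i) 1 ≤ ∑ i ∈ ({v} : Finset (Fin n))ᶜ, 1 :=
      Finset.sum_le_sum (fun i _ => by omega)
    rw [Finset.sum_const, Finset.card_compl, Fintype.card_fin, Finset.card_singleton] at h3
    simp only [smul_eq_mul, mul_one] at h3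
    omega
  have hD4 : 4 ≤ d v := by
    by_contra hcon
    have h1 : ∑ i, d i ≤ ∑ i : Fin n, 3 :=
      Finset.sum_le_sum (fun i _ => by have := hmax i; omega)
    simp at h1
    omega
  apply exists_not_biconnected d S v 2 hScard (by norm_num) hvS hdS (h2 v)
    (x := ⟨1, by omega⟩)
    (by
      rw [hS]
      simp only [Finset.mem_insert, Finset.mem_singleton, Fin.mk.injEq, not_or]
      omega)
    (by rw [hv]; simp)
    (by rw [hsum]; exact ⟨2 * n - 1, by omega⟩)
  apply egcond_redF d S v 2 hScard hvS hdS (h2 v)
  · -- v in K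
    intro K _ hvK
    obtain ⟨k, hk⟩ : ∃ k, K.card = k := ⟨_, rfl⟩
    have hkpos : 1 ≤ k := by
      rw [← hk]
      exact Finset.card_pos.mpr ⟨v, hvK⟩
    have htot : ∑ i ∈ K, d i + ∑ i ∈ Kᶜ, d i = 4 * n - 2 := by
      rw [Finset.sum_add_sum_compl, hsum]
    have hkn : k ≤ n := by
      rw [← hk]
      simpa using Finset.card_le_univ K
    have hW0 := W_bound d K k 4 0 0 hk (by omega)
    rw [hk]
    by_cases hk1 : k = 1
    · have h1 := hEG K
      rw [hk] at h1
      subst hk1
      omega
    by_cases hk2 : k = 2
    · subst hk2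
      have h1 : ∑ i ∈ K, d i = d v + ∑ i ∈ K.erase v, d i := by
        rw [Finset.add_sum_erase _ _ hvK]
      have h3 : ∑ i ∈ K.erase v, d i ≤ ∑ i ∈ K.erase v, (n - 3) := by
        apply Finset.sum_le_sum
        intro i hi
        have := hsec i (Finset.mem_erase.mp hi).1
        omega
      rw [Finset.sum_const, Finset.card_erase_of_mem hvK, hk] at h3
      have h4 : ∑ i ∈ Kᶜ, 2 ≤ ∑ i ∈ Kᶜ, min (d i) 2 :=
        Finset.sum_le_sum (fun i _ => by have := h2 i; omega)
      rw [Finset.sum_const, Finset.card_compl, Fintype.card_fin, hk] at h4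
      simp only [smul_eq_mul] at h3 h4
      omega
    have hk3 : 3 ≤ k := by omega
    by_cases hk5 : 5 ≤ k
    · have hW := hW0 (by intro i; have := h2 i; simp; omega)
      obtain ⟨j, rfl⟩ : ∃ j, k = j + 5 := ⟨k - 5, by omega⟩
      have h5 : (j + 5) * (j + 5 - 1) = j * j + 9 * j + 20 := by
        have : j + 5 - 1 = j + 4 := by omega
        rw [this]
        ring
      rw [h5]
      have h6 : min 2 (j + 5) = 2 := by omega
      rw [h6]
      have h11 : 0 ≤ j * j := Nat.zero_le _
      generalize j * j = jj at h11 ⊢
      omega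
    · rcases hB with hB | hB
      · have hW := W_bound d K k 4 2 6 hk (by omega) (by
          intro i
          have h3 := h2 i
          by_cases hi : i.val < 6
          · have := hB i hi
            simp only [hi, if_true]
            omega
          · simp only [hi, if_false]
            omega)
        have hkc : k = 3 ∨ k = 4 := by omega
        rcases hkc with rfl | rfl <;> omega
      · have hkc : k = 3 ∨ k = 4 := by omega
        rcases hkc with rfl | rfl
        · have hW := W_bound d K 3 4 3 5 hk (by omega) (by
            intro i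
            have h3 := h2 i
            by_cases hi : i.val < 5
            · have := hB i hi
              simp only [hi, if_true]
              omega
            · simp only [hi, if_false]
              omega)
          omega
        · have hW := W_bound d K 4 4 4 5 hk (by omega) (by
            intro i
            have h3 := h2 i
            by_cases hi : i.val < 5
            · have := hB i hi
              simp only [hi, if_true]
              omega
            · simp only [hi, if_false]
              omega)
          omega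
  · -- v not in K
    intro K _ hvK
    obtain ⟨k, hk⟩ : ∃ k, K.card = k := ⟨_, rfl⟩
    have htot : ∑ i ∈ K, d i + ∑ i ∈ Kᶜ, d i = 4 * n - 2 := by
      rw [Finset.sum_add_sum_compl, hsum]
    have hvKc : v ∈ Kᶜ := by simpa using hvK
    have hkn : k + 1 ≤ n := by
      have h1 : (insert v K).card ≤ n := by simpa using Finset.card_le_univ (insert v K)
      rw [Finset.card_insert_of_notMem hvK, hk] at h1
      exact h1
    rw [hk]
    by_cases hk0 : k = 0
    · subst hk0
      have : K = ∅ := Finset.card_eq_zero.mp hk
      simp [this]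
    by_cases hk1 : k = 1
    · subst hk1
      have h3 : ∑ i ∈ K, d i ≤ ∑ i ∈ K, (n - 3) := by
        apply Finset.sum_le_sum
        intro i hi
        have := hsec i (by rintro rfl; exact hvK hi)
        omega
      have h4 : ∑ i ∈ Kᶜ, 1 ≤ ∑ i ∈ Kᶜ, min (d i) 1 :=
        Finset.sum_le_sum (fun i _ => by have := h2 i; omega)
      rw [Finset.sum_const, hk] at h3
      rw [Finset.sum_const, Finset.card_compl, Fintype.card_fin, hk] at h4
      simp only [smul_eq_mul] at h3 h4
      omega
    · have h4 : ∑ i ∈ Kᶜ, 2 ≤ ∑ i ∈ Kᶜ, min (d i) k :=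
        Finset.sum_le_sum (fun i _ => by have := h2 i; omega)
      rw [Finset.sum_const, Finset.card_compl, Fintype.card_fin, hk] at h4
      have h5 : ∑ i ∈ Kᶜ, d i = d v + ∑ i ∈ Kᶜ.erase v, d i := by
        rw [Finset.add_sum_erase _ _ hvKc]
      have h6 : ∑ i ∈ Kᶜ.erase v, 2 ≤ ∑ i ∈ Kᶜ.erase v, d i :=
        Finset.sum_le_sum (fun i _ => h2 i)
      rw [Finset.sum_const, Finset.card_erase_of_mem hvKc, Finset.card_compl, Fintype.card_fin,
        hk] at h6
      have h7 : ∑ i ∈ K, d i ≤ ∑ i ∈ K, d v := Finset.sum_le_sum (fun i _ => hmax i)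
      rw [Finset.sum_const, hk] at h7
      simp only [smul_eq_mul] at h4 h6 h7
      have h8 : min (d v) k ≤ min (d v - 2) k + 2 := by omega
      by_cases hk6 : 6 ≤ k
      · obtain ⟨j, rfl⟩ : ∃ j, k = j + 6 := ⟨k - 6, by omega⟩
        have h9 : (j + 6) * (j + 6 - 1) = j * j + 11 * j + 30 := by
          have : j + 6 - 1 = j + 5 := by omega
          rw [this]
          ring
        rw [h9]
        have h10 : min 2 (j + 6) = 2 := by omega
        rw [h10]
        have h11 : 0 ≤ j * j := Nat.zero_le _
        generalize j * j = jj at h11 ⊢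
        omega
      · have hkc : k = 2 ∨ k = 3 ∨ k = 4 ∨ k = 5 := by omega
        by_cases hD : 12 ≤ d v
        · rcases hkc with rfl | rfl | rfl | rfl <;> omega
        · rcases hkc with rfl | rfl | rfl | rfl <;> omega

/-- Lower bound for the sum over the complement when almost all entries are at least three. -/
theorem W_bound_high (hn : 26 ≤ n) (K : Finset (Fin n)) (k : ℕ) (hk : K.card = k)
    (h2 : ∀ i, 2 ≤ d i)
    (h3 : ∀ i : Fin n, i.val + 2 ≤ n → 3 ≤ d i) :
    (3 ≤ k → 6 * (n - k) ≤ ∑ i ∈ Kᶜ, min (d i) k + ∑ i ∈ Kᶜ, d i + 2) ∧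
    (k = 2 → 5 * (n - k) ≤ ∑ i ∈ Kᶜ, min (d i) k + ∑ i ∈ Kᶜ, d i + 1) := by
  have hone : ∑ i ∈ Kᶜ, (if n - 1 ≤ i.val then 1 else 0) ≤ 1 := by
    calc ∑ i ∈ Kᶜ, (if n - 1 ≤ i.val then 1 else 0)
        ≤ ∑ i : Fin n, (if n - 1 ≤ i.val then 1 else 0) :=
          Finset.sum_le_sum_of_subset (Finset.subset_univ _)
      _ = 1 := by
          rw [← Finset.card_filter, card_filter_val_ge (by omega)]
          omega
  constructor
  · intro hk3
    have h4 : ∑ i ∈ Kᶜ, 6 ≤ ∑ i ∈ Kᶜ, (min (d i) k + d i +
        ((if n - 1 ≤ i.val then 1 else 0) + (if n - 1 ≤ i.val then 1 else 0))) := by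
      apply Finset.sum_le_sum
      intro i _
      have h5 := h2 i
      by_cases hi : n - 1 ≤ i.val
      · simp only [hi, if_true]
        omega
      · have := h3 i (by omega)
        simp only [hi, if_false]
        omega
    rw [Finset.sum_add_distrib, Finset.sum_add_distrib, Finset.sum_add_distrib, Finset.sum_const,
      Finset.card_compl, Fintype.card_fin, hk, smul_eq_mul, mul_comm] at h4
    omega
  · intro hk2
    have h4 : ∑ i ∈ Kᶜ, 5 ≤ ∑ i ∈ Kᶜ, (min (d i) k + d i +
        (if n - 1 ≤ i.val then 1 else 0)) := by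
      apply Finset.sum_le_sum
      intro i _
      have h5 := h2 i
      by_cases hi : n - 1 ≤ i.val
      · simp only [hi, if_true]
        omega
      · have := h3 i (by omega)
        simp only [hi, if_false]
        omega
    rw [Finset.sum_add_distrib, Finset.sum_add_distrib, Finset.sum_const,
      Finset.card_compl, Fintype.card_fin, hk, smul_eq_mul, mul_comm] at h4
    omega

theorem caseHigh (hn : 26 ≤ n) (hd : Antitone d) (hsum : ∑ i, d i = 4 * n - 2)
    (h2 : ∀ i, 2 ≤ d i) (hEG : EGCond d)
    (h3 : ∀ i : Fin n, i.val + 2 ≤ n → 3 ≤ d i)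
    (S : Finset (Fin n)) (r : ℕ) (hr : r = 3 ∨ r = 4) (hScard : S.card = r)
    (hvS : (⟨0, by omega⟩ : Fin n) ∉ S) (hdS : ∀ s ∈ S, d s = r) (h1S : (⟨1, by omega⟩ : Fin n) ∉ S) :
    ∃ G : SimpleGraph (Fin n), (∀ i, deg G i = d i) ∧ ¬ Biconnected G := by
  set v : Fin n := ⟨0, by omega⟩ with hv
  have hmax : ∀ i, d i ≤ d v := fun i => hd (by rw [hv, Fin.le_def]; simp)
  have hD4 : 4 ≤ d v := by
    by_contra hcon
    have h1 : ∑ i, d i ≤ ∑ i : Fin n, 3 :=
      Finset.sum_le_sum (fun i _ => by have := hmax i; omega)
    simp at h1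
    omega
  have hdv : r ≤ d v := by omega
  apply exists_not_biconnected d S v r hScard (by omega) hvS hdS hdv
    (x := ⟨1, by omega⟩) h1S (by rw [hv]; simp)
    (by rw [hsum]; exact ⟨2 * n - 1, by omega⟩)
  apply egcond_redF d S v r hScard hvS hdS hdv
  · intro K _ hvK
    obtain ⟨k, hk⟩ : ∃ k, K.card = k := ⟨_, rfl⟩
    have hkpos : 1 ≤ k := by
      rw [← hk]
      exact Finset.card_pos.mpr ⟨v, hvK⟩
    have htot : ∑ i ∈ K, d i + ∑ i ∈ Kᶜ, d i = 4 * n - 2 := by
      rw [Finset.sum_add_sum_compl, hsum]
    have hkn : k ≤ n := by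
      rw [← hk]
      simpa using Finset.card_le_univ K
    obtain ⟨hW3, hW2⟩ := W_bound_high d hn K k hk h2 h3
    rw [hk]
    by_cases hk1 : k = 1
    · have h1 := hEG K
      rw [hk] at h1
      subst hk1
      rcases hr with rfl | rfl <;> omega
    by_cases hk2 : k = 2
    · have hW := hW2 hk2
      subst hk2
      rcases hr with rfl | rfl <;> omega
    have hk3 : 3 ≤ k := by omega
    have hW := hW3 hk3
    obtain ⟨j, rfl⟩ : ∃ j, k = j + 3 := ⟨k - 3, by omega⟩
    have h5 : (j + 3) * (j + 3 - 1) = j * j + 5 * j + 6 := by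
      have : j + 3 - 1 = j + 2 := by omega
      rw [this]
      ring
    rw [h5]
    have hjj : j ≤ j * j := Nat.le_mul_self j
    generalize j * j = jj at hjj ⊢
    rcases hr with rfl | rfl <;> omega
  · intro K _ hvK
    obtain ⟨k, hk⟩ : ∃ k, K.card = k := ⟨_, rfl⟩
    have htot : ∑ i ∈ K, d i + ∑ i ∈ Kᶜ, d i = 4 * n - 2 := by
      rw [Finset.sum_add_sum_compl, hsum]
    have hvKc : v ∈ Kᶜ := by simpa using hvK
    have hkn : k + 1 ≤ n := by
      have h1 : (insert v K).card ≤ n := by simpa using Finset.card_le_univ (insert v K)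
      rw [Finset.card_insert_of_notMem hvK, hk] at h1
      exact h1
    obtain ⟨hW3, hW2⟩ := W_bound_high d hn K k hk h2 h3
    rw [hk]
    by_cases hk0 : k = 0
    · subst hk0
      have : K = ∅ := Finset.card_eq_zero.mp hk
      simp [this]
    by_cases hk1 : k = 1
    · subst hk1
      have h4 : ∑ i ∈ Kᶜ, 1 ≤ ∑ i ∈ Kᶜ, min (d i) 1 :=
        Finset.sum_le_sum (fun i _ => by have := h2 i; omega)
      rw [Finset.sum_const, Finset.card_compl, Fintype.card_fin, hk] at h4
      have h7 : ∑ i ∈ K, d i ≤ ∑ i ∈ K, d v := Finset.sum_le_sum (fun i _ => hmax i)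
      rw [Finset.sum_const, hk] at h7
      have hone : ∑ i ∈ Kᶜ.erase v, (if n - 1 ≤ i.val then 1 else 0) ≤ 1 := by
        calc ∑ i ∈ Kᶜ.erase v, (if n - 1 ≤ i.val then 1 else 0)
            ≤ ∑ i : Fin n, (if n - 1 ≤ i.val then 1 else 0) :=
              Finset.sum_le_sum_of_subset (Finset.subset_univ _)
          _ = 1 := by
              rw [← Finset.card_filter, card_filter_val_ge (by omega)]
              omega
      have h8 : ∑ i ∈ Kᶜ.erase v, 3 ≤ ∑ i ∈ Kᶜ.erase v, (d i +
          (if n - 1 ≤ i.val then 1 else 0)) := by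
        apply Finset.sum_le_sum
        intro i _
        have h5 := h2 i
        by_cases hi : n - 1 ≤ i.val
        · simp only [hi, if_true]
          omega
        · have := h3 i (by omega)
          simp only [hi, if_false]
          omega
      rw [Finset.sum_add_distrib, Finset.sum_const, Finset.card_erase_of_mem hvKc,
        Finset.card_compl, Fintype.card_fin, hk] at h8
      have h5 : ∑ i ∈ Kᶜ, d i = d v + ∑ i ∈ Kᶜ.erase v, d i := by
        rw [Finset.add_sum_erase _ _ hvKc]
      simp only [smul_eq_mul] at h4 h7 h8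
      rcases hr with rfl | rfl <;> omega
    by_cases hk2 : k = 2
    · have hW := hW2 hk2
      subst hk2
      rcases hr with rfl | rfl <;> omega
    have hk3 : 3 ≤ k := by omega
    have hW := hW3 hk3
    obtain ⟨j, rfl⟩ : ∃ j, k = j + 3 := ⟨k - 3, by omega⟩
    have h5 : (j + 3) * (j + 3 - 1) = j * j + 5 * j + 6 := by
      have : j + 3 - 1 = j + 2 := by omega
      rw [this]
      ring
    rw [h5]
    have hjj : j ≤ j * j := Nat.le_mul_self j
    generalize j * j = jj at hjj ⊢
    rcases hr with rfl | rfl <;> omega

/-- **Classification.** A forcibly biconnected sequence of length `n ≥ 26` with sum `4n-2`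
has `d 1 ≥ n-2`, or `d 4 = 3` and `d 5 = 2` (indices from zero). -/
theorem classification (hn : 26 ≤ n) (hd : Antitone d) (hsum : ∑ i, d i = 4 * n - 2)
    (h2 : ∀ i, 2 ≤ d i) (hEG : EGCond d)
    (hall : ∀ G : SimpleGraph (Fin n), (∀ i, deg G i = d i) → Biconnected G) :
    n ≤ d ⟨1, by omega⟩ + 2 ∨ (d ⟨4, by omega⟩ = 3 ∧ d ⟨5, by omega⟩ = 2) := by
  by_contra hcon
  push Not at hcon
  obtain ⟨hA, hB⟩ := hcon
  have hgoal : ∃ G : SimpleGraph (Fin n), (∀ i, deg G i = d i) ∧ ¬ Biconnected G := by
    by_cases hlast : d ⟨n - 2, by omega⟩ = 2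
    · -- case I
      have hl2 : d ⟨n - 1, by omega⟩ = 2 := by
        have h1 : d ⟨n - 1, by omega⟩ ≤ d ⟨n - 2, by omega⟩ := hd (by rw [Fin.le_def]; simp; omega)
        have := h2 ⟨n - 1, by omega⟩
        omega
      apply caseI d hn hd hsum h2 hEG (by omega) ?_ hlast hl2
      by_cases h5 : 3 ≤ d ⟨5, by omega⟩
      · left
        intro i hi
        have : d ⟨5, by omega⟩ ≤ d i := hd (by rw [Fin.le_def]; simp; omega)
        omega
      · right
        have h5' : d ⟨5, by omega⟩ = 2 := by
          have := h2 ⟨5, by omega⟩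
          omega
        have h4 : d ⟨4, by omega⟩ ≠ 3 := fun h => hB h h5'
        -- d i = 2 for i ≥ 5
        have hrest : ∀ i : Fin n, 5 ≤ i.val → d i = 2 := by
          intro i hi
          have h6 : d i ≤ d ⟨5, by omega⟩ := hd (by rw [Fin.le_def]; simpa using hi)
          have := h2 i
          omega
        -- use EG at the first four
        set K : Finset (Fin n) := (univ : Finset (Fin n)).filter (fun i => i.val < 4) with hK
        have hKc : K.card = 4 := card_filter_val_lt (by omega)
        have h7 := hEG K
        rw [hKc] at h7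
        have htot : ∑ i ∈ K, d i + ∑ i ∈ Kᶜ, d i = 4 * n - 2 := by
          rw [Finset.sum_add_sum_compl, hsum]
        set w : Fin n := ⟨4, by omega⟩ with hw
        have hwK : w ∈ Kᶜ := by
          rw [hK, hw]
          simp
        have hrest' : ∀ i ∈ Kᶜ.erase w, d i = 2 := by
          intro i hi
          rw [Finset.mem_erase, Finset.mem_compl, hK, Finset.mem_filter] at hi
          apply hrest
          by_contra h8
          have h9 : i.val ≠ 4 := fun h => hi.1 (by ext; simpa [hw] using h)
          exact hi.2 ⟨Finset.mem_univ _, by omega⟩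
        have h10 : ∑ i ∈ Kᶜ, d i = d w + 2 * (n - 5) := by
          rw [← Finset.add_sum_erase _ _ hwK, Finset.sum_congr rfl hrest', Finset.sum_const,
            Finset.card_erase_of_mem hwK, Finset.card_compl, Fintype.card_fin, hKc]
          simp only [smul_eq_mul]
          omega
        have h11 : ∑ i ∈ Kᶜ, min (d i) 4 = min (d w) 4 + 2 * (n - 5) := by
          rw [← Finset.add_sum_erase _ _ hwK, Finset.sum_congr rfl (g := fun _ => 2)
            (fun i hi => by rw [hrest' i hi]; rfl), Finset.sum_const,
            Finset.card_erase_of_mem hwK, Finset.card_compl, Fintype.card_fin, hKc]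
          simp only [smul_eq_mul]
          omega
        have h12 : 4 ≤ d w := by omega
        intro i hi
        have : d w ≤ d i := hd (by rw [Fin.le_def, hw]; simp; omega)
        omega
    · have hlast3 : 3 ≤ d ⟨n - 2, by omega⟩ := by
        have := h2 ⟨n - 2, by omega⟩
        omega
      have h3 : ∀ i : Fin n, i.val + 2 ≤ n → 3 ≤ d i := by
        intro i hi
        have : d ⟨n - 2, by omega⟩ ≤ d i := hd (by rw [Fin.le_def]; simp; omega)
        omega
      by_cases h4 : d ⟨n - 4, by omega⟩ ≤ 3
      · -- three threes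
        set S : Finset (Fin n) := {⟨n - 4, by omega⟩, ⟨n - 3, by omega⟩, ⟨n - 2, by omega⟩} with hS
        have hScard : S.card = 3 := by
          rw [hS]
          rw [Finset.card_eq_three]
          refine ⟨_, _, _, ?_, ?_, ?_, rfl⟩
          · intro h
            have := congrArg Fin.val h
            simp at this
            omega
          · intro h
            have := congrArg Fin.val h
            simp at this
            omega
          · intro h
            have := congrArg Fin.val h
            simp at this
            omega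
        apply caseHigh d hn hd hsum h2 hEG h3 S 3 (Or.inl rfl) hScard
        · rw [hS]
          simp only [Finset.mem_insert, Finset.mem_singleton, Fin.mk.injEq, not_or]
          omega
        · intro s hs
          rw [hS] at hs
          simp only [Finset.mem_insert, Finset.mem_singleton] at hs
          have e1 : d ⟨n - 3, by omega⟩ ≤ d ⟨n - 4, by omega⟩ := hd (by rw [Fin.le_def]; simp; omega)
          have e2 : d ⟨n - 2, by omega⟩ ≤ d ⟨n - 3, by omega⟩ := hd (by rw [Fin.le_def]; simp; omega)
          rcases hs with rfl | rfl | rfl <;> omega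
        · rw [hS]
          simp only [Finset.mem_insert, Finset.mem_singleton, Fin.mk.injEq, not_or]
          omega
      · -- almost all entries are 4
        push Not at h4
        have h4' : ∀ i : Fin n, i.val + 4 ≤ n → 4 ≤ d i := by
          intro i hi
          have : d ⟨n - 4, by omega⟩ ≤ d i := hd (by rw [Fin.le_def]; simp; omega)
          omega
        have hd2 : d ⟨2, by omega⟩ ≤ 4 := by
          by_contra hcon
          push Not at hcon
          have h5 : ∀ i : Fin n, 4 + (if i.val < 3 then 1 else 0) ≤
              d i + ((if n - 3 ≤ i.val then 1 else 0) + (if n - 1 ≤ i.val then 1 else 0)) := by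
            intro i
            have h6 := h2 i
            by_cases hi : i.val < 3
            · have : d ⟨2, by omega⟩ ≤ d i := hd (by rw [Fin.le_def]; simp; omega)
              have e1 : ¬ (n - 3 ≤ i.val) := by omega
              have e2 : ¬ (n - 1 ≤ i.val) := by omega
              simp only [hi, e1, e2, if_true, if_false]
              omega
            · by_cases e1 : n - 3 ≤ i.val
              · by_cases e2 : n - 1 ≤ i.val
                · simp only [hi, e1, e2, if_true, if_false]
                  omega
                · have := h3 i (by omega)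
                  simp only [hi, e1, e2, if_true, if_false]
                  omega
              · have e2 : ¬ (n - 1 ≤ i.val) := by omega
                have := h4' i (by omega)
                simp only [hi, e1, e2, if_false]
                omega
          have h7 := Finset.sum_le_sum (fun i (_ : i ∈ (univ : Finset (Fin n))) => h5 i)
          rw [Finset.sum_add_distrib, Finset.sum_add_distrib, Finset.sum_add_distrib,
            ← Finset.card_filter, ← Finset.card_filter, ← Finset.card_filter,
            card_filter_val_lt (by omega), card_filter_val_ge (by omega),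
            card_filter_val_ge (by omega), hsum, Finset.sum_const, Finset.card_univ,
            Fintype.card_fin, smul_eq_mul] at h7
          omega
        have hval : ∀ i : Fin n, 2 ≤ i.val → i.val ≤ 5 → d i = 4 := by
          intro i hi1 hi2
          have e1 : d i ≤ d ⟨2, by omega⟩ := hd (by rw [Fin.le_def]; simpa using hi1)
          have e2 := h4' i (by omega)
          omega
        set S : Finset (Fin n) := {⟨2, by omega⟩, ⟨3, by omega⟩, ⟨4, by omega⟩, ⟨5, by omega⟩} with hS
        have hScard : S.card = 4 := by
          rw [hS]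
          rw [Finset.card_insert_of_notMem (by simp), Finset.card_insert_of_notMem (by simp),
            Finset.card_insert_of_notMem (by simp), Finset.card_singleton]
        apply caseHigh d hn hd hsum h2 hEG h3 S 4 (Or.inr rfl) hScard
        · rw [hS]
          simp
        · intro s hs
          rw [hS] at hs
          simp only [Finset.mem_insert, Finset.mem_singleton] at hs
          rcases hs with rfl | rfl | rfl | rfl <;> exact hval _ (by simp) (by simp)
        · rw [hS]
          simp
  obtain ⟨G, hG1, hG2⟩ := hgoal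
  exact hG2 (hall G hG1)

end

end Pool.Agent.H55.Bic
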