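import Pool.Agent.H55.BicClass

/-!
Counting forcibly biconnected sequences near the degree sum `4n`.
-/

namespace Pool.Agent.H55.Bic

open Finset Pool.Agent.H55.EG

/-- the sequence with the first eight entries given and all other entries equal to `2` -/
def sq (n a0 a1 a2 a3 a4 a5 a6 a7 : ℕ) : Fin n → ℕ := fun i =>
  if i.val = 0 then a0 else if i.val = 1 then a1 else if i.val = 2 then a2 else
  if i.val = 3 then a3 else if i.val = 4 then a4 else if i.val = 5 then a5 else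
  if i.val = 6 then a6 else if i.val = 7 then a7 else 2

theorem sq_sum {n : ℕ} (hn : 8 ≤ n) (a0 a1 a2 a3 a4 a5 a6 a7 : ℕ) :
    ∑ i, sq n a0 a1 a2 a3 a4 a5 a6 a7 i =
      a0 + a1 + a2 + a3 + a4 + a5 + a6 + a7 + 2 * (n - 8) := by
  obtain ⟨k, rfl⟩ : ∃ k, n = k + 8 := ⟨n - 8, by omega⟩
  simp only [Fin.sum_univ_succ, sq, Fin.val_zero, Fin.val_succ]
  simp
  omega

theorem sq_inj {n : ℕ} (hn : 8 ≤ n) {a0 a1 a2 a3 a4 a5 a6 a7 b0 b1 b2 b3 b4 b5 b6 b7 : ℕ}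
    (h : sq n a0 a1 a2 a3 a4 a5 a6 a7 = sq n b0 b1 b2 b3 b4 b5 b6 b7) :
    a0 = b0 ∧ a1 = b1 ∧ a2 = b2 ∧ a3 = b3 ∧ a4 = b4 ∧ a5 = b5 ∧ a6 = b6 ∧ a7 = b7 := by
  have e0 := congrFun h ⟨0, by omega⟩
  have e1 := congrFun h ⟨1, by omega⟩
  have e2 := congrFun h ⟨2, by omega⟩
  have e3 := congrFun h ⟨3, by omega⟩
  have e4 := congrFun h ⟨4, by omega⟩
  have e5 := congrFun h ⟨5, by omega⟩
  have e6 := congrFun h ⟨6, by omega⟩
  have e7 := congrFun h ⟨7, by omega⟩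
  simp only [sq] at e0 e1 e2 e3 e4 e5 e6 e7
  norm_num at e0 e1 e2 e3 e4 e5 e6 e7
  exact ⟨e0, e1, e2, e3, e4, e5, e6, e7⟩

theorem sq_antitone (n : ℕ) {a0 a1 a2 a3 a4 a5 a6 a7 : ℕ} (h0 : a1 ≤ a0) (h1 : a2 ≤ a1)
    (h2 : a3 ≤ a2) (h3 : a4 ≤ a3) (h4 : a5 ≤ a4) (h5 : a6 ≤ a5) (h6 : a7 ≤ a6) (h7 : 2 ≤ a7) :
    Antitone (sq n a0 a1 a2 a3 a4 a5 a6 a7) := by
  intro i j hij
  have hij' : i.val ≤ j.val := hij
  unfold sq
  split_ifs <;> omega

theorem sq_ge_two (n : ℕ) {a0 a1 a2 a3 a4 a5 a6 a7 : ℕ} (h0 : a1 ≤ a0) (h1 : a2 ≤ a1)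
    (h2 : a3 ≤ a2) (h3 : a4 ≤ a3) (h4 : a5 ≤ a4) (h5 : a6 ≤ a5) (h6 : a7 ≤ a6) (h7 : 2 ≤ a7) :
    ∀ i, 2 ≤ sq n a0 a1 a2 a3 a4 a5 a6 a7 i := by
  intro i
  unfold sq
  split_ifs <;> omega

theorem sq_le_first (n : ℕ) {a0 a1 a2 a3 a4 a5 a6 a7 : ℕ} (h0 : a1 ≤ a0) (h1 : a2 ≤ a1)
    (h2 : a3 ≤ a2) (h3 : a4 ≤ a3) (h4 : a5 ≤ a4) (h5 : a6 ≤ a5) (h6 : a7 ≤ a6) (h7 : 2 ≤ a7) :
    ∀ i, sq n a0 a1 a2 a3 a4 a5 a6 a7 i ≤ a0 := by
  intro i
  unfold sq
  split_ifs <;> omega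

theorem eq_sq {n : ℕ} (hn : 8 ≤ n) (d : Fin n → ℕ) (h : ∀ i : Fin n, 8 ≤ i.val → d i = 2) :
    d = sq n (d ⟨0, by omega⟩) (d ⟨1, by omega⟩) (d ⟨2, by omega⟩) (d ⟨3, by omega⟩)
      (d ⟨4, by omega⟩) (d ⟨5, by omega⟩) (d ⟨6, by omega⟩) (d ⟨7, by omega⟩) := by
  funext i
  unfold sq
  split_ifs with h0 h1 h2 h3 h4 h5 h6 h7
  · congr 1; ext; exact h0
  · congr 1; ext; exact h1
  · congr 1; ext; exact h2
  · congr 1; ext; exact h3
  · congr 1; ext; exact h4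
  · congr 1; ext; exact h5
  · congr 1; ext; exact h6
  · congr 1; ext; exact h7
  · exact h i (by omega)

section
variable {n : ℕ}

/-- the Erdos-Gallai condition for sequences of sum `4n-4` with at least four entries `≥ 3` -/
theorem egcond_low (d : Fin n → ℕ) (hn : 8 ≤ n) (h2 : ∀ i, 2 ≤ d i) (hmax : ∀ i, d i + 1 ≤ n)
    (hsum : ∑ i, d i = 4 * n - 4) (h3 : ∀ i : Fin n, i.val < 4 → 3 ≤ d i) : EGCond d := by
  intro K
  obtain ⟨k, hk⟩ : ∃ k, K.card = k := ⟨_, rfl⟩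
  have htot : ∑ i ∈ K, d i + ∑ i ∈ Kᶜ, d i = 4 * n - 4 := by
    rw [Finset.sum_add_sum_compl, hsum]
  have hkn : k ≤ n := by
    rw [← hk]
    simpa using Finset.card_le_univ K
  have hK : ∑ i ∈ K, d i ≤ ∑ i ∈ K, (n - 1) :=
    Finset.sum_le_sum (fun i _ => by have := hmax i; omega)
  rw [Finset.sum_const, hk, smul_eq_mul] at hK
  rw [hk]
  by_cases hk0 : k = 0
  · subst hk0
    have : K = ∅ := Finset.card_eq_zero.mp hk
    simp [this]
  by_cases hk1 : k = 1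
  · subst hk1
    have h4 : ∑ i ∈ Kᶜ, 1 ≤ ∑ i ∈ Kᶜ, min (d i) 1 :=
      Finset.sum_le_sum (fun i _ => by have := h2 i; omega)
    rw [Finset.sum_const, Finset.card_compl, Fintype.card_fin, hk, smul_eq_mul] at h4
    omega
  by_cases hk2 : k = 2
  · subst hk2
    have h4 : ∑ i ∈ Kᶜ, 2 ≤ ∑ i ∈ Kᶜ, min (d i) 2 :=
      Finset.sum_le_sum (fun i _ => by have := h2 i; omega)
    rw [Finset.sum_const, Finset.card_compl, Fintype.card_fin, hk, smul_eq_mul] at h4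
    omega
  by_cases hk3 : k = 3
  · subst hk3
    have hW := W_bound d K 3 4 2 4 hk (by omega) (by
      intro i
      have h4 := h2 i
      by_cases hi : i.val < 4
      · have := h3 i hi
        simp only [hi, if_true]
        omega
      · simp only [hi, if_false]
        omega)
    omega
  · have hW := W_bound d K k 4 0 0 hk (by omega) (by intro i; have := h2 i; simp; omega)
    obtain ⟨j, rfl⟩ : ∃ j, k = j + 4 := ⟨k - 4, by omega⟩
    have h5 : (j + 4) * (j + 4 - 1) = j * j + 7 * j + 12 := by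
      have : j + 4 - 1 = j + 3 := by omega
      rw [this]
      ring
    rw [h5]
    have h11 : 0 ≤ j * j := Nat.zero_le _
    generalize j * j = jj at h11 ⊢
    omega

/-- the Erdos-Gallai condition for sequences of sum `4n` with at least five entries `≥ 4` -/
theorem egcond_high (d : Fin n → ℕ) (hn : 8 ≤ n) (h2 : ∀ i, 2 ≤ d i) (hmax : ∀ i, d i + 1 ≤ n)
    (hsum : ∑ i, d i = 4 * n) (h3 : ∀ i : Fin n, i.val < 5 → 4 ≤ d i) : EGCond d := by
  intro K
  obtain ⟨k, hk⟩ : ∃ k, K.card = k := ⟨_, rfl⟩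
  have htot : ∑ i ∈ K, d i + ∑ i ∈ Kᶜ, d i = 4 * n := by
    rw [Finset.sum_add_sum_compl, hsum]
  have hkn : k ≤ n := by
    rw [← hk]
    simpa using Finset.card_le_univ K
  have hK : ∑ i ∈ K, d i ≤ ∑ i ∈ K, (n - 1) :=
    Finset.sum_le_sum (fun i _ => by have := hmax i; omega)
  rw [Finset.sum_const, hk, smul_eq_mul] at hK
  rw [hk]
  by_cases hk0 : k = 0
  · subst hk0
    have : K = ∅ := Finset.card_eq_zero.mp hk
    simp [this]
  by_cases hk1 : k = 1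
  · subst hk1
    have h4 : ∑ i ∈ Kᶜ, 1 ≤ ∑ i ∈ Kᶜ, min (d i) 1 :=
      Finset.sum_le_sum (fun i _ => by have := h2 i; omega)
    rw [Finset.sum_const, Finset.card_compl, Fintype.card_fin, hk, smul_eq_mul] at h4
    omega
  by_cases hk2 : k = 2
  · subst hk2
    have h4 : ∑ i ∈ Kᶜ, 2 ≤ ∑ i ∈ Kᶜ, min (d i) 2 :=
      Finset.sum_le_sum (fun i _ => by have := h2 i; omega)
    rw [Finset.sum_const, Finset.card_compl, Fintype.card_fin, hk, smul_eq_mul] at h4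
    omega
  by_cases hk3 : k = 3
  · subst hk3
    have hW := W_bound d K 3 4 3 5 hk (by omega) (by
      intro i
      have h4 := h2 i
      by_cases hi : i.val < 5
      · have := h3 i hi
        simp only [hi, if_true]
        omega
      · simp only [hi, if_false]
        omega)
    omega
  by_cases hk4 : k = 4
  · subst hk4
    have hW := W_bound d K 4 4 4 5 hk (by omega) (by
      intro i
      have h4 := h2 i
      by_cases hi : i.val < 5
      · have := h3 i hi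
        simp only [hi, if_true]
        omega
      · simp only [hi, if_false]
        omega)
    omega
  · have hW := W_bound d K k 4 0 0 hk (by omega) (by intro i; have := h2 i; simp; omega)
    obtain ⟨j, rfl⟩ : ∃ j, k = j + 5 := ⟨k - 5, by omega⟩
    have h5 : (j + 5) * (j + 5 - 1) = j * j + 9 * j + 20 := by
      have : j + 5 - 1 = j + 4 := by omega
      rw [this]
      ring
    rw [h5]
    have h11 : 0 ≤ j * j := Nat.zero_le _
    generalize j * j = jj at h11 ⊢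
    omega

theorem realizes_iff (G : SimpleGraph (Fin n)) (d : Fin n → ℕ) :
    Realizes G d ↔ ∀ i, deg G i = d i := Iff.rfl

/-- tight sequences with `m` hubs are forcibly biconnected -/
theorem forcibly_of_tight (d : Fin n → ℕ) (m : ℕ) (hm2 : 2 ≤ m) (hmn : m ≤ n) (hn : 3 ≤ n)
    (h2 : ∀ i, 2 ≤ d i) (htail : ∀ i : Fin n, m ≤ i.val → d i = 2)
    (hsum : ∑ i, d i = m * (m - 1) + 4 * (n - m)) (hev : Even (∑ i, d i)) (hEG : EGCond d) :
    ForciblyBiconnected d := by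
  refine ⟨?_, ?_⟩
  · obtain ⟨G, hG⟩ := exists_graph_of_egcond _ d rfl hev hEG
    exact ⟨G, hG⟩
  · intro G hG
    rw [realizes_iff] at hG
    set K : Finset (Fin n) := (univ : Finset (Fin n)).filter (fun i => i.val < m) with hK
    have hKc : K.card = m := card_filter_val_lt hmn
    have hcompl : ∑ i ∈ Kᶜ, d i = 2 * (n - m) := by
      rw [Finset.sum_congr rfl (g := fun _ => 2), Finset.sum_const, Finset.card_compl,
        Fintype.card_fin, hKc, smul_eq_mul, mul_comm]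
      intro i hi
      apply htail
      rw [Finset.mem_compl, hK, Finset.mem_filter] at hi
      by_contra h
      exact hi ⟨Finset.mem_univ _, by omega⟩
    have htot : ∑ i ∈ K, d i + ∑ i ∈ Kᶜ, d i = m * (m - 1) + 4 * (n - m) := by
      rw [Finset.sum_add_sum_compl, hsum]
    obtain ⟨h3, h4⟩ := tight_structure G d hG K (by rw [hKc, hcompl]; omega)
    exact biconnected_of_hub G (by simpa using hn) K (by omega) h3 h4
      (fun w _ => by rw [hG]; exact h2 w)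

/-- sequences with two entries at least `n-2` are forcibly biconnected -/
theorem forcibly_of_two_big (d : Fin n → ℕ) (hn : 4 ≤ n)
    (h2 : ∀ i, 2 ≤ d i) (h0 : n ≤ d ⟨0, by omega⟩ + 2) (h1 : n ≤ d ⟨1, by omega⟩ + 2)
    (hev : Even (∑ i, d i)) (hEG : EGCond d) :
    ForciblyBiconnected d := by
  refine ⟨?_, ?_⟩
  · obtain ⟨G, hG⟩ := exists_graph_of_egcond _ d rfl hev hEG
    exact ⟨G, hG⟩
  · intro G hG
    rw [realizes_iff] at hG
    apply biconnected_of_two_big G (by simpa using hn) (u := ⟨0, by omega⟩) (w := ⟨1, by omega⟩)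
      (by simp)
    · rw [Fintype.card_fin, hG]
      exact h0
    · rw [Fintype.card_fin, hG]
      exact h1
    · intro x
      rw [hG]
      exact h2 x

theorem F2set_finite (n N : ℕ) : (F2set n N).Finite := by
  apply Set.Finite.subset (Finset.finite_toSet (Fintype.piFinset (fun _ : Fin n => range (N + 1))))
  intro d hd
  rw [Finset.mem_coe, Fintype.mem_piFinset]
  intro i
  rw [Finset.mem_range]
  have h1 : d i ≤ ∑ j, d j := Finset.single_le_sum (f := d) (fun _ _ => Nat.zero_le _) (Finset.mem_univ i)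
  have h2 : ∑ j, d j = N := hd.2.1
  omega

theorem mem_F2set_4 (hn : 8 ≤ n) {a0 a1 a2 a3 : ℕ} (h0 : a0 + 1 ≤ n) (h1 : a1 ≤ a0) (h2 : a2 ≤ a1)
    (h3 : a3 ≤ a2) (h4 : 3 ≤ a3) (hs : a0 + a1 + a2 + a3 = 2 * n + 4) :
    sq n a0 a1 a2 a3 2 2 2 2 ∈ F2set n (4 * n - 4) := by
  have hsum : ∑ i, sq n a0 a1 a2 a3 2 2 2 2 i = 4 * n - 4 := by
    rw [sq_sum hn]
    omega
  have hanti : Antitone (sq n a0 a1 a2 a3 2 2 2 2) :=
    sq_antitone n h1 h2 h3 (by omega) le_rfl le_rfl le_rfl le_rfl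
  have hge := sq_ge_two n h1 h2 h3 (by omega : 2 ≤ a3) le_rfl le_rfl le_rfl le_rfl
  have hle := sq_le_first n h1 h2 h3 (by omega : 2 ≤ a3) le_rfl le_rfl le_rfl le_rfl
  have hEG : EGCond (sq n a0 a1 a2 a3 2 2 2 2) := by
    apply egcond_low _ hn hge (fun i => by have := hle i; omega) hsum
    intro i hi
    unfold sq
    split_ifs <;> omega
  refine ⟨hanti, hsum, ?_⟩
  apply forcibly_of_tight _ 4 (by norm_num) (by omega) (by omega) hge ?_ (by rw [hsum]; omega)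
    (by rw [hsum]; exact ⟨2 * n - 2, by omega⟩) hEG
  intro i hi
  unfold sq
  split_ifs <;> omega

theorem mem_F2set_5 (hn : 8 ≤ n) {a0 a1 a2 a3 a4 : ℕ} (h0 : a0 + 1 ≤ n) (h1 : a1 ≤ a0)
    (h2 : a2 ≤ a1) (h3 : a3 ≤ a2) (h4 : a4 ≤ a3) (h5 : 4 ≤ a4)
    (hs : a0 + a1 + a2 + a3 + a4 = 2 * n + 10) :
    sq n a0 a1 a2 a3 a4 2 2 2 ∈ F2set n (4 * n) := by
  have hsum : ∑ i, sq n a0 a1 a2 a3 a4 2 2 2 i = 4 * n := by
    rw [sq_sum hn]
    omega
  have hanti : Antitone (sq n a0 a1 a2 a3 a4 2 2 2) :=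
    sq_antitone n h1 h2 h3 h4 (by omega) le_rfl le_rfl le_rfl
  have hge := sq_ge_two n h1 h2 h3 h4 (by omega : 2 ≤ a4) le_rfl le_rfl le_rfl
  have hle := sq_le_first n h1 h2 h3 h4 (by omega : 2 ≤ a4) le_rfl le_rfl le_rfl
  have hEG : EGCond (sq n a0 a1 a2 a3 a4 2 2 2) := by
    apply egcond_high _ hn hge (fun i => by have := hle i; omega) hsum
    intro i hi
    unfold sq
    split_ifs <;> omega
  refine ⟨hanti, hsum, ?_⟩
  apply forcibly_of_tight _ 5 (by norm_num) (by omega) (by omega) hge ?_ (by rw [hsum]; omega)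
    (by rw [hsum]; exact ⟨2 * n, by omega⟩) hEG
  intro i hi
  unfold sq
  split_ifs <;> omega

theorem mem_F2set_A (hn : 8 ≤ n) {a0 a1 a2 a3 a4 a5 : ℕ} (h0 : a0 + 1 ≤ n) (h1 : a1 ≤ a0)
    (h2 : a2 ≤ a1) (h3 : a3 ≤ a2) (h4 : a4 ≤ a3) (h5 : a5 ≤ a4) (h6 : 2 ≤ a5) (h7 : 3 ≤ a3)
    (h8 : n ≤ a1 + 2)
    (hs : a0 + a1 + a2 + a3 + a4 + a5 = 2 * n + 8) :
    sq n a0 a1 a2 a3 a4 a5 2 2 ∈ F2set n (4 * n - 4) := by
  have hsum : ∑ i, sq n a0 a1 a2 a3 a4 a5 2 2 i = 4 * n - 4 := by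
    rw [sq_sum hn]
    omega
  have hanti : Antitone (sq n a0 a1 a2 a3 a4 a5 2 2) :=
    sq_antitone n h1 h2 h3 h4 h5 h6 le_rfl le_rfl
  have hge := sq_ge_two n h1 h2 h3 h4 h5 h6 le_rfl le_rfl
  have hle := sq_le_first n h1 h2 h3 h4 h5 h6 le_rfl le_rfl
  have hEG : EGCond (sq n a0 a1 a2 a3 a4 a5 2 2) := by
    apply egcond_low _ hn hge (fun i => by have := hle i; omega) hsum
    intro i hi
    unfold sq
    split_ifs <;> omega
  refine ⟨hanti, hsum, ?_⟩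
  apply forcibly_of_two_big _ (by omega) hge ?_ ?_
    (by rw [hsum]; exact ⟨2 * n - 2, by omega⟩) hEG
  · simp only [sq]
    norm_num
    omega
  · simp only [sq]
    norm_num
    omega

end

end Pool.Agent.H55.Bic
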