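import Pool.Agent.H55.BicCount

/-!
The comparison of `F_2(n, 4n-4)`, `F_2(n, 4n-2)` and `F_2(n, 4n)`.
-/

namespace Pool.Agent.H55.Bic

open Finset Pool.Agent.H55.EG

/-- the four hub degrees of the main family with sum `4n-2` -/
def TB (n : ℕ) : Finset (ℕ × ℕ × ℕ × ℕ) :=
  (range n ×ˢ range n ×ˢ range n ×ˢ range n).filter (fun x =>
    x.2.1 ≤ x.1 ∧ x.2.2.1 ≤ x.2.1 ∧ x.2.2.2 ≤ x.2.2.1 ∧ 3 ≤ x.2.2.2 ∧
      x.1 + x.2.1 + x.2.2.1 + x.2.2.2 = 2 * n + 5)

theorem mem_TB {n a b c e : ℕ} : (a, b, c, e) ∈ TB n ↔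
    a < n ∧ b ≤ a ∧ c ≤ b ∧ e ≤ c ∧ 3 ≤ e ∧ a + b + c + e = 2 * n + 5 := by
  unfold TB
  rw [Finset.mem_filter]
  simp only [Finset.mem_product, Finset.mem_range]
  constructor
  · rintro ⟨⟨h1, h2, h3, h4⟩, h5, h6, h7, h8, h9⟩
    exact ⟨h1, h5, h6, h7, h8, h9⟩
  · rintro ⟨h1, h5, h6, h7, h8, h9⟩
    exact ⟨⟨h1, by omega, by omega, by omega⟩, h5, h6, h7, h8, h9⟩

/-- the eight exceptional sequences with sum `4n-2` -/
def exc (n : ℕ) : Fin 8 → (Fin n → ℕ) :=
  ![sq n (n-1) (n-1) 3 3 3 3 2 2, sq n (n-1) (n-2) 4 3 3 3 2 2, sq n (n-1) (n-2) 3 3 3 3 3 2,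
    sq n (n-2) (n-2) 5 3 3 3 2 2, sq n (n-2) (n-2) 4 4 4 2 2 2, sq n (n-2) (n-2) 4 4 3 3 2 2,
    sq n (n-2) (n-2) 4 3 3 3 3 2, sq n (n-2) (n-2) 3 3 3 3 3 3]

theorem F2set_sub {n : ℕ} (hn : 26 ≤ n) :
    F2set n (4 * n - 2) ⊆
      ((fun x : ℕ × ℕ × ℕ × ℕ => sq n x.1 x.2.1 x.2.2.1 x.2.2.2 3 2 2 2) '' (TB n : Set _)) ∪
      Set.range (exc n) := by
  intro d hd
  obtain ⟨hanti, hsum, ⟨G, hG⟩, hall⟩ := hd
  have hEG : EGCond d := egcond_of_graph G d hG
  have h2 : ∀ i, 2 ≤ d i := by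
    intro i
    have h1 : 2 ≤ (G.neighborSet i).ncard :=
      two_le_deg_of_biconnected G (by simp; omega) (hall G hG) i
    rw [hG i] at h1
    exact h1
  have hclass := classification d hn hanti hsum h2 hEG (fun G hG => hall G hG)
  have hdn : d ⟨0, by omega⟩ + 1 ≤ n := by
    have h1 := hEG {(⟨0, by omega⟩ : Fin n)}
    simp only [Finset.sum_singleton, Finset.card_singleton] at h1
    have h3 : ∑ i ∈ ({(⟨0, by omega⟩ : Fin n)} : Finset (Fin n))ᶜ, min (d i) 1 ≤
        ∑ i ∈ ({(⟨0, by omega⟩ : Fin n)} : Finset (Fin n))ᶜ, 1 :=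
      Finset.sum_le_sum (fun i _ => by omega)
    rw [Finset.sum_const, Finset.card_compl, Fintype.card_fin, Finset.card_singleton] at h3
    simp only [smul_eq_mul, mul_one] at h3
    omega
  -- monotonicity between consecutive entries
  have m01 : d ⟨1, by omega⟩ ≤ d ⟨0, by omega⟩ := hanti (by rw [Fin.le_def]; simp)
  have m12 : d ⟨2, by omega⟩ ≤ d ⟨1, by omega⟩ := hanti (by rw [Fin.le_def]; simp)
  have m23 : d ⟨3, by omega⟩ ≤ d ⟨2, by omega⟩ := hanti (by rw [Fin.le_def]; simp)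
  have m34 : d ⟨4, by omega⟩ ≤ d ⟨3, by omega⟩ := hanti (by rw [Fin.le_def]; simp)
  have m45 : d ⟨5, by omega⟩ ≤ d ⟨4, by omega⟩ := hanti (by rw [Fin.le_def]; simp)
  have m56 : d ⟨6, by omega⟩ ≤ d ⟨5, by omega⟩ := hanti (by rw [Fin.le_def]; simp)
  have m67 : d ⟨7, by omega⟩ ≤ d ⟨6, by omega⟩ := hanti (by rw [Fin.le_def]; simp)
  have g6 := h2 ⟨6, by omega⟩
  have g7 := h2 ⟨7, by omega⟩
  by_cases hB : d ⟨4, by omega⟩ = 3 ∧ d ⟨5, by omega⟩ = 2
  · left
    have htail : ∀ i : Fin n, 8 ≤ i.val → d i = 2 := by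
      intro i hi
      have h6 : d i ≤ d ⟨5, by omega⟩ := hanti (by rw [Fin.le_def]; simp; omega)
      have := h2 i
      omega
    have hd' := eq_sq (by omega) d htail
    have h6 : d ⟨6, by omega⟩ = 2 := by omega
    have h7 : d ⟨7, by omega⟩ = 2 := by omega
    rw [hB.1, hB.2, h6, h7] at hd'
    have hs := hsum
    rw [hd', sq_sum (by omega)] at hs
    refine ⟨(d ⟨0, by omega⟩, d ⟨1, by omega⟩, d ⟨2, by omega⟩, d ⟨3, by omega⟩), ?_, hd'.symm⟩
    rw [Finset.mem_coe, mem_TB]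
    omega
  · right
    have hA : n ≤ d ⟨1, by omega⟩ + 2 := by
      rcases hclass with h | h
      · exact h
      · exact absurd h hB
    -- d 8 = 2
    have h8 : d ⟨8, by omega⟩ ≤ 2 := by
      by_contra hcon
      push Not at hcon
      have h3 : ∀ i : Fin n, 2 + ((if i.val < 9 then 1 else 0) + (if i.val < 2 then n - 5 else 0)) ≤ d i := by
        intro i
        have h4 := h2 i
        by_cases h5 : i.val < 2
        · have h6 : d ⟨1, by omega⟩ ≤ d i := hanti (by rw [Fin.le_def]; simp; omega)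
          have h7 : i.val < 9 := by omega
          simp only [h5, h7, if_true]
          omega
        · by_cases h6 : i.val < 9
          · have h7 : d ⟨8, by omega⟩ ≤ d i := hanti (by rw [Fin.le_def]; simp; omega)
            simp only [h5, h6, if_true, if_false]
            omega
          · simp only [h5, h6, if_false]
            omega
      have h4 := Finset.sum_le_sum (fun i (_ : i ∈ (univ : Finset (Fin n))) => h3 i)
      rw [Finset.sum_add_distrib, Finset.sum_add_distrib, ← Finset.card_filter,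
        ← Finset.sum_filter, Finset.sum_const, Finset.sum_const, card_filter_val_lt (by omega),
        card_filter_val_lt (by omega), Finset.card_univ, Fintype.card_fin, hsum] at h4
      simp only [smul_eq_mul] at h4
      omega
    have htail : ∀ i : Fin n, 8 ≤ i.val → d i = 2 := by
      intro i hi
      have h6 : d i ≤ d ⟨8, by omega⟩ := hanti (by rw [Fin.le_def]; simpa using hi)
      have := h2 i
      omega
    have hd' := eq_sq (by omega) d htail
    -- the Erdos-Gallai inequality at the first four entries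
    set K : Finset (Fin n) := (univ : Finset (Fin n)).filter (fun i => i.val < 4) with hK
    have hKc : K.card = 4 := card_filter_val_lt (by omega)
    have h7 := hEG K
    rw [hKc] at h7
    have e1 : ∑ i ∈ K, d i = d ⟨0, by omega⟩ + d ⟨1, by omega⟩ + d ⟨2, by omega⟩ +
        d ⟨3, by omega⟩ := by
      have : K = {⟨0, by omega⟩, ⟨1, by omega⟩, ⟨2, by omega⟩, ⟨3, by omega⟩} := by
        ext i
        rw [hK, Finset.mem_filter]
        simp only [Finset.mem_univ, true_and, Finset.mem_insert, Finset.mem_singleton, Fin.ext_iff]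
        omega
      rw [this, Finset.sum_insert (by simp), Finset.sum_insert (by simp),
        Finset.sum_insert (by simp), Finset.sum_singleton]
      ring
    have e2 : ∑ i ∈ Kᶜ, min (d i) 4 = min (d ⟨4, by omega⟩) 4 + min (d ⟨5, by omega⟩) 4 +
        min (d ⟨6, by omega⟩) 4 + min (d ⟨7, by omega⟩) 4 + 2 * (n - 8) := by
      have h9 : Kᶜ = {⟨4, by omega⟩, ⟨5, by omega⟩, ⟨6, by omega⟩, ⟨7, by omega⟩} ∪
          (univ : Finset (Fin n)).filter (fun i => 8 ≤ i.val) := by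
        ext i
        rw [Finset.mem_compl, hK, Finset.mem_filter, Finset.mem_union, Finset.mem_filter]
        simp only [Finset.mem_univ, true_and, Finset.mem_insert, Finset.mem_singleton, Fin.ext_iff]
        omega
      rw [h9, Finset.sum_union ?_]
      · rw [Finset.sum_insert (by simp), Finset.sum_insert (by simp),
          Finset.sum_insert (by simp), Finset.sum_singleton]
        rw [Finset.sum_congr rfl (s₁ := (univ : Finset (Fin n)).filter (fun i => 8 ≤ i.val))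
          (g := fun _ => 2) (fun i hi => by
            rw [Finset.mem_filter] at hi
            rw [htail i hi.2]; rfl), Finset.sum_const, card_filter_val_ge (by omega), smul_eq_mul]
        ring
      · rw [Finset.disjoint_left]
        intro i hi hi'
        rw [Finset.mem_filter] at hi'
        simp only [Finset.mem_insert, Finset.mem_singleton, Fin.ext_iff] at hi
        omega
    rw [e1, e2] at h7
    have hs := hsum
    rw [hd', sq_sum (by omega)] at hs
    generalize d ⟨0, by omega⟩ = a0 at *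
    generalize d ⟨1, by omega⟩ = a1 at *
    generalize d ⟨2, by omega⟩ = a2 at *
    generalize d ⟨3, by omega⟩ = a3 at *
    generalize d ⟨4, by omega⟩ = a4 at *
    generalize d ⟨5, by omega⟩ = a5 at *
    generalize d ⟨6, by omega⟩ = a6 at *
    generalize d ⟨7, by omega⟩ = a7 at *
    rw [Set.mem_range]
    have hcases : (a0 = n-1 ∧ a1 = n-1) ∨ (a0 = n-1 ∧ a1 = n-2) ∨ (a0 = n-2 ∧ a1 = n-2) := by
      omega
    have b7 : a7 = 2 ∨ a7 = 3 := by omega
    have b6 : a6 = 2 ∨ a6 = 3 := by omega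
    have b5 : a5 = 2 ∨ a5 = 3 := by omega
    have b4 : a4 = 2 ∨ a4 = 3 ∨ a4 = 4 := by omega
    have b3 : a3 = 2 ∨ a3 = 3 ∨ a3 = 4 ∨ a3 = 5 := by omega
    clear hanti hG hall hEG h2 hclass hsum htail e1 e2
    rcases hcases with ⟨c0, c1⟩ | ⟨c0, c1⟩ | ⟨c0, c1⟩
    · have c7 : a7 = 2 := by omega
      have c6 : a6 = 2 := by omega
      have c5 : a5 = 3 := by omega
      have c4 : a4 = 3 := by omega
      have c3 : a3 = 3 := by omega
      have c2 : a2 = 3 := by omega
      subst c0 c1 c2 c3 c4 c5 c6 c7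
      exact ⟨0, hd'.symm⟩
    · have c7 : a7 = 2 := by omega
      have c5 : a5 = 3 := by omega
      have c4 : a4 = 3 := by omega
      have c3 : a3 = 3 := by omega
      rcases b6 with c6 | c6
      · have c2 : a2 = 4 := by omega
        subst c0 c1 c2 c3 c4 c5 c6 c7
        exact ⟨1, hd'.symm⟩
      · have c2 : a2 = 3 := by omega
        subst c0 c1 c2 c3 c4 c5 c6 c7
        exact ⟨2, hd'.symm⟩
    · rcases b7 with c7 | c7
      · rcases b6 with c6 | c6
        · rcases b5 with c5 | c5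
          · have c4 : a4 = 4 := by omega
            have c3 : a3 = 4 := by omega
            have c2 : a2 = 4 := by omega
            subst c0 c1 c2 c3 c4 c5 c6 c7
            exact ⟨4, hd'.symm⟩
          · have c4 : a4 = 3 := by omega
            rcases b3 with c3 | c3 | c3 | c3
            · omega
            · have c2 : a2 = 5 := by omega
              subst c0 c1 c2 c3 c4 c5 c6 c7
              exact ⟨3, hd'.symm⟩
            · have c2 : a2 = 4 := by omega
              subst c0 c1 c2 c3 c4 c5 c6 c7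
              exact ⟨5, hd'.symm⟩
            · omega
        · have c5 : a5 = 3 := by omega
          have c4 : a4 = 3 := by omega
          have c3 : a3 = 3 := by omega
          have c2 : a2 = 4 := by omega
          subst c0 c1 c2 c3 c4 c5 c6 c7
          exact ⟨6, hd'.symm⟩
      · have c6 : a6 = 3 := by omega
        have c5 : a5 = 3 := by omega
        have c4 : a4 = 3 := by omega
        have c3 : a3 = 3 := by omega
        have c2 : a2 = 3 := by omega
        subst c0 c1 c2 c3 c4 c5 c6 c7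
        exact ⟨7, hd'.symm⟩

theorem F2_le {n : ℕ} (hn : 26 ≤ n) : F2 n (4 * n - 2) ≤ (TB n).card + 8 := by
  unfold F2
  have h1 := Set.ncard_le_ncard (F2set_sub hn)
    ((Set.Finite.image _ (Finset.finite_toSet _)).union (Set.finite_range _))
  have h2 := Set.ncard_union_le
    ((fun x : ℕ × ℕ × ℕ × ℕ => sq n x.1 x.2.1 x.2.2.1 x.2.2.2 3 2 2 2) '' (TB n : Set _))
    (Set.range (exc n))
  have h3 := Set.ncard_image_le (f := fun x : ℕ × ℕ × ℕ × ℕ =>
    sq n x.1 x.2.1 x.2.2.1 x.2.2.2 3 2 2 2) (Finset.finite_toSet (TB n))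
  rw [Set.ncard_coe_finset] at h3
  have h4 : (Set.range (exc n)).ncard ≤ 8 := by
    rw [← Set.image_univ]
    refine (Set.ncard_image_le (Set.toFinite _)).trans ?_
    rw [Set.ncard_univ, Nat.card_eq_fintype_card, Fintype.card_fin]
  omega

theorem card_lower {α β : Type*} (T : Finset α) (S : Set β) (hS : S.Finite) (f : α → β)
    (g : Fin 9 → β) (hf : ∀ x ∈ T, f x ∈ S) (hg : ∀ j, g j ∈ S) (hfi : Set.InjOn f T)
    (hgi : Function.Injective g) (hdis : ∀ x ∈ T, ∀ j, f x ≠ g j) : T.card + 9 ≤ S.ncard := by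
  have h1 : (f '' (T : Set α) ∪ Set.range g) ⊆ S := by
    rintro y (⟨x, hx, rfl⟩ | ⟨j, rfl⟩)
    · exact hf x hx
    · exact hg j
  have h2 := Set.ncard_le_ncard h1 hS
  rw [Set.ncard_union_eq ?_ (Set.Finite.image _ (Finset.finite_toSet _)) (Set.finite_range _),
    hfi.ncard_image, Set.ncard_coe_finset, ← Set.image_univ,
    Set.ncard_image_of_injective _ hgi, Set.ncard_univ, Nat.card_eq_fintype_card,
    Fintype.card_fin] at h2
  · exact h2
  · rw [Set.disjoint_left]
    rintro y ⟨x, hx, rfl⟩ ⟨j, hj⟩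
    exact hdis x hx j hj.symm

/-- the injection into the family with sum `4n-4` -/
def fLow (n : ℕ) (x : ℕ × ℕ × ℕ × ℕ) : Fin n → ℕ :=
  if 4 ≤ x.2.2.2 then sq n x.1 x.2.1 x.2.2.1 (x.2.2.2 - 1) 2 2 2 2
  else sq n (x.2.1 + n - 1 - x.1) (x.2.1 + x.1 + 1 - n) (n + 2 - x.2.1) (n + 2 - x.2.1) 2 2 2 2

/-- the second parameter of the extra members -/
def pb (n j : ℕ) : ℕ := n % 2 + 2 * j

/-- the first parameter of the extra members -/
def pa (n j : ℕ) : ℕ := (n - 4 - 3 * pb n j) / 2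

theorem pab {n j : ℕ} (hn : n = 34 ∨ 36 ≤ n) (hj : j < 6) : 2 * pa n j + 3 * pb n j = n - 4 := by
  unfold pa pb
  omega

theorem pb_inj {n j j' : ℕ} (h : pb n j = pb n j') : j = j' := by
  unfold pb at h
  omega

/-- nine further members of the family with sum `4n-4` -/
def gLow (n : ℕ) (j : Fin 9) : Fin n → ℕ :=
  if j.val < 6 then
    sq n (pa n j.val + 3 * pb n j.val + 3) (pa n j.val + pb n j.val + 3)
      (pa n j.val + pb n j.val + 3) (pa n j.val + pb n j.val + 3) 2 2 2 2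
  else if j.val = 6 then sq n (n - 1) (n - 2) 3 3 3 2 2 2
  else if j.val = 7 then sq n (n - 2) (n - 2) 4 3 3 2 2 2
  else sq n (n - 2) (n - 2) 3 3 3 3 2 2

theorem fLow_mem {n : ℕ} (hn8 : 8 ≤ n) : ∀ x ∈ TB n, fLow n x ∈ F2set n (4 * n - 4) := by
  rintro ⟨a, b, c, e⟩ hx
  rw [mem_TB] at hx
  obtain ⟨x1, x2, x3, x4, x5, x6⟩ := hx
  unfold fLow
  simp only
  split_ifs with h
  · exact mem_F2set_4 hn8 (by omega) (by omega) (by omega) (by omega) (by omega) (by omega)
  · exact mem_F2set_4 hn8 (by omega) (by omega) (by omega) (by omega) (by omega) (by omega)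

theorem gLow_mem {n : ℕ} (hn : n = 34 ∨ 36 ≤ n) : ∀ j, gLow n j ∈ F2set n (4 * n - 4) := by
  have hn8 : 8 ≤ n := by omega
  intro j
  unfold gLow
  split_ifs with h1 h2 h3
  · have hab := pab hn h1
    generalize pa n j.val = a at *
    generalize pb n j.val = b at *
    exact mem_F2set_4 hn8 (by omega) (by omega) (by omega) (by omega) (by omega) (by omega)
  · exact mem_F2set_A hn8 (by omega) (by omega) (by omega) (by omega) (by omega) (by omega)
      (by omega) (by omega) (by omega) (by omega)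
  · exact mem_F2set_A hn8 (by omega) (by omega) (by omega) (by omega) (by omega) (by omega)
      (by omega) (by omega) (by omega) (by omega)
  · exact mem_F2set_A hn8 (by omega) (by omega) (by omega) (by omega) (by omega) (by omega)
      (by omega) (by omega) (by omega) (by omega)

theorem fLow_inj {n : ℕ} (hn8 : 8 ≤ n) : Set.InjOn (fLow n) (TB n : Set (ℕ × ℕ × ℕ × ℕ)) := by
  rintro ⟨a, b, c, e⟩ hx ⟨a', b', c', e'⟩ hx' heq
  rw [Finset.mem_coe, mem_TB] at hx hx'
  obtain ⟨x1, x2, x3, x4, x5, x6⟩ := hx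
  obtain ⟨y1, y2, y3, y4, y5, y6⟩ := hx'
  unfold fLow at heq
  simp only at heq
  simp only [Prod.mk.injEq]
  split_ifs at heq with h h' h'
  · obtain ⟨e0, e1, e2, e3, e4, e5, e6, e7⟩ := sq_inj hn8 heq
    refine ⟨e0, e1, e2, by omega⟩
  · obtain ⟨e0, e1, e2, e3, e4, e5, e6, e7⟩ := sq_inj hn8 heq
    omega
  · obtain ⟨e0, e1, e2, e3, e4, e5, e6, e7⟩ := sq_inj hn8 heq
    omega
  · obtain ⟨e0, e1, e2, e3, e4, e5, e6, e7⟩ := sq_inj hn8 heq
    refine ⟨by omega, by omega, by omega, by omega⟩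

theorem gLow_inj {n : ℕ} (hn : n = 34 ∨ 36 ≤ n) : Function.Injective (gLow n) := by
  have hn8 : 8 ≤ n := by omega
  intro j j' heq
  have hj := j.isLt
  have hj' := j'.isLt
  unfold gLow at heq
  ext
  split_ifs at heq with h1 h2 h3 h4 h5 h6 h7
  · obtain ⟨e0, e1, e2, e3, e4, e5, e6, e7⟩ := sq_inj hn8 heq
    exact pb_inj (n := n) (by omega)
  all_goals first
    | (obtain ⟨e0, e1, e2, e3, e4, e5, e6, e7⟩ := sq_inj hn8 heq; clear e0 e1 e2 e3; omega)
    | (obtain ⟨e0, e1, e2, e3, e4, e5, e6, e7⟩ := sq_inj hn8 heq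
       clear e3 e4 e5 e6 e7; omega)

theorem fgLow_dis {n : ℕ} (hn : n = 34 ∨ 36 ≤ n) : ∀ x ∈ TB n, ∀ j, fLow n x ≠ gLow n j := by
  have hn8 : 8 ≤ n := by omega
  rintro ⟨a, b, c, e⟩ hx j heq
  rw [mem_TB] at hx
  obtain ⟨x1, x2, x3, x4, x5, x6⟩ := hx
  have hj := j.isLt
  unfold fLow gLow at heq
  simp only at heq
  split_ifs at heq with h1 h2 h3 h4 h5 h6 h7
  · obtain ⟨e0, e1, e2, e3, e4, e5, e6, e7⟩ := sq_inj hn8 heq
    omega
  · obtain ⟨e0, e1, e2, e3, e4, e5, e6, e7⟩ := sq_inj hn8 heq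
    omega
  · obtain ⟨e0, e1, e2, e3, e4, e5, e6, e7⟩ := sq_inj hn8 heq
    omega
  · obtain ⟨e0, e1, e2, e3, e4, e5, e6, e7⟩ := sq_inj hn8 heq
    omega
  · obtain ⟨e0, e1, e2, e3, e4, e5, e6, e7⟩ := sq_inj hn8 heq
    omega
  · obtain ⟨e0, e1, e2, e3, e4, e5, e6, e7⟩ := sq_inj hn8 heq
    omega
  · obtain ⟨e0, e1, e2, e3, e4, e5, e6, e7⟩ := sq_inj hn8 heq
    omega
  · obtain ⟨e0, e1, e2, e3, e4, e5, e6, e7⟩ := sq_inj hn8 heq
    omega

theorem le_F2_low {n : ℕ} (hn : n = 34 ∨ 36 ≤ n) : (TB n).card + 9 ≤ F2 n (4 * n - 4) :=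
  card_lower (TB n) _ (F2set_finite _ _) (fLow n) (gLow n) (fLow_mem (by omega)) (gLow_mem hn)
    (fLow_inj (by omega)) (gLow_inj hn) (fgLow_dis hn)

/-- the injection into the family with sum `4n` -/
def fHigh (n : ℕ) (x : ℕ × ℕ × ℕ × ℕ) : Fin n → ℕ :=
  if 5 ≤ x.2.2.2 then sq n x.1 x.2.1 x.2.2.1 x.2.2.2 5 2 2 2
  else if x.2.2.2 = 4 then
    (if 5 ≤ x.2.2.1 then sq n x.1 x.2.1 x.2.2.1 5 4 2 2 2
    else sq n (n - 1) (n - 7) 6 6 6 2 2 2)
  else sq n x.1 x.2.1 x.2.2.1 4 4 2 2 2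

/-- nine further members of the family with sum `4n` -/
def gHigh (n : ℕ) (j : Fin 9) : Fin n → ℕ :=
  sq n (n - 1) (n - 8 - j.val) (7 + j.val) 6 6 2 2 2

theorem fHigh_mem {n : ℕ} (hn : 34 ≤ n) : ∀ x ∈ TB n, fHigh n x ∈ F2set n (4 * n) := by
  have hn8 : 8 ≤ n := by omega
  rintro ⟨a, b, c, e⟩ hx
  rw [mem_TB] at hx
  obtain ⟨x1, x2, x3, x4, x5, x6⟩ := hx
  unfold fHigh
  simp only
  split_ifs with h h' h''
  · exact mem_F2set_5 hn8 (by omega) (by omega) (by omega) (by omega) (by omega) (by omega)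
      (by omega)
  · exact mem_F2set_5 hn8 (by omega) (by omega) (by omega) (by omega) (by omega) (by omega)
      (by omega)
  · exact mem_F2set_5 hn8 (by omega) (by omega) (by omega) (by omega) (by omega) (by omega)
      (by omega)
  · exact mem_F2set_5 hn8 (by omega) (by omega) (by omega) (by omega) (by omega) (by omega)
      (by omega)

theorem gHigh_mem {n : ℕ} (hn : 34 ≤ n) : ∀ j, gHigh n j ∈ F2set n (4 * n) := by
  have hn8 : 8 ≤ n := by omega
  intro j
  have hj := j.isLt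
  unfold gHigh
  exact mem_F2set_5 hn8 (by omega) (by omega) (by omega) (by omega) (by omega) (by omega)
    (by omega)

theorem fHigh_inj {n : ℕ} (hn : 34 ≤ n) : Set.InjOn (fHigh n) (TB n : Set (ℕ × ℕ × ℕ × ℕ)) := by
  have hn8 : 8 ≤ n := by omega
  rintro ⟨a, b, c, e⟩ hx ⟨a', b', c', e'⟩ hx' heq
  rw [Finset.mem_coe, mem_TB] at hx hx'
  obtain ⟨x1, x2, x3, x4, x5, x6⟩ := hx
  obtain ⟨y1, y2, y3, y4, y5, y6⟩ := hx'
  unfold fHigh at heq
  simp only at heq
  simp only [Prod.mk.injEq]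
  split_ifs at heq <;>
  · obtain ⟨e0, e1, e2, e3, e4, e5, e6, e7⟩ := sq_inj hn8 heq
    first
      | (exfalso; omega)
      | exact ⟨by omega, by omega, by omega, by omega⟩

theorem gHigh_inj {n : ℕ} (hn : 34 ≤ n) : Function.Injective (gHigh n) := by
  have hn8 : 8 ≤ n := by omega
  intro j j' heq
  unfold gHigh at heq
  ext
  obtain ⟨e0, e1, e2, e3, e4, e5, e6, e7⟩ := sq_inj hn8 heq
  omega

theorem fgHigh_dis {n : ℕ} (hn : 34 ≤ n) : ∀ x ∈ TB n, ∀ j, fHigh n x ≠ gHigh n j := by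
  have hn8 : 8 ≤ n := by omega
  rintro ⟨a, b, c, e⟩ hx j heq
  have hj := j.isLt
  unfold fHigh gHigh at heq
  simp only at heq
  split_ifs at heq
  · obtain ⟨e0, e1, e2, e3, e4, e5, e6, e7⟩ := sq_inj hn8 heq
    omega
  · obtain ⟨e0, e1, e2, e3, e4, e5, e6, e7⟩ := sq_inj hn8 heq
    omega
  · obtain ⟨e0, e1, e2, e3, e4, e5, e6, e7⟩ := sq_inj hn8 heq
    omega
  · obtain ⟨e0, e1, e2, e3, e4, e5, e6, e7⟩ := sq_inj hn8 heq
    omega

theorem le_F2_high {n : ℕ} (hn : 34 ≤ n) : (TB n).card + 9 ≤ F2 n (4 * n) :=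
  card_lower (TB n) _ (F2set_finite _ _) (fHigh n) (gHigh n) (fHigh_mem hn) (gHigh_mem hn)
    (fHigh_inj hn) (gHigh_inj hn) (fgHigh_dis hn)

/-- The key comparison. -/
theorem F2_dip {n : ℕ} (hn : n = 34 ∨ 36 ≤ n) :
    F2 n (4 * n - 2) < F2 n (4 * n - 4) ∧ F2 n (4 * n - 2) < F2 n (4 * n) := by
  have h1 := F2_le (n := n) (by omega)
  have h2 := le_F2_low hn
  have h3 := le_F2_high (n := n) (by omega)
  omega

theorem not_unimodal_of_dip (a : ℕ → ℕ) (m t : ℕ) (ht : t + 2 ≤ m) (h1 : a (t + 1) < a t)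
    (h2 : a (t + 1) < a (t + 2)) : ¬ Unimodal a m := by
  rintro ⟨k, hk, hinc, hdec⟩
  by_cases h : t + 1 < k + 1
  · by_cases h3 : t < k
    · have := hinc t h3
      omega
    · omega
  · push Not at h
    by_cases h3 : t + 1 < k
    · omega
    · have := hdec (t + 1) (by omega) (by omega)
      have h4 : t + 1 + 1 = t + 2 := rfl
      rw [h4] at this
      omega

end Pool.Agent.H55.Bic
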