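import Pool.Agent.H55.Bic

/-!
Reduction lemma: splitting off a small complete block.
-/

namespace Pool.Agent.H55.Bic

open Finset Pool.Agent.H55.EG

section
variable {V : Type*} [Fintype V] [DecidableEq V]

theorem exists_attach (G' : SimpleGraph V) (S : Finset V) (v : V) (hv : v ∉ S)
    (hS : ∀ s ∈ S, deg G' s = 0) :
    ∃ G : SimpleGraph V, (∀ s ∈ S, deg G s = S.card) ∧ deg G v = deg G' v + S.card ∧
      (∀ x, x ∉ S → x ≠ v → deg G x = deg G' x) ∧
      (∀ s ∈ S, ∀ b, G.Adj s b → b ∈ S ∨ b = v) := by
  have hiso : ∀ s ∈ S, ∀ b, ¬ G'.Adj s b := by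
    intro s hs b hb
    have h1 := hS s hs
    unfold deg at h1
    rw [Set.ncard_eq_zero (Set.toFinite _)] at h1
    have : b ∈ G'.neighborSet s := hb
    rw [h1] at this
    exact this
  let G : SimpleGraph V :=
    { Adj := fun a b => G'.Adj a b ∨ (a ≠ b ∧ a ∈ insert v S ∧ b ∈ insert v S)
      symm := ⟨by
        rintro a b (h | ⟨h1, h2, h3⟩)
        · exact Or.inl h.symm
        · exact Or.inr ⟨h1.symm, h3, h2⟩⟩
      loopless := ⟨by
        rintro a (h | ⟨h1, _⟩)
        · exact G'.loopless.irrefl _ h
        · exact h1 rfl⟩ }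
  refine ⟨G, ?_, ?_, ?_, ?_⟩
  · intro s hs
    have : G.neighborSet s = ((insert v S).erase s : Finset V) := by
      ext w
      simp only [SimpleGraph.mem_neighborSet, Finset.coe_erase, Set.mem_sdiff,
        Set.mem_singleton_iff, Finset.mem_coe]
      constructor
      · rintro (h | ⟨h1, h2, h3⟩)
        · exact absurd h (hiso s hs w)
        · exact ⟨h3, h1.symm⟩
      · rintro ⟨h1, h2⟩
        exact Or.inr ⟨fun h => h2 h.symm, Finset.mem_insert_of_mem hs, h1⟩
    unfold deg
    rw [this, Set.ncard_coe_finset, Finset.card_erase_of_mem (Finset.mem_insert_of_mem hs),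
      Finset.card_insert_of_notMem hv]
    simp
  · have : G.neighborSet v = G'.neighborSet v ∪ (S : Set V) := by
      ext w
      simp only [SimpleGraph.mem_neighborSet, Set.mem_union, Finset.mem_coe]
      constructor
      · rintro (h | ⟨h1, h2, h3⟩)
        · exact Or.inl h
        · rcases Finset.mem_insert.mp h3 with h4 | h4
          · exact absurd h4.symm h1
          · exact Or.inr h4
      · rintro (h | h)
        · exact Or.inl h
        · refine Or.inr ⟨?_, Finset.mem_insert_self _ _, Finset.mem_insert_of_mem h⟩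
          rintro rfl
          exact hv h
    unfold deg
    rw [this, Set.ncard_union_eq ?_ (Set.toFinite _) (Set.toFinite _), Set.ncard_coe_finset]
    rw [Set.disjoint_left]
    intro w hw hwS
    exact hiso w hwS v hw.symm
  · intro x hxS hxv
    have : G.neighborSet x = G'.neighborSet x := by
      ext w
      simp only [SimpleGraph.mem_neighborSet]
      constructor
      · rintro (h | ⟨h1, h2, h3⟩)
        · exact h
        · rcases Finset.mem_insert.mp h2 with h4 | h4
          · exact absurd h4 hxv
          · exact absurd h4 hxS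
      · exact fun h => Or.inl h
    unfold deg
    rw [this]
  · rintro s hs b (h | ⟨h1, h2, h3⟩)
    · exact absurd h (hiso s hs b)
    · rcases Finset.mem_insert.mp h3 with h4 | h4
      · exact Or.inr h4
      · exact Or.inl h4

/-- the reduced degree function -/
def redF (d : V → ℕ) (S : Finset V) (v : V) (r : ℕ) : V → ℕ :=
  fun i => if i ∈ S then 0 else if i = v then d v - r else d i

theorem egcond_redF (d : V → ℕ) (S : Finset V) (v : V) (r : ℕ) (hSr : S.card = r) (hv : v ∉ S)
    (hdS : ∀ s ∈ S, d s = r) (hdv : r ≤ d v)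
    (H1 : ∀ K : Finset V, Disjoint K S → v ∈ K →
      ∑ i ∈ K, d i + r * min r K.card ≤ K.card * (K.card - 1) + ∑ i ∈ Kᶜ, min (d i) K.card + r)
    (H2 : ∀ K : Finset V, Disjoint K S → v ∉ K →
      ∑ i ∈ K, d i + r * min r K.card + min (d v) K.card ≤
        K.card * (K.card - 1) + ∑ i ∈ Kᶜ, min (d i) K.card + min (d v - r) K.card) :
    EGCond (redF d S v r) := by
  -- reduce to K disjoint from S
  have main : ∀ K : Finset V, Disjoint K S →
      ∑ i ∈ K, redF d S v r i ≤ K.card * (K.card - 1) + ∑ i ∈ Kᶜ, min (redF d S v r i) K.card := by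
    intro K hKS
    set k := K.card with hk
    have hSK : S ⊆ Kᶜ := by
      intro s hs
      rw [Finset.mem_compl]
      exact fun h => (Finset.disjoint_left.mp hKS) h hs
    have hsumS : ∑ i ∈ S, min (d i) k = r * min r k := by
      rw [Finset.sum_congr rfl (g := fun _ => min r k) (fun s hs => by rw [hdS s hs])]
      simp [hSr]
    have hsumS' : ∑ i ∈ S, min (redF d S v r i) k = 0 := by
      apply Finset.sum_eq_zero
      intro s hs
      simp [redF, hs]
    have hsplit : ∑ i ∈ Kᶜ, min (d i) k = ∑ i ∈ Kᶜ \ S, min (d i) k + r * min r k := by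
      rw [← Finset.sum_sdiff hSK, hsumS]
    have hsplit' : ∑ i ∈ Kᶜ, min (redF d S v r i) k = ∑ i ∈ Kᶜ \ S, min (redF d S v r i) k := by
      rw [← Finset.sum_sdiff hSK, hsumS', add_zero]
    by_cases hvK : v ∈ K
    · have h1 := H1 K hKS hvK
      rw [← hk, hsplit] at h1
      rw [hsplit']
      have h2 : ∑ i ∈ K, redF d S v r i + r = ∑ i ∈ K, d i := by
        rw [← Finset.add_sum_erase _ _ hvK, ← Finset.add_sum_erase _ d hvK]
        have h3 : redF d S v r v = d v - r := by simp [redF, hv]
        have h4 : ∑ i ∈ K.erase v, redF d S v r i = ∑ i ∈ K.erase v, d i := by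
          apply Finset.sum_congr rfl
          intro i hi
          have hi' := Finset.mem_erase.mp hi
          have hiS : i ∉ S := fun h => (Finset.disjoint_left.mp hKS) hi'.2 h
          simp [redF, hiS, hi'.1]
        rw [h3, h4]
        omega
      have h5 : ∑ i ∈ Kᶜ \ S, min (redF d S v r i) k = ∑ i ∈ Kᶜ \ S, min (d i) k := by
        apply Finset.sum_congr rfl
        intro i hi
        rw [Finset.mem_sdiff, Finset.mem_compl] at hi
        have hiv : i ≠ v := by
          rintro rfl
          exact hi.1 hvK
        simp [redF, hi.2, hiv]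
      rw [h5]
      omega
    · have h1 := H2 K hKS hvK
      rw [← hk, hsplit] at h1
      rw [hsplit']
      have h2 : ∑ i ∈ K, redF d S v r i = ∑ i ∈ K, d i := by
        apply Finset.sum_congr rfl
        intro i hi
        have hiS : i ∉ S := fun h => (Finset.disjoint_left.mp hKS) hi h
        have hiv : i ≠ v := by
          rintro rfl
          exact hvK hi
        simp [redF, hiS, hiv]
      have hvm : v ∈ Kᶜ \ S := by
        rw [Finset.mem_sdiff, Finset.mem_compl]
        exact ⟨hvK, hv⟩
      have h5 : ∑ i ∈ Kᶜ \ S, min (redF d S v r i) k + min (d v) k =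
          ∑ i ∈ Kᶜ \ S, min (d i) k + min (d v - r) k := by
        rw [← Finset.add_sum_erase _ _ hvm, ← Finset.add_sum_erase _ (fun i => min (d i) k) hvm]
        have h3 : redF d S v r v = d v - r := by simp [redF, hv]
        have h4 : ∑ i ∈ (Kᶜ \ S).erase v, min (redF d S v r i) k =
            ∑ i ∈ (Kᶜ \ S).erase v, min (d i) k := by
          apply Finset.sum_congr rfl
          intro i hi
          have hi' := Finset.mem_erase.mp hi
          rw [Finset.mem_sdiff] at hi'
          simp [redF, hi'.2.2, hi'.1]
        rw [h3, h4]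
        omega
      rw [h2]
      omega
  intro K
  have h0 := main (K \ S) Finset.sdiff_disjoint
  have h1 : ∑ i ∈ K, redF d S v r i = ∑ i ∈ K \ S, redF d S v r i := by
    symm
    apply Finset.sum_subset Finset.sdiff_subset
    intro i hi hi'
    rw [Finset.mem_sdiff] at hi'
    have : i ∈ S := by
      by_contra h
      exact hi' ⟨hi, h⟩
    simp [redF, this]
  have hle : (K \ S).card ≤ K.card := Finset.card_le_card Finset.sdiff_subset
  have h2 : ∑ i ∈ (K \ S)ᶜ, min (redF d S v r i) (K \ S).card ≤
      ∑ i ∈ Kᶜ, min (redF d S v r i) K.card := by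
    have hsub : Kᶜ ⊆ (K \ S)ᶜ := by
      intro i hi
      rw [Finset.mem_compl] at hi ⊢
      exact fun h => hi (Finset.mem_sdiff.mp h).1
    have h3 : ∑ i ∈ (K \ S)ᶜ, min (redF d S v r i) (K \ S).card =
        ∑ i ∈ Kᶜ, min (redF d S v r i) (K \ S).card := by
      symm
      apply Finset.sum_subset hsub
      intro i hi hi'
      rw [Finset.mem_compl] at hi hi'
      have : i ∈ S := by
        by_contra h
        apply hi
        rw [Finset.mem_sdiff]
        exact ⟨by simpa using hi', h⟩
      simp [redF, this]
    rw [h3]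
    apply Finset.sum_le_sum
    intro i _
    omega
  have h3 : (K \ S).card * ((K \ S).card - 1) ≤ K.card * (K.card - 1) :=
    Nat.mul_le_mul hle (by omega)
  rw [h1]
  omega

/-- If the reduced sequence satisfies the Erdos-Gallai condition, then the original sequence has
a realisation that is not biconnected. -/
theorem exists_not_biconnected (d : V → ℕ) (S : Finset V) (v : V) (r : ℕ) (hSr : S.card = r)
    (hr : 1 ≤ r) (hv : v ∉ S)
    (hdS : ∀ s ∈ S, d s = r) (hdv : r ≤ d v) {x : V} (hxS : x ∉ S) (hxv : x ≠ v)
    (hev : Even (∑ i, d i)) (hred : EGCond (redF d S v r)) :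
    ∃ G : SimpleGraph V, (∀ i, deg G i = d i) ∧ ¬ Biconnected G := by
  have hsum : ∑ i, redF d S v r i + (r * r + r) = ∑ i, d i := by
    rw [← Finset.sum_sdiff (Finset.subset_univ S), ← Finset.sum_sdiff (Finset.subset_univ S) (f := d)]
    have h1 : ∑ i ∈ S, redF d S v r i = 0 := by
      apply Finset.sum_eq_zero
      intro s hs
      simp [redF, hs]
    have h2 : ∑ i ∈ S, d i = r * r := by
      rw [Finset.sum_congr rfl hdS]
      simp [hSr]
    have hvm : v ∈ univ \ S := by simp [hv]
    rw [h1, h2, ← Finset.add_sum_erase _ _ hvm, ← Finset.add_sum_erase _ d hvm]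
    have h3 : redF d S v r v = d v - r := by simp [redF, hv]
    have h4 : ∑ i ∈ (univ \ S).erase v, redF d S v r i = ∑ i ∈ (univ \ S).erase v, d i := by
      apply Finset.sum_congr rfl
      intro i hi
      have hi' := Finset.mem_erase.mp hi
      rw [Finset.mem_sdiff] at hi'
      simp [redF, hi'.2.2, hi'.1]
    rw [h3, h4]
    omega
  have hev' : Even (∑ i, redF d S v r i) := by
    have h1 : Even (r * r + r) := by
      have := Nat.even_mul_succ_self r
      rwa [Nat.mul_succ] at this
    rcases h1 with ⟨a, ha⟩
    rcases hev with ⟨b, hb⟩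
    exact ⟨b - a, by omega⟩
  obtain ⟨G', hG'⟩ := exists_graph_of_egcond _ (redF d S v r) rfl hev' hred
  obtain ⟨G, h1, h2, h3, h4⟩ := exists_attach G' S v hv (by
    intro s hs
    rw [hG']
    simp [redF, hs])
  refine ⟨G, ?_, ?_⟩
  · intro i
    by_cases hiS : i ∈ S
    · rw [h1 i hiS, hSr, hdS i hiS]
    · by_cases hiv : i = v
      · subst hiv
        rw [h2, hG', hSr]
        simp only [redF, hv, if_false, if_true]
        omega
      · rw [h3 i hiS hiv, hG']
        simp [redF, hiS, hiv]
  · have hSne : S.Nonempty := by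
      rw [← Finset.card_pos]
      omega
    obtain ⟨s, hs⟩ := hSne
    exact not_biconnected_of_sep G (S : Set V) v (s := s) (x := x) hs (by simpa using hv)
      (by simpa using hxS) hxv (by
        intro a ha b hb
        exact h4 a ha b hb)

end

end Pool.Agent.H55.Bic
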