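import Mathlib

/-!
Erdos-Gallai theorem (unsorted form) for finite simple graphs.
-/

namespace Pool.Agent.H55.EG

open Finset

/-- degree of a vertex, as the cardinality of the neighbour set -/
noncomputable def deg {V : Type*} (G : SimpleGraph V) (v : V) : ℕ := (G.neighborSet v).ncard

section
variable {V : Type*} [Fintype V] [DecidableEq V]

/-- Erdos-Gallai condition, unsorted form. -/
def EGCond (f : V → ℕ) : Prop :=
  ∀ K : Finset V, ∑ v ∈ K, f v ≤ K.card * (K.card - 1) + ∑ v ∈ Kᶜ, min (f v) K.card

theorem exists_add_edge (G : SimpleGraph V) {s t : V} (hst : s ≠ t) (h : ¬ G.Adj s t) :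
    ∃ G' : SimpleGraph V, (∀ a b, G'.Adj a b ↔ G.Adj a b ∨ (a = s ∧ b = t) ∨ (a = t ∧ b = s)) ∧
      ∀ v, deg G' v = deg G v + (if v = s ∨ v = t then 1 else 0) := by
  let G' : SimpleGraph V :=
    { Adj := fun a b => G.Adj a b ∨ (a = s ∧ b = t) ∨ (a = t ∧ b = s)
      symm := ⟨by
        rintro a b (h1 | ⟨rfl, rfl⟩ | ⟨rfl, rfl⟩)
        · exact Or.inl h1.symm
        · exact Or.inr (Or.inr ⟨rfl, rfl⟩)
        · exact Or.inr (Or.inl ⟨rfl, rfl⟩)⟩
      loopless := ⟨by
        rintro a (h1 | ⟨h1, h2⟩ | ⟨h1, h2⟩)
        · exact G.loopless.irrefl a h1
        · exact hst (h1.symm.trans h2)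
        · exact hst (h2.symm.trans h1)⟩ }
  refine ⟨G', fun a b => Iff.rfl, fun v => ?_⟩
  unfold deg
  by_cases hv : v = s
  · subst hv
    have : G'.neighborSet v = insert t (G.neighborSet v) := by
      ext w
      simp only [SimpleGraph.mem_neighborSet, Set.mem_insert_iff]
      constructor
      · rintro (h1 | ⟨_, rfl⟩ | ⟨h1, h2⟩)
        · exact Or.inr h1
        · exact Or.inl rfl
        · exact absurd h1 hst
      · rintro (rfl | h1)
        · exact Or.inr (Or.inl ⟨rfl, rfl⟩)
        · exact Or.inl h1
    rw [this, Set.ncard_insert_of_notMem (by simpa using h) (Set.toFinite _)]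
    simp
  · by_cases hv' : v = t
    · subst hv'
      have : G'.neighborSet v = insert s (G.neighborSet v) := by
        ext w
        simp only [SimpleGraph.mem_neighborSet, Set.mem_insert_iff]
        constructor
        · rintro (h1 | ⟨h1, h2⟩ | ⟨_, rfl⟩)
          · exact Or.inr h1
          · exact absurd h1 hv
          · exact Or.inl rfl
        · rintro (rfl | h1)
          · exact Or.inr (Or.inr ⟨rfl, rfl⟩)
          · exact Or.inl h1
      rw [this, Set.ncard_insert_of_notMem (by simpa using fun h' => h h'.symm) (Set.toFinite _)]
      simp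
    · have : G'.neighborSet v = G.neighborSet v := by
        ext w
        simp only [SimpleGraph.mem_neighborSet]
        constructor
        · rintro (h1 | ⟨h1, h2⟩ | ⟨h1, h2⟩)
          · exact h1
          · exact absurd h1 hv
          · exact absurd h1 hv'
        · exact fun h1 => Or.inl h1
      rw [this]
      simp [hv, hv']

theorem exists_del_edge (G : SimpleGraph V) {s t : V} (hst : s ≠ t) (h : G.Adj s t) :
    ∃ G' : SimpleGraph V, (∀ a b, G'.Adj a b ↔ G.Adj a b ∧ ¬ (a = s ∧ b = t) ∧ ¬ (a = t ∧ b = s)) ∧
      ∀ v, deg G' v + (if v = s ∨ v = t then 1 else 0) = deg G v := by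
  let G' : SimpleGraph V :=
    { Adj := fun a b => G.Adj a b ∧ ¬ (a = s ∧ b = t) ∧ ¬ (a = t ∧ b = s)
      symm := ⟨by
        rintro a b ⟨h1, h2, h3⟩
        exact ⟨h1.symm, fun h4 => h3 ⟨h4.2, h4.1⟩, fun h4 => h2 ⟨h4.2, h4.1⟩⟩⟩
      loopless := ⟨by
        rintro a ⟨h1, _⟩
        exact G.loopless.irrefl a h1⟩ }
  refine ⟨G', fun a b => Iff.rfl, fun v => ?_⟩
  unfold deg
  by_cases hv : v = s
  · subst hv
    have : G.neighborSet v = insert t (G'.neighborSet v) := by
      ext w
      simp only [SimpleGraph.mem_neighborSet, Set.mem_insert_iff]
      constructor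
      · intro h1
        by_cases hw : w = t
        · exact Or.inl hw
        · exact Or.inr ⟨h1, fun h2 => hw h2.2, fun h2 => hst h2.1⟩
      · rintro (rfl | h1)
        · exact h
        · exact h1.1
    rw [this, Set.ncard_insert_of_notMem ?_ (Set.toFinite _)]
    · simp
    · rw [SimpleGraph.mem_neighborSet]
      rintro ⟨_, h2, _⟩
      exact h2 ⟨rfl, rfl⟩
  · by_cases hv' : v = t
    · subst hv'
      have : G.neighborSet v = insert s (G'.neighborSet v) := by
        ext w
        simp only [SimpleGraph.mem_neighborSet, Set.mem_insert_iff]
        constructor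
        · intro h1
          by_cases hw : w = s
          · exact Or.inl hw
          · exact Or.inr ⟨h1, fun h2 => hv h2.1, fun h2 => hw h2.2⟩
        · rintro (rfl | h1)
          · exact h.symm
          · exact h1.1
      rw [this, Set.ncard_insert_of_notMem ?_ (Set.toFinite _)]
      · simp
      · rw [SimpleGraph.mem_neighborSet]
        rintro ⟨_, _, h3⟩
        exact h3 ⟨rfl, rfl⟩
    · have : G'.neighborSet v = G.neighborSet v := by
        ext w
        simp only [SimpleGraph.mem_neighborSet]
        constructor
        · exact fun h1 => h1.1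
        · exact fun h1 => ⟨h1, fun h2 => hv h2.1, fun h2 => hv' h2.1⟩
      rw [this]
      simp [hv, hv']

omit [DecidableEq V] in
theorem deg_eq_card (G : SimpleGraph V) [DecidableRel G.Adj] (v : V) :
    deg G v = ((univ : Finset V).filter (fun w => G.Adj v w)).card := by
  unfold deg
  rw [Set.ncard_eq_toFinset_card']
  congr 1
  ext w
  simp

/-- the reduced function of the induction step -/
def red (f : V → ℕ) (u t : V) : V → ℕ := fun v => if v = u ∨ v = t then f v - 1 else f v

theorem egcond_red (f : V → ℕ) (hf : EGCond f) (hev : Even (∑ v, f v)) {u t : V} (hut : t ≠ u)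
    (hu1 : 1 ≤ f u) (humin : ∀ v, 1 ≤ f v → f u ≤ f v) (htmax : ∀ v, f v ≤ f t) :
    EGCond (red f u t) := by
  have ht1 : 1 ≤ f t := hu1.trans (htmax u)
  intro K
  set k := K.card with hk
  -- the complement sum
  set A := ∑ v ∈ Kᶜ, min (f v) k with hA
  set A' := ∑ v ∈ Kᶜ, min (red f u t v) k with hA'
  have hmain := hf K
  rw [← hk, ← hA] at hmain
  -- membership indicator sums
  have hLHS : ∑ v ∈ K, red f u t v + ((if u ∈ K then 1 else 0) + (if t ∈ K then 1 else 0))
      = ∑ v ∈ K, f v := by
    have h1 : ∀ v, f v = red f u t v + ((if v = u then 1 else 0) + (if v = t then 1 else 0)) := by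
      intro v
      unfold red
      by_cases h1 : v = u
      · subst h1
        simp [hut.symm]
        omega
      · by_cases h2 : v = t
        · subst h2
          simp [h1]
          omega
        · simp [h1, h2]
    rw [Finset.sum_congr rfl (fun v _ => h1 v)]
    rw [Finset.sum_add_distrib, Finset.sum_add_distrib]
    simp
  have hRHS : A ≤ A' + ((if u ∈ K then 0 else 1) + (if t ∈ K then 0 else 1)) := by
    have h1 : ∀ v, min (f v) k ≤ min (red f u t v) k +
        ((if v = u then 1 else 0) + (if v = t then 1 else 0)) := by
      intro v
      unfold red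
      by_cases h1 : v = u
      · subst h1
        simp [hut.symm]
        omega
      · by_cases h2 : v = t
        · subst h2
          simp [h1]
          omega
        · simp [h1, h2]
    calc A ≤ ∑ v ∈ Kᶜ, (min (red f u t v) k +
        ((if v = u then 1 else 0) + (if v = t then 1 else 0))) := Finset.sum_le_sum (fun v _ => h1 v)
      _ = _ := by
        rw [Finset.sum_add_distrib, Finset.sum_add_distrib]
        simp [hA']
  by_cases huK : u ∈ K
  · by_cases htK : t ∈ K
    · simp only [huK, htK, if_true] at hLHS hRHS
      omega
    · simp only [huK, htK, if_true, if_false] at hLHS hRHS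
      omega
  · by_cases htK : t ∈ K
    · simp only [huK, htK, if_true, if_false] at hLHS hRHS
      omega
    · simp only [huK, htK, if_false, add_zero] at hLHS hRHS
      rw [hLHS]
      have hKD : ∑ v ∈ K, f v ≤ k * f t := by
        calc ∑ v ∈ K, f v ≤ ∑ v ∈ K, f t := Finset.sum_le_sum (fun v _ => htmax v)
          _ = k * f t := by simp [hk]
      have huKc : u ∈ Kᶜ := by simpa using huK
      have htKc : t ∈ Kᶜ := by simpa using htK
      have hredu : red f u t u = f u - 1 := by simp [red]
      have hredt : red f u t t = f t - 1 := by simp [red]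
      rcases Nat.eq_zero_or_pos k with hk0 | hkpos
      · have : K = ∅ := Finset.card_eq_zero.mp (hk ▸ hk0)
        simp [this]
      rcases lt_trichotomy (f t) k with hlt | heq | hgt
      · -- f t ≤ k - 1
        have h1 : k * f t ≤ k * (k - 1) := Nat.mul_le_mul_left _ (by omega)
        omega
      · -- f t = k
        -- A' ≥ k - 1 + rest
        have hsplit : A' = min (f t - 1) k + ∑ v ∈ Kᶜ.erase t, min (red f u t v) k := by
          rw [hA', ← Finset.add_sum_erase _ _ htKc, hredt]
        have hkk : k * f t = k * (k - 1) + k := by
          rw [heq]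
          obtain ⟨j, hj⟩ : ∃ j, k = j + 1 := ⟨k - 1, by omega⟩
          rw [hj]
          simp
          ring
        have hmin1 : min (f t - 1) k = k - 1 := by omega
        by_cases hfull : ∑ v ∈ K, f v < k * f t
        · omega
        · -- equality, all of K has f = k
          have hE : ∑ v ∈ K, f v = k * f t := le_antisymm hKD (by omega)
          by_cases hrest : ∑ v ∈ Kᶜ.erase t, min (red f u t v) k = 0
          · exfalso
            have hz : ∀ v ∈ Kᶜ.erase t, red f u t v = 0 := by
              intro v hv
              have := (Finset.sum_eq_zero_iff.mp hrest) v hv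
              omega
            have hu2 : f u = 1 := by
              have := hz u (by simp [huK, hut.symm])
              rw [hredu] at this
              omega
            have hz2 : ∀ v ∈ (Kᶜ.erase t).erase u, f v = 0 := by
              intro v hv
              have hv' := Finset.mem_erase.mp hv
              have hv'' := Finset.mem_erase.mp hv'.2
              have := hz v hv'.2
              simpa [red, hv'.1, hv''.1] using this
            have htot : ∑ v, f v = k * f t + (f t + (f u + 0)) := by
              rw [← Finset.sum_add_sum_compl K, hE, ← Finset.add_sum_erase _ _ htKc,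
                ← Finset.add_sum_erase (Kᶜ.erase t) _ (by simp [huK, hut.symm] : u ∈ Kᶜ.erase t),
                Finset.sum_eq_zero hz2]
            rw [htot, hu2, heq] at hev
            have h2 : Even (k * k + k) := by
              have := Nat.even_mul_succ_self k
              rwa [Nat.mul_succ] at this
            rcases hev with ⟨a, ha⟩
            rcases h2 with ⟨b, hb⟩
            omega
          · omega
      · -- f t > k
        by_cases hfu : k < f u
        · -- no change of the right hand side
          have : A' = A := by
            apply Finset.sum_congr rfl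
            intro v _
            unfold red
            by_cases h1 : v = u
            · subst h1
              simp
              omega
            · by_cases h2 : v = t
              · subst h2
                simp
                omega
              · simp [h1, h2]
          omega
        · push Not at hfu
          have hAA' : A = A' + 1 := by
            rw [hA, hA', ← Finset.add_sum_erase _ _ huKc, ← Finset.add_sum_erase _ (fun v => min (red f u t v) k) huKc]
            have : ∑ v ∈ Kᶜ.erase u, min (f v) k = ∑ v ∈ Kᶜ.erase u, min (red f u t v) k := by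
              apply Finset.sum_congr rfl
              intro v hv
              have h1 := (Finset.mem_erase.mp hv).1
              unfold red
              by_cases h2 : v = t
              · subst h2
                simp
                omega
              · simp [h1, h2]
            rw [this]
            simp only [hredu]
            omega
          -- suppose equality in the condition at K
          by_contra hcon
          push Not at hcon
          have hE : ∑ v ∈ K, f v = k * (k - 1) + A := by omega
          set Q := (Kᶜ).filter (fun v => k + 1 ≤ f v) with hQ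
          set q := Q.card with hq
          have htQ : t ∈ Q := by
            rw [hQ, Finset.mem_filter]
            exact ⟨htKc, hgt⟩
          have hins := hf (insert t K)
          have hcard : (insert t K).card = k + 1 := by
            rw [Finset.card_insert_of_notMem htK]
          rw [hcard, Finset.sum_insert htK] at hins
          have hcompl : (insert t K)ᶜ = Kᶜ.erase t := by
            ext v
            simp
          rw [hcompl] at hins
          -- bound the sum in hins
          have hb1 : ∑ v ∈ Kᶜ.erase t, min (f v) (k + 1) + k ≤ A + (q - 1) := by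
            have h1 : ∀ v, min (f v) (k + 1) ≤ min (f v) k + (if k + 1 ≤ f v then 1 else 0) := by
              intro v
              split_ifs <;> omega
            have h2 : ∑ v ∈ Kᶜ.erase t, min (f v) (k + 1) ≤
                ∑ v ∈ Kᶜ.erase t, min (f v) k + ((Kᶜ.erase t).filter (fun v => k + 1 ≤ f v)).card := by
              rw [Finset.card_filter, ← Finset.sum_add_distrib]
              exact Finset.sum_le_sum (fun v _ => h1 v)
            have h3 : (Kᶜ.erase t).filter (fun v => k + 1 ≤ f v) = Q.erase t := by
              rw [hQ, Finset.filter_erase]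
            rw [h3, Finset.card_erase_of_mem htQ] at h2
            have h4 : A = min (f t) k + ∑ v ∈ Kᶜ.erase t, min (f v) k := by
              rw [hA, ← Finset.add_sum_erase _ _ htKc]
            have h5 : min (f t) k = k := by omega
            omega
          have hq1 : 1 ≤ q := Finset.card_pos.mpr ⟨t, htQ⟩
          -- A ≥ k q + 1
          have hb2 : k * q + 1 ≤ A := by
            have h1 : Q ⊆ Kᶜ.erase u := by
              intro v hv
              rw [hQ, Finset.mem_filter] at hv
              rw [Finset.mem_erase]
              refine ⟨?_, hv.1⟩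
              rintro rfl
              omega
            have h2 : ∑ v ∈ Q, min (f v) k ≤ ∑ v ∈ Kᶜ.erase u, min (f v) k :=
              Finset.sum_le_sum_of_subset h1
            have h3 : ∑ v ∈ Q, min (f v) k = q * k := by
              rw [Finset.sum_congr rfl (g := fun _ => k)]
              · simp [hq]
              · intro v hv
                rw [hQ, Finset.mem_filter] at hv
                omega
            have h4 : A = min (f u) k + ∑ v ∈ Kᶜ.erase u, min (f v) k := by
              rw [hA, ← Finset.add_sum_erase _ _ huKc]
            have h5 : 1 ≤ min (f u) k := by omega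
            rw [mul_comm]
            omega
          obtain ⟨j, hj⟩ : ∃ j, k = j + 1 := ⟨k - 1, by omega⟩
          obtain ⟨p, hp⟩ : ∃ p, q = p + 1 := ⟨q - 1, by omega⟩
          rw [hp] at hb1 hb2
          simp only [Nat.add_sub_cancel] at hins hb1
          rw [hj] at hins hb1 hb2 hE hKD hgt
          simp only [Nat.add_sub_cancel] at hins hb1 hb2 hE hKD
          -- hins : Σ + f t ≤ (j+2)(j+1) + ...
          have hft : f t ≤ j + 1 + p := by
            nlinarith
          have hKD2 : (j + 1) * f t ≤ (j + 1) * (j + 1 + p) := Nat.mul_le_mul_left _ hft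
          nlinarith

/-- **Erdos-Gallai theorem**, sufficiency, unsorted form. -/
theorem exists_graph_of_egcond : ∀ (S : ℕ) (f : V → ℕ), ∑ v, f v = S → Even S → EGCond f →
    ∃ G : SimpleGraph V, ∀ v, deg G v = f v := by
  intro S
  induction S using Nat.strong_induction_on with
  | _ S ih =>
  intro f hS hev hf
  rcases Nat.eq_zero_or_pos S with h0 | hpos
  · refine ⟨⊥, fun v => ?_⟩
    have h1 : f v = 0 := by
      have := Finset.sum_eq_zero_iff.mp (hS.trans h0) v (Finset.mem_univ v)
      exact this
    rw [h1]
    unfold deg
    have : (⊥ : SimpleGraph V).neighborSet v = ∅ := by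
      ext w
      simp
    rw [this, Set.ncard_empty]
  · -- choose u
    set P := (univ : Finset V).filter (fun v => 1 ≤ f v) with hP
    have hPne : P.Nonempty := by
      by_contra hne
      rw [Finset.not_nonempty_iff_eq_empty] at hne
      have : ∑ v, f v = 0 := by
        apply Finset.sum_eq_zero
        intro v _
        by_contra hv
        have : v ∈ P := by
          rw [hP, Finset.mem_filter]
          exact ⟨Finset.mem_univ v, by omega⟩
        rw [hne] at this
        simp at this
      omega
    obtain ⟨u, huP, humin⟩ := Finset.exists_min_image P f hPne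
    have hu1 : 1 ≤ f u := by
      rw [hP, Finset.mem_filter] at huP
      exact huP.2
    have humin' : ∀ v, 1 ≤ f v → f u ≤ f v := by
      intro v hv
      apply humin
      rw [hP, Finset.mem_filter]
      exact ⟨Finset.mem_univ v, hv⟩
    -- another positive vertex
    have hex : ∃ v, v ≠ u ∧ 1 ≤ f v := by
      by_contra hcon
      push Not at hcon
      have h1 := hf {u}
      simp only [Finset.sum_singleton, Finset.card_singleton] at h1
      have h2 : ∑ v ∈ ({u} : Finset V)ᶜ, min (f v) 1 = 0 := by
        apply Finset.sum_eq_zero
        intro v hv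
        have hv' : v ≠ u := by simpa using hv
        have := hcon v hv'
        omega
      rw [h2] at h1
      omega
    obtain ⟨v₀, hv₀u, hv₀⟩ := hex
    obtain ⟨t, htm, htmax⟩ := Finset.exists_max_image ((univ : Finset V).erase u) f
      ⟨v₀, by simp [hv₀u]⟩
    have htu : t ≠ u := by simpa using htm
    have htu2 : f u ≤ f t := (humin' v₀ hv₀).trans (htmax v₀ (by simp [hv₀u]))
    have htmax' : ∀ v, f v ≤ f t := by
      intro v
      by_cases hv : v = u
      · rw [hv]; exact htu2
      · exact htmax v (by simp [hv])
    have ht1 : 1 ≤ f t := hu1.trans htu2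
    -- the reduced sequence
    have hsum : ∑ v, red f u t v + 2 = S := by
      have h1 : ∀ v, f v = red f u t v + ((if v = u then 1 else 0) + (if v = t then 1 else 0)) := by
        intro v
        unfold red
        by_cases h1 : v = u
        · subst h1
          simp [htu.symm]
          omega
        · by_cases h2 : v = t
          · subst h2
            simp [h1]
            omega
          · simp [h1, h2]
      rw [← hS, Finset.sum_congr rfl (fun v _ => h1 v), Finset.sum_add_distrib,
        Finset.sum_add_distrib]
      simp
    have hev' : Even (∑ v, red f u t v) := by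
      rcases hev with ⟨a, ha⟩
      exact ⟨a - 1, by omega⟩
    have hred := egcond_red f hf (by rw [hS]; exact hev) htu hu1 humin' htmax'
    obtain ⟨G₁, hG₁⟩ := ih (∑ v, red f u t v) (by omega) (red f u t) rfl hev' hred
    have hdu : deg G₁ u + 1 = f u := by
      rw [hG₁]; simp [red]; omega
    have hdt : deg G₁ t + 1 = f t := by
      rw [hG₁]; simp [red]; omega
    have hdo : ∀ v, v ≠ u → v ≠ t → deg G₁ v = f v := by
      intro v h1 h2
      rw [hG₁]; simp [red, h1, h2]
    by_cases hadj : G₁.Adj t u
    · -- find a non-neighbour j of t with f j ≥ 1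
      have hj : ∃ j, j ≠ t ∧ ¬ G₁.Adj t j ∧ 1 ≤ f j := by
        by_contra hcon
        push Not at hcon
        have h1 := hf {t}
        simp only [Finset.sum_singleton, Finset.card_singleton] at h1
        -- all positive vertices other than t are neighbours
        have h2 : ∑ v ∈ ({t} : Finset V)ᶜ, min (f v) 1 ≤ deg G₁ t := by
          classical
          rw [deg_eq_card]
          have h3 : ∀ v ∈ ({t} : Finset V)ᶜ, min (f v) 1 ≤ if G₁.Adj t v then 1 else 0 := by
            intro v hv
            have hv' : v ≠ t := by simpa using hv
            by_cases h4 : G₁.Adj t v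
            · simp [h4]
            · have := hcon v hv' h4
              simp [h4]
              omega
          calc ∑ v ∈ ({t} : Finset V)ᶜ, min (f v) 1
              ≤ ∑ v ∈ ({t} : Finset V)ᶜ, (if G₁.Adj t v then 1 else 0) := Finset.sum_le_sum h3
            _ ≤ ∑ v, (if G₁.Adj t v then 1 else 0) :=
                Finset.sum_le_sum_of_subset (Finset.subset_univ _)
            _ = _ := by rw [Finset.card_filter]
        omega
      obtain ⟨j, hjt, hjadj, hj1⟩ := hj
      have hju : j ≠ u := by
        rintro rfl
        exact hjadj hadj
      -- find w adjacent to j, not adjacent to u, w ≠ u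
      have hw : ∃ w, G₁.Adj j w ∧ ¬ G₁.Adj u w ∧ w ≠ u := by
        by_contra hcon
        push Not at hcon
        have hsub : G₁.neighborSet j ⊆ insert u (G₁.neighborSet u \ {j}) := by
          intro w hw
          rw [SimpleGraph.mem_neighborSet] at hw
          by_cases h1 : w = u
          · exact Or.inl h1
          · right
            refine ⟨?_, ?_⟩
            · by_contra h2
              exact h1 (hcon w hw h2)
            · rintro rfl
              exact G₁.loopless.irrefl _ hw
        have hdj : deg G₁ j = f j := hdo j hju hjt
        have hfj : f u ≤ f j := humin' j hj1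
        by_cases hju' : G₁.Adj j u
        · have h1 : (insert u (G₁.neighborSet u \ {j})).ncard ≤ (G₁.neighborSet u \ {j}).ncard + 1 :=
            Set.ncard_insert_le _ _
          have h2 : (G₁.neighborSet u \ {j}).ncard + 1 = (G₁.neighborSet u).ncard :=
            Set.ncard_sdiff_singleton_add_one (by simpa using hju'.symm) (Set.toFinite _)
          have h3 := Set.ncard_le_ncard hsub (Set.toFinite _)
          have h4 : (G₁.neighborSet u).ncard = deg G₁ u := rfl
          have h5 : (G₁.neighborSet j).ncard = deg G₁ j := rfl
          omega
        · have hsub2 : G₁.neighborSet j ⊆ G₁.neighborSet u := by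
            intro w hw
            rcases hsub hw with h1 | h1
            · exfalso
              rw [SimpleGraph.mem_neighborSet] at hw
              rw [h1] at hw
              exact hju' hw
            · exact h1.1
          have h3 := Set.ncard_le_ncard hsub2 (Set.toFinite _)
          have h4 : (G₁.neighborSet u).ncard = deg G₁ u := rfl
          have h5 : (G₁.neighborSet j).ncard = deg G₁ j := rfl
          omega
      obtain ⟨w, hjw, huw, hwu⟩ := hw
      have hwj : j ≠ w := fun h => G₁.loopless.irrefl j (h ▸ hjw)
      have hwt : w ≠ t := by
        rintro rfl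
        exact hjadj hjw.symm
      -- remove j w
      obtain ⟨G₂, hG₂, hd₂⟩ := exists_del_edge G₁ hwj hjw
      -- add t j
      obtain ⟨G₃, hG₃, hd₃⟩ := exists_add_edge G₂ (Ne.symm hjt) (by
        rw [hG₂]
        exact fun h => hjadj h.1)
      -- add u w
      obtain ⟨G₄, hG₄, hd₄⟩ := exists_add_edge G₃ (Ne.symm hwu) (by
        rw [hG₃, hG₂]
        rintro (h | ⟨h, _⟩ | ⟨h, _⟩)
        · exact huw h.1
        · exact htu h.symm
        · exact hju h.symm)
      refine ⟨G₄, fun v => ?_⟩
      have e4 := hd₄ v
      have e3 := hd₃ v
      have e2 := hd₂ v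
      by_cases h1 : v = u
      · subst h1
        simp only [htu.symm, hju.symm, hwu.symm, true_or, or_self, if_true, if_false] at e2 e3 e4
        omega
      · by_cases h2 : v = t
        · subst h2
          simp only [h1, hjt.symm, hwt.symm, true_or, or_self, if_true, if_false] at e2 e3 e4
          omega
        · have e0 := hdo v h1 h2
          by_cases h3 : v = j
          · subst h3
            simp only [h1, h2, hwj, true_or, or_true, or_self, if_true, if_false] at e2 e3 e4
            omega
          · by_cases h4 : v = w
            · subst h4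
              simp only [h1, h2, h3, or_true, or_self, if_true, if_false] at e2 e3 e4
              omega
            · simp only [h1, h2, h3, h4, or_self, if_false] at e2 e3 e4
              omega
    · obtain ⟨G₂, _, hd₂⟩ := exists_add_edge G₁ htu hadj
      refine ⟨G₂, fun v => ?_⟩
      have e2 := hd₂ v
      by_cases h1 : v = u
      · subst h1
        simp only [or_true, if_true] at e2
        omega
      · by_cases h2 : v = t
        · subst h2
          simp only [true_or, if_true] at e2
          omega
        · have e0 := hdo v h1 h2
          simp only [h1, h2, or_self, if_false] at e2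
          omega

/-- **Erdos-Gallai theorem**, necessity, unsorted form. -/
theorem egcond_of_graph (G : SimpleGraph V) (f : V → ℕ) (hG : ∀ v, deg G v = f v) : EGCond f := by
  classical
  intro K
  have h1 : ∀ v ∈ K, f v = ∑ w ∈ K, (if G.Adj v w then 1 else 0) +
      ∑ w ∈ Kᶜ, (if G.Adj v w then 1 else 0) := by
    intro v _
    rw [← hG v, deg_eq_card, Finset.card_filter, Finset.sum_add_sum_compl]
  rw [Finset.sum_congr rfl h1, Finset.sum_add_distrib]
  apply Nat.add_le_add
  · calc ∑ v ∈ K, ∑ w ∈ K, (if G.Adj v w then 1 else 0)
        ≤ ∑ v ∈ K, (K.card - 1) := by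
          apply Finset.sum_le_sum
          intro v hv
          rw [← Finset.card_filter, ← Finset.card_erase_of_mem hv]
          apply Finset.card_le_card
          intro w hw
          rw [Finset.mem_filter] at hw
          rw [Finset.mem_erase]
          refine ⟨?_, hw.1⟩
          rintro rfl
          exact G.loopless.irrefl _ hw.2
      _ = _ := by simp
  · rw [Finset.sum_comm]
    apply Finset.sum_le_sum
    intro w _
    apply le_min
    · rw [← hG w, deg_eq_card, ← Finset.card_filter]
      apply Finset.card_le_card
      intro v hv
      rw [Finset.mem_filter] at hv ⊢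
      exact ⟨Finset.mem_univ v, hv.2.symm⟩
    · rw [← Finset.card_filter]
      exact Finset.card_filter_le _ _

/-- equality case in the Erdos-Gallai condition -/
theorem tight_structure (G : SimpleGraph V) (f : V → ℕ) (hG : ∀ v, deg G v = f v) (K : Finset V)
    (hle : ∑ v ∈ K, f v = K.card * (K.card - 1) + ∑ v ∈ Kᶜ, f v) :
    (∀ v ∈ K, ∀ w ∈ K, v ≠ w → G.Adj v w) ∧ (∀ w, w ∉ K → ∀ v, G.Adj w v → v ∈ K) := by
  classical
  have h1 : ∀ v ∈ K, f v = ∑ w ∈ K, (if G.Adj v w then 1 else 0) +
      ∑ w ∈ Kᶜ, (if G.Adj v w then 1 else 0) := by
    intro v _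
    rw [← hG v, deg_eq_card, Finset.card_filter, Finset.sum_add_sum_compl]
  rw [Finset.sum_congr rfl h1, Finset.sum_add_distrib] at hle
  have hA : ∀ v ∈ K, ∑ w ∈ K, (if G.Adj v w then 1 else 0) ≤ K.card - 1 := by
    intro v hv
    rw [← Finset.card_filter, ← Finset.card_erase_of_mem hv]
    apply Finset.card_le_card
    intro w hw
    rw [Finset.mem_filter] at hw
    rw [Finset.mem_erase]
    refine ⟨?_, hw.1⟩
    rintro rfl
    exact G.loopless.irrefl _ hw.2
  have hB : ∀ w ∈ Kᶜ, ∑ v ∈ K, (if G.Adj v w then 1 else 0) ≤ f w := by
    intro w _
    rw [← hG w, deg_eq_card, ← Finset.card_filter]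
    apply Finset.card_le_card
    intro v hv
    rw [Finset.mem_filter] at hv ⊢
    exact ⟨Finset.mem_univ v, hv.2.symm⟩
  have hA' := Finset.sum_le_sum hA
  have hB' := Finset.sum_le_sum hB
  rw [Finset.sum_comm] at hB'
  have hcA : ∑ v ∈ K, (K.card - 1) = K.card * (K.card - 1) := by simp
  rw [hcA] at hA'
  have eA : ∑ v ∈ K, ∑ w ∈ K, (if G.Adj v w then 1 else 0) = ∑ v ∈ K, (K.card - 1) := by
    rw [hcA]; omega
  have eB : ∑ w ∈ Kᶜ, ∑ v ∈ K, (if G.Adj v w then 1 else 0) = ∑ w ∈ Kᶜ, f w := by
    rw [Finset.sum_comm]; omega
  have eA' := (Finset.sum_eq_sum_iff_of_le hA).mp eA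
  have eB' := (Finset.sum_eq_sum_iff_of_le hB).mp eB
  constructor
  · intro v hv w hw hvw
    by_contra hnot
    have h2 := eA' v hv
    rw [← Finset.card_filter] at h2
    have h3 : K.filter (fun w => G.Adj v w) ⊆ (K.erase v).erase w := by
      intro x hx
      rw [Finset.mem_filter] at hx
      rw [Finset.mem_erase, Finset.mem_erase]
      refine ⟨?_, ?_, hx.1⟩
      · rintro rfl
        exact hnot hx.2
      · rintro rfl
        exact G.loopless.irrefl _ hx.2
    have h4 := Finset.card_le_card h3
    have hwe : w ∈ K.erase v := Finset.mem_erase.mpr ⟨hvw.symm, hw⟩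
    rw [Finset.card_erase_of_mem hwe, Finset.card_erase_of_mem hv] at h4
    have h5 : 2 ≤ K.card := by
      have := Finset.card_pos.mpr ⟨w, hwe⟩
      rw [Finset.card_erase_of_mem hv] at this
      omega
    omega
  · intro w hw v hwv
    by_contra hvK
    have h2 := eB' w (by simpa using hw)
    rw [← hG w, deg_eq_card, ← Finset.card_filter] at h2
    have h3 : K.filter (fun v => G.Adj v w) ⊆ ((univ : Finset V).filter (fun v => G.Adj w v)).erase v := by
      intro x hx
      rw [Finset.mem_filter] at hx
      rw [Finset.mem_erase, Finset.mem_filter]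
      refine ⟨?_, Finset.mem_univ _, hx.2.symm⟩
      rintro rfl
      exact hvK hx.1
    have h4 := Finset.card_le_card h3
    have hv' : v ∈ (univ : Finset V).filter (fun v => G.Adj w v) := by
      rw [Finset.mem_filter]
      exact ⟨Finset.mem_univ _, hwv⟩
    have h5 := Finset.card_pos.mpr ⟨v, hv'⟩
    rw [Finset.card_erase_of_mem hv'] at h4
    omega

end

end Pool.Agent.H55.EG
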