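import Mathlib

set_option autoImplicit false
open MeasureTheory Metric Set Real

namespace Pool.Agent.H55.Stadium

/-- vertical component of the field in the middle strip -/
noncomputable def G (y : ℝ) : ℝ := 3 / 2 * y - (1 / π) * (y * √(1 - y ^ 2) + arcsin y)

lemma hasDerivAt_G {y : ℝ} (h1 : -1 < y) (h2 : y < 1) :
    HasDerivAt G (3 / 2 - 2 / π * √(1 - y ^ 2)) y := by
  have hpos : 0 < 1 - y ^ 2 := by nlinarith
  have hs : √(1 - y ^ 2) ≠ 0 := (Real.sqrt_pos.mpr hpos).ne'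
  have hd1 : HasDerivAt (fun y : ℝ => 1 - y ^ 2) (-(2 * y)) y := by
    have := (hasDerivAt_pow 2 y).const_sub 1
    simpa using this
  have hd2 : HasDerivAt (fun y : ℝ => √(1 - y ^ 2)) (-(2 * y) / (2 * √(1 - y ^ 2))) y :=
    hd1.sqrt hpos.ne'
  have hd3 : HasDerivAt (fun y : ℝ => y * √(1 - y ^ 2))
      (1 * √(1 - y ^ 2) + y * (-(2 * y) / (2 * √(1 - y ^ 2)))) y := (hasDerivAt_id y).mul hd2
  have hd4 : HasDerivAt arcsin (1 / √(1 - y ^ 2)) y := hasDerivAt_arcsin h1.ne' h2.ne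
  have hd5 := (((hasDerivAt_id y).const_mul (3 / 2)).sub ((hd3.add hd4).const_mul (1 / π)))
  have : HasDerivAt G _ y := hd5
  convert this using 1
  have hsq : √(1 - y ^ 2) ^ 2 = 1 - y ^ 2 := Real.sq_sqrt hpos.le
  field_simp
  linear_combination (-2) * hsq

lemma continuous_G : Continuous G := by
  unfold G
  have := continuous_arcsin
  fun_prop

lemma G_zero : G 0 = 0 := by simp [G]
lemma G_one : G 1 = 1 := by
  simp [G]
  field_simp
  ring

lemma G_neg (y : ℝ) : G (-y) = - G y := by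
  simp [G, arcsin_neg]
  ring

lemma sqrt_le_one' (y : ℝ) : √(1 - y ^ 2) ≤ 1 := by
  rw [Real.sqrt_le_one]
  nlinarith [sq_nonneg y]

lemma G'_pos (y : ℝ) : 0 < 3 / 2 - 2 / π * √(1 - y ^ 2) := by
  have h1 := sqrt_le_one' y
  have h2 : 2 / π ≤ 1 := by
    rw [div_le_one pi_pos]
    linarith [pi_gt_three]
  have h3 : 0 ≤ √(1 - y ^ 2) := Real.sqrt_nonneg _
  have : 2 / π * √(1 - y ^ 2) ≤ 1 * 1 := mul_le_mul h2 h1 h3 zero_le_one
  linarith

lemma strictMonoOn_G : StrictMonoOn G (Icc (-1) 1) := by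
  apply strictMonoOn_of_deriv_pos (convex_Icc _ _) continuous_G.continuousOn
  intro y hy
  rw [interior_Icc] at hy
  rw [(hasDerivAt_G hy.1 hy.2).deriv]
  exact G'_pos y

lemma G_le {y : ℝ} (h0 : 0 ≤ y) (h1 : y ≤ 1) : G y ≤ y := by
  -- convexity of G on [0,1]
  have hconv : ConvexOn ℝ (Icc 0 1) G := by
    apply MonotoneOn.convexOn_of_deriv (convex_Icc _ _) continuous_G.continuousOn
    · intro x hx
      rw [interior_Icc] at hx
      exact (hasDerivAt_G (by linarith [hx.1]) hx.2).differentiableAt.differentiableWithinAt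
    · intro a ha b hb hab
      rw [interior_Icc] at ha hb
      rw [(hasDerivAt_G (by linarith [ha.1]) ha.2).deriv, (hasDerivAt_G (by linarith [hb.1]) hb.2).deriv]
      have : √(1 - b ^ 2) ≤ √(1 - a ^ 2) := by
        apply Real.sqrt_le_sqrt
        nlinarith [ha.1, hb.1]
      have h2 : 0 ≤ 2 / π := by positivity
      nlinarith [mul_le_mul_of_nonneg_left this h2]
  have h3 : (0 : ℝ) ≤ 1 - y := by linarith
  have := hconv.2 (left_mem_Icc.mpr zero_le_one) (right_mem_Icc.mpr zero_le_one) h3 h0 (by ring)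
  simpa [G_zero, G_one] using this

lemma G_nonneg {y : ℝ} (h0 : 0 ≤ y) (h1 : y ≤ 1) : 0 ≤ G y := by
  rw [← G_zero]
  exact strictMonoOn_G.monotoneOn ⟨by norm_num, by norm_num⟩ ⟨by linarith, h1⟩ h0

lemma G_sq_le {y : ℝ} (h : |y| ≤ 1) : G y ^ 2 ≤ y ^ 2 := by
  rcases le_total 0 y with hy | hy
  · rw [abs_of_nonneg hy] at h
    have h1 := G_le hy h
    have h2 := G_nonneg hy h
    nlinarith
  · rw [abs_of_nonpos hy] at h
    have h1 := G_le (y := -y) (by linarith) h
    have h2 := G_nonneg (y := -y) (by linarith) h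
    rw [G_neg] at h1 h2
    nlinarith

/-- An injective map with Jacobian determinant at least `m` expands volume by at least `m`. -/
lemma expand_of_det {s : Set (ℝ × ℝ)} (hs : MeasurableSet s) {f : ℝ × ℝ → ℝ × ℝ}
    (a b c d : ℝ × ℝ → ℝ)
    (hf : ∀ p ∈ s, HasFDerivAt f ((a p • ContinuousLinearMap.fst ℝ ℝ ℝ +
      b p • ContinuousLinearMap.snd ℝ ℝ ℝ).prod (c p • ContinuousLinearMap.fst ℝ ℝ ℝ +
      d p • ContinuousLinearMap.snd ℝ ℝ ℝ)) p)
    (hinj : InjOn f s) {m : ℝ} (hm : ∀ p ∈ s, m ≤ a p * d p - b p * c p) :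
    ENNReal.ofReal m * volume s ≤ volume (f '' s) := by
  rw [← lintegral_abs_det_fderiv_eq_addHaar_image volume hs
    (fun p hp => (hf p hp).hasFDerivWithinAt) hinj]
  have h1 : ENNReal.ofReal m * volume s = ∫⁻ _ in s, ENNReal.ofReal m := by
    rw [setLIntegral_const]
  rw [h1]
  apply setLIntegral_mono' hs
  intro p hp
  apply ENNReal.ofReal_le_ofReal
  rw [← Matrix.toLin_finTwoProd_toContinuousLinearMap]
  have : (LinearMap.toContinuousLinearMap ((Matrix.toLin (Module.Basis.finTwoProd ℝ)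
    (Module.Basis.finTwoProd ℝ)) !![a p, b p; c p, d p])).det = a p * d p - b p * c p := by
    simp only [LinearMap.det_toContinuousLinearMap, LinearMap.det_toLin, Matrix.det_fin_two_of]
  rw [this]
  exact (hm p hp).trans (le_abs_self _)

end Pool.Agent.H55.Stadium
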