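import Pool.Agent.H55.StadiumA
set_option autoImplicit false
open MeasureTheory Metric Set Real

namespace Pool.Agent.H55.Stadium

noncomputable def TM (ε : ℝ) (p : ℝ × ℝ) : ℝ × ℝ :=
  (p.1 * (1 + ε * (2 / π * √(1 - p.2 ^ 2))), p.2 + ε * G p.2)

noncomputable def TR (ε : ℝ) (p : ℝ × ℝ) : ℝ × ℝ :=
  (p.1 + ε * ((p.1 - π / 4) / 2 + √(1 - p.2 ^ 2) / 2), p.2 + ε * p.2)

noncomputable def TL (ε : ℝ) (p : ℝ × ℝ) : ℝ × ℝ :=
  (p.1 + ε * ((p.1 + π / 4) / 2 - √(1 - p.2 ^ 2) / 2), p.2 + ε * p.2)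

def RM : Set (ℝ × ℝ) := {p | |p.1| < π / 4 ∧ |p.2| < 1}
def RR : Set (ℝ × ℝ) := {p | π / 4 < p.1 ∧ p.1 ≤ π / 4 + √(1 - p.2 ^ 2) ∧ |p.2| < 1}
def RL : Set (ℝ × ℝ) := {p | p.1 < -(π / 4) ∧ -(π / 4 + √(1 - p.2 ^ 2)) ≤ p.1 ∧ |p.2| < 1}

lemma measurableSet_RM : MeasurableSet RM := by
  have h1 : Measurable (fun p : ℝ × ℝ => |p.1|) := by fun_prop
  have h2 : Measurable (fun p : ℝ × ℝ => |p.2|) := by fun_prop
  exact (measurableSet_lt h1 measurable_const).inter (measurableSet_lt h2 measurable_const)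

lemma measurableSet_RR : MeasurableSet RR := by
  have h1 : Measurable (fun p : ℝ × ℝ => p.1) := by fun_prop
  have h2 : Measurable (fun p : ℝ × ℝ => |p.2|) := by fun_prop
  have h3 : Measurable (fun p : ℝ × ℝ => π / 4 + √(1 - p.2 ^ 2)) := by fun_prop
  exact (measurableSet_lt measurable_const h1).inter
    ((measurableSet_le h1 h3).inter (measurableSet_lt h2 measurable_const))

lemma measurableSet_RL : MeasurableSet RL := by
  have h1 : Measurable (fun p : ℝ × ℝ => p.1) := by fun_prop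
  have h2 : Measurable (fun p : ℝ × ℝ => |p.2|) := by fun_prop
  have h3 : Measurable (fun p : ℝ × ℝ => -(π / 4 + √(1 - p.2 ^ 2))) := by fun_prop
  exact (measurableSet_lt h1 measurable_const).inter
    ((measurableSet_le h3 h1).inter (measurableSet_lt h2 measurable_const))

lemma hasDerivAt_sqrt1 {y : ℝ} (h : |y| < 1) :
    HasDerivAt (fun y : ℝ => √(1 - y ^ 2)) (-(2 * y) / (2 * √(1 - y ^ 2))) y := by
  have hpos : 0 < 1 - y ^ 2 := by nlinarith [abs_lt.mp h, sq_abs y, abs_nonneg y]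
  have hd1 : HasDerivAt (fun y : ℝ => 1 - y ^ 2) (-(2 * y)) y := by
    have := (hasDerivAt_pow 2 y).const_sub 1
    simpa using this
  exact hd1.sqrt hpos.ne'

lemma hasFDerivAt_pair {a b c d : ℝ → ℝ} {a' b' c' d' : ℝ} {p : ℝ × ℝ}
    (ha : HasDerivAt a a' p.1) (hb : HasDerivAt b b' p.2) (hc : HasDerivAt c c' p.2)
    (hd : HasDerivAt d d' p.2) :
    HasFDerivAt (fun q : ℝ × ℝ => (a q.1 * b q.2 + c q.2, d q.2))
      (((a' * b p.2) • ContinuousLinearMap.fst ℝ ℝ ℝ +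
      (a p.1 * b' + c') • ContinuousLinearMap.snd ℝ ℝ ℝ).prod
      ((0 : ℝ) • ContinuousLinearMap.fst ℝ ℝ ℝ + d' • ContinuousLinearMap.snd ℝ ℝ ℝ)) p := by
  have h1 := ha.comp_hasFDerivAt p (hasFDerivAt_fst (𝕜 := ℝ))
  have h2 := hb.comp_hasFDerivAt p (hasFDerivAt_snd (𝕜 := ℝ))
  have h3 := hc.comp_hasFDerivAt p (hasFDerivAt_snd (𝕜 := ℝ))
  have h4 := hd.comp_hasFDerivAt p (hasFDerivAt_snd (𝕜 := ℝ))
  have h5 := (((h1.mul h2).add h3).prodMk h4)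
  convert! h5 using 2
  · ext <;> simp [mul_comm]
  · ext <;> simp

lemma hasFDerivAt_TM (ε : ℝ) {p : ℝ × ℝ} (h : |p.2| < 1) :
    HasFDerivAt (TM ε) (((1 * (1 + ε * (2 / π * √(1 - p.2 ^ 2)))) • ContinuousLinearMap.fst ℝ ℝ ℝ +
      (p.1 * (ε * (2 / π * (-(2 * p.2) / (2 * √(1 - p.2 ^ 2))))) + 0) • ContinuousLinearMap.snd ℝ ℝ ℝ).prod
      ((0 : ℝ) • ContinuousLinearMap.fst ℝ ℝ ℝ +
      (1 + ε * (3 / 2 - 2 / π * √(1 - p.2 ^ 2))) • ContinuousLinearMap.snd ℝ ℝ ℝ)) p := by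
  have h1 : HasDerivAt (fun y : ℝ => 1 + ε * (2 / π * √(1 - y ^ 2)))
      (ε * (2 / π * (-(2 * p.2) / (2 * √(1 - p.2 ^ 2))))) p.2 :=
    (((hasDerivAt_sqrt1 h).const_mul (2 / π)).const_mul ε).const_add 1
  have h2 : HasDerivAt (fun y : ℝ => y + ε * G y) (1 + ε * (3 / 2 - 2 / π * √(1 - p.2 ^ 2))) p.2 :=
    (hasDerivAt_id p.2).add ((hasDerivAt_G (abs_lt.mp h).1 (abs_lt.mp h).2).const_mul ε)
  have h3 := hasFDerivAt_pair (p := p) (hasDerivAt_id p.1) h1 (hasDerivAt_const p.2 (0 : ℝ)) h2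
  have h7 : TM ε = fun q : ℝ × ℝ => (id q.1 * (1 + ε * (2 / π * √(1 - q.2 ^ 2))) + 0, q.2 + ε * G q.2) := by
    funext x
    simp [TM]
  rw [h7]
  exact h3

lemma hasFDerivAt_TR (ε : ℝ) {p : ℝ × ℝ} (h : |p.2| < 1) :
    HasFDerivAt (TR ε) ((((1 + ε / 2) * 1) • ContinuousLinearMap.fst ℝ ℝ ℝ +
      ((p.1 + ε * ((p.1 - π / 4) / 2)) * 0 + (ε * ((-(2 * p.2) / (2 * √(1 - p.2 ^ 2))) / 2)))
        • ContinuousLinearMap.snd ℝ ℝ ℝ).prod
      ((0 : ℝ) • ContinuousLinearMap.fst ℝ ℝ ℝ +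
      (1 + ε * 1) • ContinuousLinearMap.snd ℝ ℝ ℝ)) p := by
  have h1 : HasDerivAt (fun y : ℝ => ε * (√(1 - y ^ 2) / 2))
      (ε * ((-(2 * p.2) / (2 * √(1 - p.2 ^ 2))) / 2)) p.2 :=
    ((hasDerivAt_sqrt1 h).div_const 2).const_mul ε
  have h2 : HasDerivAt (fun y : ℝ => y + ε * y) (1 + ε * 1) p.2 :=
    (hasDerivAt_id p.2).add ((hasDerivAt_id p.2).const_mul ε)
  have h5 : HasDerivAt (fun x : ℝ => x + ε * ((x - π / 4) / 2)) (1 + ε / 2) p.1 := by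
    have := (hasDerivAt_id p.1).add ((((hasDerivAt_id p.1).sub_const (π / 4)).div_const 2).const_mul ε)
    convert! this using 1
    ring
  have h3 := hasFDerivAt_pair (p := p) h5 (hasDerivAt_const p.2 (1 : ℝ)) h1 h2
  have h7 : TR ε = fun q : ℝ × ℝ => ((q.1 + ε * ((q.1 - π / 4) / 2)) * 1 +
      ε * (√(1 - q.2 ^ 2) / 2), q.2 + ε * q.2) := by
    funext x
    simp [TR]
    ring
  rw [h7]
  exact h3

lemma hasFDerivAt_TL (ε : ℝ) {p : ℝ × ℝ} (h : |p.2| < 1) :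
    HasFDerivAt (TL ε) ((((1 + ε / 2) * 1) • ContinuousLinearMap.fst ℝ ℝ ℝ +
      ((p.1 + ε * ((p.1 + π / 4) / 2)) * 0 + -(ε * ((-(2 * p.2) / (2 * √(1 - p.2 ^ 2))) / 2)))
        • ContinuousLinearMap.snd ℝ ℝ ℝ).prod
      ((0 : ℝ) • ContinuousLinearMap.fst ℝ ℝ ℝ +
      (1 + ε * 1) • ContinuousLinearMap.snd ℝ ℝ ℝ)) p := by
  have h1 : HasDerivAt (fun y : ℝ => -(ε * (√(1 - y ^ 2) / 2)))
      (-(ε * ((-(2 * p.2) / (2 * √(1 - p.2 ^ 2))) / 2))) p.2 :=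
    (((hasDerivAt_sqrt1 h).div_const 2).const_mul ε).fun_neg
  have h2 : HasDerivAt (fun y : ℝ => y + ε * y) (1 + ε * 1) p.2 :=
    (hasDerivAt_id p.2).add ((hasDerivAt_id p.2).const_mul ε)
  have h5 : HasDerivAt (fun x : ℝ => x + ε * ((x + π / 4) / 2)) (1 + ε / 2) p.1 := by
    have := (hasDerivAt_id p.1).add ((((hasDerivAt_id p.1).add_const (π / 4)).div_const 2).const_mul ε)
    convert! this using 1
    ring
  have h3 := hasFDerivAt_pair (p := p) h5 (hasDerivAt_const p.2 (1 : ℝ)) h1 h2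
  have h7 : TL ε = fun q : ℝ × ℝ => ((q.1 + ε * ((q.1 + π / 4) / 2)) * 1 +
      -(ε * (√(1 - q.2 ^ 2) / 2)), q.2 + ε * q.2) := by
    funext x
    simp [TL]
    ring
  rw [h7]
  exact h3

lemma injOn_TM {ε : ℝ} (hε : 0 ≤ ε) : InjOn (TM ε) RM := by
  rintro ⟨x, y⟩ h ⟨x', y'⟩ h' heq
  simp only [TM, Prod.mk.injEq] at heq
  have hmono : StrictMonoOn (fun y => y + ε * G y) (Icc (-1) 1) := by
    intro a ha b hb hab
    have := strictMonoOn_G.monotoneOn ha hb hab.le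
    simp only
    nlinarith
  have hy : y = y' := by
    apply hmono.injOn _ _ heq.2
    · exact ⟨(abs_lt.mp h.2).1.le, (abs_lt.mp h.2).2.le⟩
    · exact ⟨(abs_lt.mp h'.2).1.le, (abs_lt.mp h'.2).2.le⟩
  subst hy
  have hpos : 0 < 1 + ε * (2 / π * √(1 - y ^ 2)) := by positivity
  have := mul_right_cancel₀ hpos.ne' heq.1
  rw [this]

lemma inj_TR {ε : ℝ} (hε : 0 ≤ ε) : Function.Injective (TR ε) := by
  rintro ⟨x, y⟩ ⟨x', y'⟩ heq
  simp only [TR, Prod.mk.injEq] at heq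
  have hy : y = y' := by
    have h1 : (1 + ε) * (y - y') = 0 := by linarith [heq.2]
    have h2 : 1 + ε ≠ 0 := by positivity
    have := (mul_eq_zero.mp h1).resolve_left h2
    linarith
  subst hy
  have h1 : (1 + ε / 2) * (x - x') = 0 := by linarith [heq.1]
  have h2 : 1 + ε / 2 ≠ 0 := by positivity
  have := (mul_eq_zero.mp h1).resolve_left h2
  have : x = x' := by linarith
  rw [this]

lemma inj_TL {ε : ℝ} (hε : 0 ≤ ε) : Function.Injective (TL ε) := by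
  rintro ⟨x, y⟩ ⟨x', y'⟩ heq
  simp only [TL, Prod.mk.injEq] at heq
  have hy : y = y' := by
    have h1 : (1 + ε) * (y - y') = 0 := by linarith [heq.2]
    have h2 : 1 + ε ≠ 0 := by positivity
    have := (mul_eq_zero.mp h1).resolve_left h2
    linarith
  subst hy
  have h1 : (1 + ε / 2) * (x - x') = 0 := by linarith [heq.1]
  have h2 : 1 + ε / 2 ≠ 0 := by positivity
  have := (mul_eq_zero.mp h1).resolve_left h2
  have : x = x' := by linarith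
  rw [this]

lemma abs_G_le {y : ℝ} (h : |y| ≤ 1) : |G y| ≤ |y| := sq_le_sq.mp (G_sq_le h)

lemma sqrt_anti {y y' : ℝ} (h : |y'| ≤ |y|) : √(1 - y ^ 2) ≤ √(1 - y' ^ 2) := by
  apply Real.sqrt_le_sqrt
  have := sq_le_sq.mpr h
  linarith

lemma y_cmp {ε : ℝ} (hε : 0 ≤ ε) {y y' : ℝ} (h : |y| < 1) (heq : y + ε * G y = y' + ε * y') :
    |y'| ≤ |y| := by
  have h1 : |y' + ε * y'| = (1 + ε) * |y'| := by
    have : y' + ε * y' = (1 + ε) * y' := by ring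
    rw [this, abs_mul, abs_of_nonneg (by positivity)]
  have h2 : |y + ε * G y| ≤ (1 + ε) * |y| := by
    calc |y + ε * G y| ≤ |y| + |ε * G y| := abs_add_le _ _
      _ = |y| + ε * |G y| := by rw [abs_mul, abs_of_nonneg hε]
      _ ≤ |y| + ε * |y| := by
        have := mul_le_mul_of_nonneg_left (abs_G_le h.le) hε
        linarith
      _ = (1 + ε) * |y| := by ring
  rw [heq, h1] at h2
  have : 0 < 1 + ε := by positivity
  exact le_of_mul_le_mul_left h2 this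

lemma disj_TM_TR {ε : ℝ} (hε : 0 ≤ ε) : Disjoint (TM ε '' RM) (TR ε '' RR) := by
  rw [Set.disjoint_left]
  rintro _ ⟨⟨x, y⟩, h, rfl⟩ ⟨⟨x', y'⟩, h', heq⟩
  simp only [TM, TR, Prod.mk.injEq] at heq
  obtain ⟨h1, h2⟩ := h
  obtain ⟨h3, h4, h5⟩ := h'
  simp only at h1 h2 h3 h4 h5
  have hy := y_cmp hε h2 heq.2.symm
  have hs := sqrt_anti hy
  have hpi := pi_pos
  set u := √(1 - y ^ 2) with hu
  set v := √(1 - y' ^ 2) with hv
  have hu0 : 0 ≤ u := Real.sqrt_nonneg _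
  have hv0 : 0 ≤ v := Real.sqrt_nonneg _
  have h6 : x * (1 + ε * (2 / π * u)) ≤ π / 4 * (1 + ε * (2 / π * u)) := by
    apply mul_le_mul_of_nonneg_right (le_trans (le_abs_self x) h1.le) (by positivity)
  have h7 : π / 4 * (1 + ε * (2 / π * u)) = π / 4 + ε * (u / 2) := by
    field_simp
    ring
  have h8 : ε * (u / 2) ≤ ε * (v / 2) := by gcongr
  have h9 : 0 ≤ ε * ((x' - π / 4) / 2) := by
    apply mul_nonneg hε
    linarith
  have h10 : ε * ((x' - π / 4) / 2 + v / 2) = ε * ((x' - π / 4) / 2) + ε * (v / 2) := by ring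
  linarith [heq.1]

lemma disj_TM_TL {ε : ℝ} (hε : 0 ≤ ε) : Disjoint (TM ε '' RM) (TL ε '' RL) := by
  rw [Set.disjoint_left]
  rintro _ ⟨⟨x, y⟩, h, rfl⟩ ⟨⟨x', y'⟩, h', heq⟩
  simp only [TM, TL, Prod.mk.injEq] at heq
  obtain ⟨h1, h2⟩ := h
  obtain ⟨h3, h4, h5⟩ := h'
  simp only at h1 h2 h3 h4 h5
  have hy := y_cmp hε h2 heq.2.symm
  have hs := sqrt_anti hy
  have hpi := pi_pos
  set u := √(1 - y ^ 2) with hu
  set v := √(1 - y' ^ 2) with hv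
  have hu0 : 0 ≤ u := Real.sqrt_nonneg _
  have hv0 : 0 ≤ v := Real.sqrt_nonneg _
  have h6 : -(π / 4) * (1 + ε * (2 / π * u)) ≤ x * (1 + ε * (2 / π * u)) := by
    apply mul_le_mul_of_nonneg_right _ (by positivity)
    linarith [neg_abs_le x]
  have h7 : -(π / 4) * (1 + ε * (2 / π * u)) = -(π / 4) - ε * (u / 2) := by
    field_simp
    ring
  have h8 : ε * (u / 2) ≤ ε * (v / 2) := by gcongr
  have h9 : ε * ((x' + π / 4) / 2) ≤ 0 := by
    apply mul_nonpos_of_nonneg_of_nonpos hε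
    linarith
  have h10 : ε * ((x' + π / 4) / 2 - v / 2) = ε * ((x' + π / 4) / 2) - ε * (v / 2) := by ring
  linarith [heq.1]

lemma disj_TR_TL {ε : ℝ} (hε : 0 ≤ ε) : Disjoint (TR ε '' RR) (TL ε '' RL) := by
  rw [Set.disjoint_left]
  rintro _ ⟨⟨x, y⟩, h, rfl⟩ ⟨⟨x', y'⟩, h', heq⟩
  simp only [TR, TL, Prod.mk.injEq] at heq
  obtain ⟨h1, h2, h2'⟩ := h
  obtain ⟨h3, h4, h5⟩ := h'
  simp only at h1 h2 h3 h4 h5
  have hpi := pi_pos
  set u := √(1 - y ^ 2) with hu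
  set v := √(1 - y' ^ 2) with hv
  have hu0 : 0 ≤ u := Real.sqrt_nonneg _
  have hv0 : 0 ≤ v := Real.sqrt_nonneg _
  have h8 : 0 ≤ ε * ((x - π / 4) / 2 + u / 2) := by
    apply mul_nonneg hε
    linarith
  have h9 : ε * ((x' + π / 4) / 2 - v / 2) ≤ 0 := by
    apply mul_nonpos_of_nonneg_of_nonpos hε
    linarith
  linarith [heq.1]

end Pool.Agent.H55.Stadium
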