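import Pool.Agent.H55.StadiumB
set_option autoImplicit false
open MeasureTheory Metric Set Real

namespace Pool.Agent.H55.Stadium

abbrev E := EuclideanSpace ℝ (Fin 2)

/-- coordinates, as a measurable equivalence -/
noncomputable def co : E ≃ᵐ ℝ × ℝ :=
  (MeasurableEquiv.toLp 2 (Fin 2 → ℝ)).symm.trans MeasurableEquiv.finTwoArrow

lemma co_apply (z : E) : co z = (z 0, z 1) := rfl

lemma co_mp : MeasurePreserving co volume volume :=
  (EuclideanSpace.volume_preserving_symm_measurableEquiv_toLp (Fin 2)).trans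
    (volume_preserving_finTwoArrow ℝ)

noncomputable def pt (a b : ℝ) : E := !₂[a, b]

@[simp] lemma pt_zero (a b : ℝ) : pt a b 0 = a := rfl
@[simp] lemma pt_one (a b : ℝ) : pt a b 1 = b := rfl

lemma pt_eta (z : E) : pt (z 0) (z 1) = z := by
  ext i
  fin_cases i <;> rfl

lemma co_symm_apply (p : ℝ × ℝ) : co.symm p = pt p.1 p.2 := by
  rw [MeasurableEquiv.symm_apply_eq]
  rfl

lemma dist_eq2 (z w : E) : dist z w = √((z 0 - w 0) ^ 2 + (z 1 - w 1) ^ 2) := by
  rw [EuclideanSpace.dist_eq, Fin.sum_univ_two, Real.dist_eq, Real.dist_eq, sq_abs, sq_abs]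

lemma dist_le_iff2 (z w : E) {r : ℝ} (hr : 0 ≤ r) :
    dist z w ≤ r ↔ (z 0 - w 0) ^ 2 + (z 1 - w 1) ^ 2 ≤ r ^ 2 := by
  rw [dist_eq2, Real.sqrt_le_left hr]

/-- The core segment. -/
noncomputable def core : Set E := (fun a : ℝ => pt a 0) '' Icc (-(π / 4)) (π / 4)

/-- The stadium. -/
noncomputable def C : Set E := cthickening 1 core

lemma continuous_pt : Continuous (fun p : ℝ × ℝ => pt p.1 p.2) := by
  unfold pt
  fun_prop

lemma isCompact_core : IsCompact core := by
  apply isCompact_Icc.image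
  exact continuous_pt.comp (by fun_prop : Continuous fun a : ℝ => (a, (0 : ℝ)))

lemma mem_thick_iff {ρ : ℝ} (hρ : 0 ≤ ρ) (z : E) :
    z ∈ cthickening ρ core ↔ ∃ a : ℝ, |a| ≤ π / 4 ∧ (z 0 - a) ^ 2 + (z 1) ^ 2 ≤ ρ ^ 2 := by
  rw [isCompact_core.cthickening_eq_biUnion_closedBall hρ]
  simp only [mem_iUnion, mem_closedBall, exists_prop]
  constructor
  · rintro ⟨w, ⟨a, ha, rfl⟩, h⟩
    refine ⟨a, abs_le.mpr ⟨ha.1, ha.2⟩, ?_⟩
    rw [dist_le_iff2 _ _ hρ] at h
    simpa using h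
  · rintro ⟨a, ha, h⟩
    refine ⟨pt a 0, ⟨a, ⟨(abs_le.mp ha).1, (abs_le.mp ha).2⟩, rfl⟩, ?_⟩
    rw [dist_le_iff2 _ _ hρ]
    simpa using h

lemma mem_thick_iff' {ρ : ℝ} (hρ : 0 ≤ ρ) (z : E) :
    z ∈ cthickening ρ core ↔ |z 1| ≤ ρ ∧ |z 0| ≤ π / 4 + √(ρ ^ 2 - (z 1) ^ 2) := by
  rw [mem_thick_iff hρ]
  have hpi := pi_pos
  constructor
  · rintro ⟨a, ha, h⟩
    refine ⟨?_, ?_⟩
    · apply abs_le_of_sq_le_sq _ hρ |> fun h => h
      nlinarith [sq_nonneg (z 0 - a)]
    · have h1 : |z 0 - a| ≤ √(ρ ^ 2 - (z 1) ^ 2) := by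
        apply Real.le_sqrt_of_sq_le
        rw [sq_abs]
        linarith
      calc |z 0| = |(z 0 - a) + a| := by ring_nf
        _ ≤ |z 0 - a| + |a| := abs_add_le _ _
        _ ≤ _ := by linarith
  · rintro ⟨h1, h2⟩
    have h0 : 0 ≤ ρ ^ 2 - (z 1) ^ 2 := by
      have := sq_le_sq' (abs_le.mp h1).1 (abs_le.mp h1).2
      linarith
    have hs := Real.sq_sqrt h0
    have hs0 := Real.sqrt_nonneg (ρ ^ 2 - (z 1) ^ 2)
    rcases le_total |z 0| (π / 4) with h | h
    · refine ⟨z 0, h, ?_⟩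
      have : (z 0 - z 0) ^ 2 = 0 := by ring
      linarith
    · rcases le_total 0 (z 0) with hz | hz
      · rw [abs_of_nonneg hz] at h h2
        refine ⟨π / 4, by rw [abs_of_pos (by positivity)], ?_⟩
        have h3 : 0 ≤ z 0 - π / 4 := by linarith
        have h4 : z 0 - π / 4 ≤ √(ρ ^ 2 - (z 1) ^ 2) := by linarith
        nlinarith
      · rw [abs_of_nonpos hz] at h h2
        refine ⟨-(π / 4), by rw [abs_neg, abs_of_pos (by positivity)], ?_⟩
        have h3 : 0 ≤ -(z 0) - π / 4 := by linarith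
        have h4 : -(z 0) - π / 4 ≤ √(ρ ^ 2 - (z 1) ^ 2) := by linarith
        nlinarith

lemma mem_C_iff' (z : E) : z ∈ C ↔ |z 1| ≤ 1 ∧ |z 0| ≤ π / 4 + √(1 - (z 1) ^ 2) := by
  have := mem_thick_iff' zero_le_one z
  rwa [one_pow] at this

lemma isCompact_C : IsCompact C := isCompact_core.cthickening

lemma convex_core : Convex ℝ core := by
  have : core = (AffineMap.lineMap (k := ℝ) (pt 0 0) (pt 1 0)) '' Icc (-(π / 4)) (π / 4) := by
    unfold core
    apply image_congr
    intro a _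
    ext i
    fin_cases i <;> simp [AffineMap.lineMap_apply, pt]
  rw [this]
  exact (convex_Icc _ _).affine_image _

lemma convex_C : Convex ℝ C := convex_core.cthickening 1

lemma cthickening_C {ε : ℝ} (hε : 0 ≤ ε) : cthickening ε C = cthickening (ε + 1) core :=
  cthickening_cthickening hε zero_le_one core

/-- The Cheeger-type expansion property of the stadium. -/
lemma expand {F : Set E} (hF : MeasurableSet F) (hFC : F ⊆ C) {ε : ℝ} (hε : 0 ≤ ε) :
    ENNReal.ofReal (1 + 3 / 2 * ε) * volume F ≤ volume (cthickening ε F) := by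
  have hpi := pi_pos
  set A : Set (ℝ × ℝ) := co.symm ⁻¹' F with hA
  have hAm : MeasurableSet A := co.symm.measurable hF
  have hvolA : volume A = volume F := by
    have := co_mp.symm.measure_preimage hF.nullMeasurableSet
    exact this
  -- the pieces
  have hM := expand_of_det (hAm.inter measurableSet_RM) _ _ _ _
    (fun p hp => hasFDerivAt_TM ε hp.2.2) ((injOn_TM hε).mono inter_subset_right)
    (m := 1 + 3 / 2 * ε) (by
      rintro ⟨x, y⟩ ⟨_, h1, h2⟩
      simp only
      have hu := sqrt_le_one' y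
      have hu0 := Real.sqrt_nonneg (1 - y ^ 2)
      have hG := G'_pos y
      set u := √(1 - y ^ 2)
      have h3 : 0 ≤ 2 / π * u := by positivity
      nlinarith [mul_nonneg (mul_nonneg hε hε) (mul_nonneg h3 hG.le)])
  have hR := expand_of_det (hAm.inter measurableSet_RR) _ _ _ _
    (fun p hp => hasFDerivAt_TR ε hp.2.2.2) ((inj_TR hε).injOn)
    (m := 1 + 3 / 2 * ε) (by
      rintro ⟨x, y⟩ _
      simp only
      nlinarith [mul_nonneg hε hε])
  have hL := expand_of_det (hAm.inter measurableSet_RL) _ _ _ _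
    (fun p hp => hasFDerivAt_TL ε hp.2.2.2) ((inj_TL hε).injOn)
    (m := 1 + 3 / 2 * ε) (by
      rintro ⟨x, y⟩ _
      simp only
      nlinarith [mul_nonneg hε hε])
  have mM : MeasurableSet (TM ε '' (A ∩ RM)) := by
    apply (hAm.inter measurableSet_RM).image_of_continuousOn_injOn
    · intro p hp
      exact (hasFDerivAt_TM ε hp.2.2).continuousAt.continuousWithinAt
    · exact (injOn_TM hε).mono inter_subset_right
  have mR : MeasurableSet (TR ε '' (A ∩ RR)) := by
    apply (hAm.inter measurableSet_RR).image_of_continuousOn_injOn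
    · intro p hp
      exact (hasFDerivAt_TR ε hp.2.2.2).continuousAt.continuousWithinAt
    · exact (inj_TR hε).injOn
  have mL : MeasurableSet (TL ε '' (A ∩ RL)) := by
    apply (hAm.inter measurableSet_RL).image_of_continuousOn_injOn
    · intro p hp
      exact (hasFDerivAt_TL ε hp.2.2.2).continuousAt.continuousWithinAt
    · exact (inj_TL hε).injOn
  have dMR : Disjoint (TM ε '' (A ∩ RM)) (TR ε '' (A ∩ RR)) :=
    (disj_TM_TR hε).mono (image_mono inter_subset_right) (image_mono inter_subset_right)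
  have dML : Disjoint (TM ε '' (A ∩ RM)) (TL ε '' (A ∩ RL)) :=
    (disj_TM_TL hε).mono (image_mono inter_subset_right) (image_mono inter_subset_right)
  have dRL : Disjoint (TR ε '' (A ∩ RR)) (TL ε '' (A ∩ RL)) :=
    (disj_TR_TL hε).mono (image_mono inter_subset_right) (image_mono inter_subset_right)
  -- the pieces exhaust A up to a null set
  have hnull : volume ({p : ℝ × ℝ | p.2 = 1} ∪ {p | p.2 = -1} ∪ {p | p.1 = π / 4} ∪
      {p | p.1 = -(π / 4)}) = 0 := by
    have h2 : ∀ c : ℝ, volume {p : ℝ × ℝ | p.2 = c} = 0 := by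
      intro c
      have : {p : ℝ × ℝ | p.2 = c} = univ ×ˢ {c} := by ext; simp
      rw [this, Measure.volume_eq_prod, Measure.prod_prod]
      simp
    have h1 : ∀ c : ℝ, volume {p : ℝ × ℝ | p.1 = c} = 0 := by
      intro c
      have : {p : ℝ × ℝ | p.1 = c} = {c} ×ˢ univ := by ext; simp
      rw [this, Measure.volume_eq_prod, Measure.prod_prod]
      simp
    simp only [measure_union_null_iff, h1, h2, and_self]
  have hAsub : A ⊆ ((A ∩ RM) ∪ (A ∩ RR) ∪ (A ∩ RL)) ∪ ({p : ℝ × ℝ | p.2 = 1} ∪ {p | p.2 = -1} ∪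
      {p | p.1 = π / 4} ∪ {p | p.1 = -(π / 4)}) := by
    rintro ⟨x, y⟩ hp
    have hC := hFC hp
    rw [mem_C_iff', co_symm_apply] at hC
    simp only [pt_zero, pt_one] at hC
    obtain ⟨h1, h2⟩ := hC
    by_cases hy : |y| = 1
    · right
      rcases (abs_eq zero_le_one).mp hy with h | h <;> simp [h]
    have hy1 : |y| < 1 := lt_of_le_of_ne h1 hy
    rcases lt_trichotomy |x| (π / 4) with hx | hx | hx
    · left; left; left
      exact ⟨hp, hx, hy1⟩
    · right
      rcases (abs_eq (by positivity)).mp hx with h | h <;> simp [h]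
    · left
      rcases le_total 0 x with h0 | h0
      · left; right
        rw [abs_of_nonneg h0] at hx h2
        exact ⟨hp, hx, h2, hy1⟩
      · right
        rw [abs_of_nonpos h0] at hx h2
        refine ⟨hp, ?_, ?_, hy1⟩
        · change x < -(π / 4)
          linarith
        · change -(π / 4 + √(1 - y ^ 2)) ≤ x
          linarith
  have hvA : volume A ≤ volume (A ∩ RM) + volume (A ∩ RR) + volume (A ∩ RL) := by
    calc volume A ≤ volume (((A ∩ RM) ∪ (A ∩ RR) ∪ (A ∩ RL)) ∪ ({p : ℝ × ℝ | p.2 = 1} ∪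
          {p | p.2 = -1} ∪ {p | p.1 = π / 4} ∪ {p | p.1 = -(π / 4)})) := measure_mono hAsub
      _ ≤ volume ((A ∩ RM) ∪ (A ∩ RR) ∪ (A ∩ RL)) + 0 := by
          rw [← hnull]
          exact measure_union_le _ _
      _ ≤ volume ((A ∩ RM) ∪ (A ∩ RR)) + volume (A ∩ RL) := by
          rw [add_zero]
          exact measure_union_le _ _
      _ ≤ _ := by
          gcongr
          exact measure_union_le _ _
  have hsub : TM ε '' (A ∩ RM) ∪ TR ε '' (A ∩ RR) ∪ TL ε '' (A ∩ RL) ⊆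
      co.symm ⁻¹' (cthickening ε F) := by
    rintro q ((⟨⟨x, y⟩, ⟨hp, hx, hy⟩, rfl⟩ | ⟨⟨x, y⟩, ⟨hp, hx1, hx2, hy⟩, rfl⟩) |
      ⟨⟨x, y⟩, ⟨hp, hx1, hx2, hy⟩, rfl⟩)
    · have hp' : co.symm (x, y) ∈ F := hp
      apply mem_cthickening_of_dist_le _ _ _ F hp'
      rw [co_symm_apply, co_symm_apply, dist_le_iff2 _ _ hε]
      simp only [pt_zero, pt_one, TM]
      simp only at hx hy
      have hs := Real.sq_sqrt (show 0 ≤ 1 - y ^ 2 by nlinarith [abs_lt.mp hy, sq_abs y, abs_nonneg y])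
      have hG := G_sq_le hy.le
      have hx2 : (x * (2 / π)) ^ 2 ≤ 1 := by
        have h4 : |x * (2 / π)| ≤ 1 := by
          rw [abs_mul, abs_of_pos (show 0 < 2 / π by positivity)]
          calc |x| * (2 / π) ≤ π / 4 * (2 / π) := by gcongr
            _ = 1 / 2 := by field_simp; norm_num
            _ ≤ 1 := by norm_num
        rw [← sq_abs]
        exact pow_le_one₀ (abs_nonneg _) h4
      set u := √(1 - y ^ 2)
      have h5 : (x * (1 + ε * (2 / π * u)) - x) ^ 2 + (y + ε * G y - y) ^ 2 =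
        ε ^ 2 * ((x * (2 / π)) ^ 2 * u ^ 2 + G y ^ 2) := by ring
      rw [h5]
      have h6 : (x * (2 / π)) ^ 2 * u ^ 2 ≤ 1 * u ^ 2 := by gcongr
      have h7 : (x * (2 / π)) ^ 2 * u ^ 2 + G y ^ 2 ≤ 1 := by linarith
      have := mul_le_mul_of_nonneg_left h7 (sq_nonneg ε)
      linarith
    · have hp' : co.symm (x, y) ∈ F := hp
      apply mem_cthickening_of_dist_le _ _ _ F hp'
      rw [co_symm_apply, co_symm_apply, dist_le_iff2 _ _ hε]
      simp only [pt_zero, pt_one, TR]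
      simp only at hx1 hx2 hy
      have hs := Real.sq_sqrt (show 0 ≤ 1 - y ^ 2 by nlinarith [abs_lt.mp hy, sq_abs y, abs_nonneg y])
      have hu0 := Real.sqrt_nonneg (1 - y ^ 2)
      set u := √(1 - y ^ 2)
      have h5 : (x + ε * ((x - π / 4) / 2 + u / 2) - x) ^ 2 + (y + ε * y - y) ^ 2 =
        ε ^ 2 * (((x - π / 4) / 2 + u / 2) ^ 2 + y ^ 2) := by ring
      rw [h5]
      have h6 : ((x - π / 4) / 2 + u / 2) ^ 2 ≤ u ^ 2 := by
        apply pow_le_pow_left₀ <;> linarith
      have h7 : ((x - π / 4) / 2 + u / 2) ^ 2 + y ^ 2 ≤ 1 := by linarith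
      have := mul_le_mul_of_nonneg_left h7 (sq_nonneg ε)
      linarith
    · have hp' : co.symm (x, y) ∈ F := hp
      apply mem_cthickening_of_dist_le _ _ _ F hp'
      rw [co_symm_apply, co_symm_apply, dist_le_iff2 _ _ hε]
      simp only [pt_zero, pt_one, TL]
      simp only at hx1 hx2 hy
      have hs := Real.sq_sqrt (show 0 ≤ 1 - y ^ 2 by nlinarith [abs_lt.mp hy, sq_abs y, abs_nonneg y])
      have hu0 := Real.sqrt_nonneg (1 - y ^ 2)
      set u := √(1 - y ^ 2)
      have h5 : (x + ε * ((x + π / 4) / 2 - u / 2) - x) ^ 2 + (y + ε * y - y) ^ 2 =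
        ε ^ 2 * ((-(x + π / 4) / 2 + u / 2) ^ 2 + y ^ 2) := by ring
      rw [h5]
      have h6 : (-(x + π / 4) / 2 + u / 2) ^ 2 ≤ u ^ 2 := by
        apply pow_le_pow_left₀ <;> linarith
      have h7 : (-(x + π / 4) / 2 + u / 2) ^ 2 + y ^ 2 ≤ 1 := by linarith
      have := mul_le_mul_of_nonneg_left h7 (sq_nonneg ε)
      linarith
  have hcl : MeasurableSet (cthickening ε F) := isClosed_cthickening.measurableSet
  calc ENNReal.ofReal (1 + 3 / 2 * ε) * volume F
      = ENNReal.ofReal (1 + 3 / 2 * ε) * volume A := by rw [hvolA]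
    _ ≤ ENNReal.ofReal (1 + 3 / 2 * ε) * (volume (A ∩ RM) + volume (A ∩ RR) + volume (A ∩ RL)) := by
        gcongr
    _ = ENNReal.ofReal (1 + 3 / 2 * ε) * volume (A ∩ RM) +
        ENNReal.ofReal (1 + 3 / 2 * ε) * volume (A ∩ RR) +
        ENNReal.ofReal (1 + 3 / 2 * ε) * volume (A ∩ RL) := by ring
    _ ≤ volume (TM ε '' (A ∩ RM)) + volume (TR ε '' (A ∩ RR)) + volume (TL ε '' (A ∩ RL)) := by
        gcongr
    _ = volume (TM ε '' (A ∩ RM) ∪ TR ε '' (A ∩ RR) ∪ TL ε '' (A ∩ RL)) := by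
        rw [measure_union (dML.union_left dRL) mL, measure_union dMR mR]
    _ ≤ volume (co.symm ⁻¹' (cthickening ε F)) := measure_mono hsub
    _ = volume (cthickening ε F) := co_mp.symm.measure_preimage hcl.nullMeasurableSet

end Pool.Agent.H55.Stadium
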