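import Pool.Agent.H55.StadiumC
set_option autoImplicit false
open MeasureTheory Metric Set Real

namespace Pool.Agent.H55.Stadium

lemma integral_sqrt_scaled {ρ : ℝ} (hρ : 0 < ρ) :
    ∫ y in (-ρ)..ρ, √(ρ ^ 2 - y ^ 2) = π / 2 * ρ ^ 2 := by
  have h1 := intervalIntegral.integral_comp_mul_left (a := -1) (b := 1)
    (fun y : ℝ => √(ρ ^ 2 - y ^ 2)) hρ.ne'
  have h2 : (fun t : ℝ => √(ρ ^ 2 - (ρ * t) ^ 2)) = fun t : ℝ => ρ * √(1 - t ^ 2) := by
    funext t
    have : ρ ^ 2 - (ρ * t) ^ 2 = ρ ^ 2 * (1 - t ^ 2) := by ring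
    rw [this, Real.sqrt_mul (sq_nonneg ρ), Real.sqrt_sq hρ.le]
  simp only [h2] at h1
  rw [intervalIntegral.integral_const_mul, integral_sqrt_one_sub_sq] at h1
  rw [mul_neg, mul_one] at h1
  rw [smul_eq_mul] at h1
  field_simp at h1
  linarith

lemma volume_thick {ρ : ℝ} (hρ : 0 < ρ) :
    volume (cthickening ρ core) = ENNReal.ofReal (π * ρ + π * ρ ^ 2) := by
  have hcl : MeasurableSet (cthickening ρ core) := isClosed_cthickening.measurableSet
  rw [← co_mp.symm.measure_preimage hcl.nullMeasurableSet]
  set A : Set (ℝ × ℝ) := co.symm ⁻¹' (cthickening ρ core) with hA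
  have hAm : MeasurableSet A := co.symm.measurable hcl
  have hmem : ∀ x y : ℝ, (x, y) ∈ A ↔ |y| ≤ ρ ∧ |x| ≤ π / 4 + √(ρ ^ 2 - y ^ 2) := by
    intro x y
    rw [hA, mem_preimage, co_symm_apply, mem_thick_iff' hρ.le]
    simp
  rw [Measure.volume_eq_prod, Measure.prod_apply_symm hAm]
  have h1 : ∀ y : ℝ, volume ((fun x => (x, y)) ⁻¹' A) =
      (Icc (-ρ) ρ).indicator (fun y => ENNReal.ofReal (2 * (π / 4 + √(ρ ^ 2 - y ^ 2)))) y := by
    intro y
    by_cases hy : |y| ≤ ρ
    · rw [indicator_of_mem (show y ∈ Icc (-ρ) ρ from abs_le.mp hy)]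
      have : (fun x => (x, y)) ⁻¹' A = Icc (-(π / 4 + √(ρ ^ 2 - y ^ 2))) (π / 4 + √(ρ ^ 2 - y ^ 2)) := by
        ext x
        rw [mem_preimage, hmem, mem_Icc, ← abs_le]
        simp [hy]
      rw [this, Real.volume_Icc]
      congr 1
      ring
    · rw [indicator_of_notMem (show y ∉ Icc (-ρ) ρ from fun h => hy (abs_le.mpr h))]
      have : (fun x => (x, y)) ⁻¹' A = ∅ := by
        ext x
        rw [mem_preimage, hmem]
        simp [hy]
      rw [this, measure_empty]
  simp_rw [h1]
  rw [lintegral_indicator measurableSet_Icc]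
  have hint : Continuous (fun y : ℝ => 2 * (π / 4 + √(ρ ^ 2 - y ^ 2))) := by fun_prop
  rw [← ofReal_integral_eq_lintegral_ofReal (hint.continuousOn.integrableOn_Icc)
    (Filter.Eventually.of_forall fun y => by positivity)]
  congr 1
  rw [integral_Icc_eq_integral_Ioc, ← intervalIntegral.integral_of_le (by linarith),
    intervalIntegral.integral_const_mul, intervalIntegral.integral_add (by simp)
      ((by fun_prop : Continuous fun y : ℝ => √(ρ ^ 2 - y ^ 2)).intervalIntegrable _ _),
    integral_sqrt_scaled hρ]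
  simp
  ring

lemma volume_C : volume C = ENNReal.ofReal (2 * π) := by
  unfold C
  rw [volume_thick one_pos]
  congr 1
  ring

lemma volume_cthickening_C {ε : ℝ} (hε : 0 ≤ ε) :
    volume (cthickening ε C) = ENNReal.ofReal (2 * π * (1 + 3 / 2 * ε) + π * ε ^ 2) := by
  rw [cthickening_C hε, volume_thick (by linarith)]
  congr 1
  ring

lemma iso_mp (g : E ≃ᵢ E) : MeasurePreserving g volume volume := by
  have h1 : (g : E → E) = (fun z => z + g 0) ∘ g.toRealLinearIsometryEquiv := by
    funext z
    simp [IsometryEquiv.toRealLinearIsometryEquiv_apply]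
  rw [h1]
  exact (measurePreserving_add_right volume (g 0)).comp g.toRealLinearIsometryEquiv.measurePreserving

lemma volume_image_iso (g : E ≃ᵢ E) {F : Set E} (hF : MeasurableSet F) :
    volume (g '' F) = volume F := by
  have h1 : F = g ⁻¹' (g '' F) := (preimage_image_eq F g.injective).symm
  have h2 : MeasurableSet (g '' F) := by
    have : g '' F = g.symm ⁻¹' F := by
      ext z
      constructor
      · rintro ⟨x, hx, rfl⟩
        simpa using hx
      · intro h
        exact ⟨g.symm z, h, g.apply_symm_apply z⟩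
    rw [this]
    exact g.symm.continuous.measurable hF
  conv_rhs => rw [h1]
  exact ((iso_mp g).measure_preimage h2.nullMeasurableSet).symm

lemma cthickening_image_iso (g : E ≃ᵢ E) (F : Set E) (ε : ℝ) :
    cthickening ε (g '' F) = g '' (cthickening ε F) := by
  ext z
  obtain ⟨w, rfl⟩ := g.surjective z
  rw [g.injective.mem_set_image, mem_cthickening_iff, mem_cthickening_iff, infEDist_image g.isometry]

lemma expand_iso (g : E ≃ᵢ E) {F : Set E} (hF : MeasurableSet F) (hFC : F ⊆ g '' C) {ε : ℝ}
    (hε : 0 ≤ ε) :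
    ENNReal.ofReal (1 + 3 / 2 * ε) * volume F ≤ volume (cthickening ε F) := by
  have hm : MeasurableSet (g ⁻¹' F) := g.continuous.measurable hF
  have h1 : g '' (g ⁻¹' F) = F := image_preimage_eq F g.surjective
  have h2 : g ⁻¹' F ⊆ C := by
    intro z hz
    obtain ⟨w, hw, hwz⟩ := hFC hz
    rwa [← g.injective hwz]
  have h3 := expand hm h2 hε
  rw [← volume_image_iso g hm, h1, ← volume_image_iso g isClosed_cthickening.measurableSet,
    ← cthickening_image_iso, h1] at h3
  exact h3

lemma isClosed_imC (g : E ≃ᵢ E) : IsClosed (g '' C) :=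
  (isCompact_C.image g.continuous).isClosed

lemma isCompact_imC (g : E ≃ᵢ E) : IsCompact (g '' C) :=
  (isCompact_C.image g.continuous)

/-- Volume of a thickened union of stadiums. -/
lemma volume_thick_union {ι : Type} (s : Finset ι) (f : ι → (E ≃ᵢ E)) {ε : ℝ} (hε : 0 ≤ ε) :
    volume (cthickening ε (⋃ i ∈ s, (f i) '' C)) ≤
      ENNReal.ofReal (1 + 3 / 2 * ε) * volume (⋃ i ∈ s, (f i) '' C) +
        s.card * ENNReal.ofReal (π * ε ^ 2) := by
  classical
  induction s using Finset.induction_on with
  | empty => simp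
  | insert a s ha ih =>
    rw [Finset.set_biUnion_insert, Finset.card_insert_of_notMem ha, cthickening_union]
    set K := (f a) '' C with hK
    set V := ⋃ i ∈ s, (f i) '' C with hV
    have hKc : IsCompact K := isCompact_imC _
    have hVc : IsCompact V := by
      rw [hV]
      exact s.isCompact_biUnion fun i _ => isCompact_imC _
    have hKm := hKc.isClosed.measurableSet
    have hVm := hVc.isClosed.measurableSet
    have e1 := measure_union_add_inter (μ := volume) (cthickening ε K)
      (isClosed_cthickening (E := V) (δ := ε)).measurableSet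
    have e2 := measure_union_add_inter (μ := volume) K hVm
    have e3 : ENNReal.ofReal (1 + 3 / 2 * ε) * volume (K ∩ V) ≤
        volume (cthickening ε K ∩ cthickening ε V) := by
      refine (expand_iso (f a) (hKm.inter hVm) inter_subset_left hε).trans (measure_mono ?_)
      exact subset_inter (cthickening_subset_of_subset ε inter_subset_left)
        (cthickening_subset_of_subset ε inter_subset_right)
    have e4 : volume (cthickening ε K) =
        ENNReal.ofReal (1 + 3 / 2 * ε) * volume K + ENNReal.ofReal (π * ε ^ 2) := by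
      rw [hK, cthickening_image_iso, volume_image_iso _ isClosed_cthickening.measurableSet,
        volume_image_iso _ isCompact_C.isClosed.measurableSet, volume_C, volume_cthickening_C hε,
        ← ENNReal.ofReal_mul (by positivity), ← ENNReal.ofReal_add (by positivity) (by positivity)]
      congr 1
      ring
    have hfin : ENNReal.ofReal (1 + 3 / 2 * ε) * volume (K ∩ V) ≠ ⊤ := by
      apply ENNReal.mul_ne_top ENNReal.ofReal_ne_top
      exact ((measure_mono inter_subset_left).trans_lt hKc.measure_lt_top).ne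
    rw [← ENNReal.add_le_add_iff_right hfin]
    calc volume (cthickening ε K ∪ cthickening ε V) + ENNReal.ofReal (1 + 3 / 2 * ε) * volume (K ∩ V)
        ≤ volume (cthickening ε K ∪ cthickening ε V) + volume (cthickening ε K ∩ cthickening ε V) := by
          gcongr
      _ = volume (cthickening ε K) + volume (cthickening ε V) := e1
      _ ≤ (ENNReal.ofReal (1 + 3 / 2 * ε) * volume K + ENNReal.ofReal (π * ε ^ 2)) +
          (ENNReal.ofReal (1 + 3 / 2 * ε) * volume V + s.card * ENNReal.ofReal (π * ε ^ 2)) := by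
          rw [e4]
          gcongr
      _ = ENNReal.ofReal (1 + 3 / 2 * ε) * (volume K + volume V) +
          (s.card + 1) * ENNReal.ofReal (π * ε ^ 2) := by ring
      _ = _ := by
          rw [← e2]
          push_cast
          ring

end Pool.Agent.H55.Stadium
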