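import Pool.Agent.H55.StadiumD
set_option autoImplicit false
open MeasureTheory Metric Set Real
open scoped RealInnerProductSpace

namespace Pool.Agent.H55.Stadium

structure Chart where
  T : Set ℝ
  P : ℝ → E
  N : ℝ → E
  compT : IsCompact T
  contP : Continuous P
  contN : Continuous N
  normN : ∀ s, ‖N s‖ = 1
  lip : ∀ S, S ⊆ T → μH[1] (P '' S) ≤ volume S
  meas : ∀ S, S ⊆ T → MeasurableSet S → ∀ ε : ℝ, 0 < ε →
    MeasurableSet ((fun p : ℝ × ℝ => P p.1 + p.2 • N p.1) '' (S ×ˢ Ioo 0 ε))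
  vol : ∀ S, S ⊆ T → MeasurableSet S → ∀ ε : ℝ, 0 < ε →
    ENNReal.ofReal ε * volume S ≤ volume ((fun p : ℝ × ℝ => P p.1 + p.2 • N p.1) '' (S ×ˢ Ioo 0 ε))

/-- If the open ball around `p + r ν` of radius `r` misses `u`, then `p` is the only possible
point within distance `t` of `p + t ν`. -/
lemma unique_near {p ν u : E} (hν : ‖ν‖ = 1) {r t : ℝ} (_ht : 0 ≤ t) (htr : t < r)
    (h1 : r ≤ dist u (p + r • ν)) (h2 : dist u (p + t • ν) ≤ t) : u = p := by
  have hrt : 0 < r - t := by linarith
  have e1 : u - (p + r • ν) = (u - (p + t • ν)) + (-((r - t) • ν)) := by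
    rw [sub_smul]; abel
  have n1 : ‖-((r - t) • ν)‖ = r - t := by
    rw [norm_neg, norm_smul, hν, mul_one, Real.norm_of_nonneg hrt.le]
  rw [dist_eq_norm] at h1 h2
  have h3 : ‖(u - (p + t • ν)) + (-((r - t) • ν))‖ ≤ ‖u - (p + t • ν)‖ + ‖-((r - t) • ν)‖ :=
    norm_add_le _ _
  rw [e1] at h1
  have h4 : ‖u - (p + t • ν)‖ = t := by linarith
  have h5 : ‖(u - (p + t • ν)) + (-((r - t) • ν))‖ = r := by linarith
  have h6 := norm_add_sq_real (u - (p + t • ν)) (-((r - t) • ν))
  rw [h5, h4, n1] at h6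
  have h7 : ⟪u - (p + t • ν), -((r - t) • ν)⟫ = ‖u - (p + t • ν)‖ * ‖-((r - t) • ν)‖ := by
    rw [h4, n1]
    nlinarith
  rw [inner_eq_norm_mul_iff_real, h4, n1] at h7
  have h8 : (r - t) • (u - p) = 0 := by
    have : (r - t) • (u - p) = (r - t) • (u - (p + t • ν)) - t • (-((r - t) • ν)) := by
      module
    rw [this, h7, sub_self]
  have h9 := (smul_eq_zero.mp h8).resolve_left hrt.ne'
  exact sub_eq_zero.mp h9

/-- parameters of a chart whose exterior ball of radius `r` is disjoint from `U` -/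
def Chart.good (c : Chart) (U : Set E) (r : ℝ) : Set ℝ :=
  {s | s ∈ c.T ∧ ∀ u ∈ U, r ≤ dist u (c.P s + r • c.N s)}

lemma Chart.isCompact_good (c : Chart) (U : Set E) (r : ℝ) : IsCompact (c.good U r) := by
  have h1 : c.good U r = c.T ∩ ⋂ u ∈ U, {s | r ≤ dist u (c.P s + r • c.N s)} := by
    ext s
    simp [Chart.good]
  rw [h1]
  apply c.compT.inter_right
  apply isClosed_biInter
  intro u _
  apply isClosed_le continuous_const
  have := c.contP
  have := c.contN
  fun_prop

lemma frontier_bound {ι : Type} [Fintype ι] [LinearOrder ι] (ch : ι → Chart) {U : Set E}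
    (hPU : ∀ m, ∀ s ∈ (ch m).T, (ch m).P s ∈ U) {r ε : ℝ} (hε : 0 < ε) (hεr : ε ≤ r) :
    ENNReal.ofReal ε * μH[1] (⋃ m, (ch m).P '' (ch m).good U r) ≤ volume (cthickening ε U \ U) := by
  classical
  set S : ι → Set ℝ := fun m =>
    (ch m).good U r \ (ch m).P ⁻¹' (⋃ m' ∈ {m' : ι | m' < m}, (ch m').P '' (ch m').good U r) with hS
  have hST : ∀ m, S m ⊆ (ch m).T := fun m s hs => hs.1.1
  have hSm : ∀ m, MeasurableSet (S m) := by
    intro m
    apply ((ch m).isCompact_good U r).isClosed.measurableSet.diff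
    apply (ch m).contP.measurable
    have : IsCompact (⋃ m' ∈ {m' : ι | m' < m}, (ch m').P '' (ch m').good U r) := by
      apply (Set.toFinite _).isCompact_biUnion
      intro i _
      exact ((ch i).isCompact_good U r).image (ch i).contP
    exact this.isClosed.measurableSet
  have hcover : (⋃ m, (ch m).P '' (ch m).good U r) ⊆ ⋃ m, (ch m).P '' S m := by
    intro x hx
    have hne : (Finset.univ.filter fun m : ι => x ∈ (ch m).P '' (ch m).good U r).Nonempty := by
      obtain ⟨m, hm⟩ := mem_iUnion.mp hx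
      exact ⟨m, by simpa using hm⟩
    set m₀ := (Finset.univ.filter fun m : ι => x ∈ (ch m).P '' (ch m).good U r).min' hne with hm₀
    have h1 : x ∈ (ch m₀).P '' (ch m₀).good U r := by
      have := Finset.min'_mem _ hne
      rw [Finset.mem_filter] at this
      exact this.2
    obtain ⟨s, hs, hsx⟩ := h1
    refine mem_iUnion.mpr ⟨m₀, s, ⟨hs, ?_⟩, hsx⟩
    rw [mem_preimage, mem_iUnion₂]
    rintro ⟨m', hm', hx'⟩
    rw [hsx] at hx'
    have : m₀ ≤ m' := Finset.min'_le _ _ (by simpa using hx')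
    exact absurd hm' (not_lt.mpr this)
  set W : ι → Set E := fun m =>
    (fun p : ℝ × ℝ => (ch m).P p.1 + p.2 • (ch m).N p.1) '' (S m ×ˢ Ioo 0 ε) with hW
  have hWm : ∀ m, MeasurableSet (W m) := fun m => (ch m).meas _ (hST m) (hSm m) ε hε
  have hWsub : (⋃ m, W m) ⊆ cthickening ε U \ U := by
    intro z hz
    obtain ⟨m, ⟨s, t⟩, ⟨hs, ht⟩, rfl⟩ := mem_iUnion.mp hz
    simp only at hs ht
    have hP : (ch m).P s ∈ U := hPU m s (hST m hs)
    constructor
    · apply mem_cthickening_of_dist_le _ _ _ _ hP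
      simp only [dist_eq_norm, add_sub_cancel_left, norm_smul, (ch m).normN, mul_one]
      rw [Real.norm_of_nonneg ht.1.le]
      exact ht.2.le
    · intro hzU
      have := unique_near ((ch m).normN s) ht.1.le (ht.2.trans_le hεr) (hs.1.2 _ hzU)
        (by simp [ht.1.le])
      have h0 : t • (ch m).N s = 0 := by simpa using this
      rcases smul_eq_zero.mp h0 with h | h
      · exact ht.1.ne' h
      · have := (ch m).normN s
        rw [h, norm_zero] at this
        norm_num at this
  have hWdisj : Pairwise (Function.onFun Disjoint W) := by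
    -- key: points have a unique foot point
    have key : ∀ m m' s t s' t', s ∈ S m → t ∈ Ioo 0 ε → s' ∈ S m' → t' ∈ Ioo 0 ε → t' ≤ t →
        (ch m).P s + t • (ch m).N s = (ch m').P s' + t' • (ch m').N s' →
        (ch m').P s' = (ch m).P s := by
      intro m m' s t s' t' hs ht hs' ht' htt heq
      apply unique_near ((ch m).normN s) ht.1.le (ht.2.trans_le hεr)
        (hs.1.2 _ (hPU m' s' (hST m' hs')))
      rw [heq, dist_eq_norm]
      simp only [sub_add_cancel_left, norm_neg, norm_smul, (ch m').normN, mul_one]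
      rw [Real.norm_of_nonneg ht'.1.le]
      exact htt
    have key2 : ∀ m m', m' < m → Disjoint (W m) (W m') := by
      intro m m' hlt
      rw [Set.disjoint_left]
      rintro _ ⟨⟨s, t⟩, ⟨hs, ht⟩, rfl⟩ ⟨⟨s', t'⟩, ⟨hs', ht'⟩, heq⟩
      simp only at hs ht hs' ht' heq
      have hPP : (ch m').P s' = (ch m).P s := by
        rcases le_total t' t with h | h
        · exact key m m' s t s' t' hs ht hs' ht' h heq.symm
        · exact (key m' m s' t' s t hs' ht' hs ht h heq).symm
      apply hs.2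
      rw [mem_preimage, mem_iUnion₂]
      exact ⟨m', hlt, s', hs'.1, hPP⟩
    intro m m' hne
    rcases lt_or_gt_of_ne hne with h | h
    · exact (key2 m' m h).symm
    · exact key2 m m' h
  calc ENNReal.ofReal ε * μH[1] (⋃ m, (ch m).P '' (ch m).good U r)
      ≤ ENNReal.ofReal ε * μH[1] (⋃ m, (ch m).P '' S m) := by
        gcongr
    _ ≤ ENNReal.ofReal ε * ∑ m, μH[1] ((ch m).P '' S m) := by
        gcongr
        exact measure_iUnion_fintype_le _ _
    _ ≤ ENNReal.ofReal ε * ∑ m, volume (S m) := by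
        gcongr with m
        exact (ch m).lip _ (hST m)
    _ = ∑ m, ENNReal.ofReal ε * volume (S m) := Finset.mul_sum _ _ _
    _ ≤ ∑ m, volume (W m) := by
        gcongr with m
        exact (ch m).vol _ (hST m) (hSm m) ε hε
    _ = volume (⋃ m, W m) := by
        rw [measure_iUnion hWdisj hWm, tsum_fintype]
    _ ≤ volume (cthickening ε U \ U) := measure_mono hWsub

end Pool.Agent.H55.Stadium
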