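import Pool.Agent.H55.StadiumE
set_option autoImplicit false
open MeasureTheory Metric Set Real
open scoped RealInnerProductSpace

namespace Pool.Agent.H55.Stadium

lemma iso_affine (g : E ≃ᵢ E) (p v : E) (t : ℝ) :
    g (p + t • v) = g p + t • g.toRealLinearIsometryEquiv v := by
  have h1 : ∀ z, g z = g.toRealLinearIsometryEquiv z + g 0 := by
    intro z
    simp [IsometryEquiv.toRealLinearIsometryEquiv_apply]
  rw [h1 (p + t • v), h1 p, map_add, map_smul]
  abel

/-- Image of a chart under an isometry. -/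
noncomputable def Chart.map (c : Chart) (g : E ≃ᵢ E) : Chart where
  T := c.T
  P := fun s => g (c.P s)
  N := fun s => g.toRealLinearIsometryEquiv (c.N s)
  compT := c.compT
  contP := g.continuous.comp c.contP
  contN := g.toRealLinearIsometryEquiv.continuous.comp c.contN
  normN := fun s => by rw [LinearIsometryEquiv.norm_map, c.normN]
  lip := by
    intro S hS
    have : (fun s => g (c.P s)) '' S = g '' (c.P '' S) := by
      rw [image_image]
    rw [this, IsometryEquiv.hausdorffMeasure_image]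
    exact c.lip S hS
  meas := by
    intro S hS hm ε hε
    have : (fun p : ℝ × ℝ => g (c.P p.1) + p.2 • g.toRealLinearIsometryEquiv (c.N p.1)) ''
        (S ×ˢ Ioo 0 ε) = g '' ((fun p : ℝ × ℝ => c.P p.1 + p.2 • c.N p.1) '' (S ×ˢ Ioo 0 ε)) := by
      rw [image_image]
      simp_rw [iso_affine]
    rw [this]
    exact g.toHomeomorph.measurableEmbedding.measurableSet_image.mpr (c.meas S hS hm ε hε)
  vol := by
    intro S hS hm ε hε
    have : (fun p : ℝ × ℝ => g (c.P p.1) + p.2 • g.toRealLinearIsometryEquiv (c.N p.1)) ''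
        (S ×ˢ Ioo 0 ε) = g '' ((fun p : ℝ × ℝ => c.P p.1 + p.2 • c.N p.1) '' (S ×ˢ Ioo 0 ε)) := by
      rw [image_image]
      simp_rw [iso_affine]
    rw [this, volume_image_iso g (c.meas S hS hm ε hε)]
    exact c.vol S hS hm ε hε

lemma norm_pt (a b : ℝ) : ‖pt a b‖ = √(a ^ 2 + b ^ 2) := by
  have := dist_eq2 (pt a b) 0
  simpa [dist_zero_right] using this

lemma pt_add (a b a' b' : ℝ) : pt a b + pt a' b' = pt (a + a') (b + b') := by
  ext i; fin_cases i <;> simp [pt]

lemma smul_pt (t a b : ℝ) : t • pt a b = pt (t * a) (t * b) := by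
  ext i; fin_cases i <;> simp [pt]

lemma continuous_pt_comp {a b : ℝ → ℝ} (ha : Continuous a) (hb : Continuous b) :
    Continuous fun s => pt (a s) (b s) :=
  continuous_pt.comp (ha.prodMk hb)

/-- The flat chart. -/
noncomputable def flat : Chart where
  T := Icc (-(π / 4)) (π / 4)
  P := fun s => pt s 1
  N := fun _ => pt 0 1
  compT := isCompact_Icc
  contP := continuous_pt_comp continuous_id continuous_const
  contN := continuous_const
  normN := fun s => by rw [norm_pt]; simp
  lip := by
    intro S _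
    have h1 : LipschitzWith 1 (fun s : ℝ => pt s 1) := by
      apply LipschitzWith.of_dist_le_mul
      intro x y
      rw [dist_eq2]
      simp [Real.sqrt_sq_eq_abs, Real.dist_eq]
    have := h1.hausdorffMeasure_image_le (d := 1) zero_le_one S
    simpa [hausdorffMeasure_real] using this
  meas := by
    intro S _ hm ε _
    have : (fun p : ℝ × ℝ => pt p.1 1 + p.2 • pt 0 1) '' (S ×ˢ Ioo 0 ε) =
        co.symm '' ((fun p : ℝ × ℝ => (p.1, p.2 + 1)) '' (S ×ˢ Ioo 0 ε)) := by
      rw [image_image]
      apply image_congr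
      intro p _
      rw [co_symm_apply, smul_pt, pt_add]
      simp [add_comm]
    rw [this, co.symm.measurableEmbedding.measurableSet_image]
    apply (hm.prod measurableSet_Ioo).image_of_continuousOn_injOn (by fun_prop)
    rintro ⟨a, b⟩ _ ⟨a', b'⟩ _ h
    simp only [Prod.mk.injEq, add_left_inj] at h
    rw [h.1, h.2]
  vol := by
    intro S _ hm ε hε
    have : (fun p : ℝ × ℝ => pt p.1 1 + p.2 • pt 0 1) '' (S ×ˢ Ioo 0 ε) =
        co ⁻¹' (S ×ˢ Ioo 1 (1 + ε)) := by
      ext z
      simp only [mem_image, mem_prod, mem_Ioo, mem_preimage, co_apply, Prod.exists]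
      constructor
      · rintro ⟨s, t, ⟨hs, ht1, ht2⟩, rfl⟩
        rw [smul_pt, pt_add]
        simp only [pt_zero, pt_one, mul_zero, add_zero, mul_one]
        exact ⟨hs, by linarith, by linarith⟩
      · rintro ⟨hs, h1, h2⟩
        refine ⟨z 0, z 1 - 1, ⟨hs, by linarith, by linarith⟩, ?_⟩
        rw [smul_pt, pt_add]
        simp only [mul_zero, add_zero, mul_one, add_sub_cancel, pt_eta]
    rw [this, co_mp.measure_preimage (hm.prod measurableSet_Ioo).nullMeasurableSet,
      Measure.volume_eq_prod, Measure.prod_prod, Real.volume_Ioo, mul_comm]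
    simp

lemma arc_dist (x y : ℝ) : dist (pt (π / 4 + cos x) (sin x)) (pt (π / 4 + cos y) (sin y)) ≤ |x - y| := by
  rw [dist_le_iff2 _ _ (abs_nonneg _), sq_abs]
  simp only [pt_zero, pt_one]
  have h1 := Real.one_sub_sq_div_two_le_cos (x := x - y)
  rw [Real.cos_sub] at h1
  nlinarith [Real.sin_sq_add_cos_sq x, Real.sin_sq_add_cos_sq y]

lemma arc_image (S : Set ℝ) (ε : ℝ) :
    (fun p : ℝ × ℝ => pt (π / 4 + cos p.1) (sin p.1) + p.2 • pt (cos p.1) (sin p.1)) ''
      (S ×ˢ Ioo 0 ε) = (fun z => z + pt (π / 4) 0) '' (co.symm '' (polarCoord.symm ''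
      (Ioo 1 (1 + ε) ×ˢ S))) := by
  ext z
  constructor
  · rintro ⟨⟨s, t⟩, ⟨hs, ht⟩, rfl⟩
    simp only [mem_Ioo] at hs ht
    refine ⟨_, ⟨_, ⟨(1 + t, s), ⟨⟨?_, ?_⟩, hs⟩, rfl⟩, rfl⟩, ?_⟩
    · change 1 < 1 + t
      linarith [ht.1]
    · change 1 + t < 1 + ε
      linarith [ht.2]
    simp only
    rw [co_symm_apply, polarCoord_symm_apply, pt_add, smul_pt, pt_add]
    congr 1 <;> ring
  · rintro ⟨_, ⟨_, ⟨⟨r, s⟩, ⟨h1, hs⟩, rfl⟩, rfl⟩, rfl⟩
    simp only [mem_Ioo] at h1 hs
    refine ⟨(s, r - 1), ⟨hs, ?_, ?_⟩, ?_⟩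
    · change 0 < r - 1
      linarith [h1.1]
    · change r - 1 < ε
      linarith [h1.2]
    simp only
    rw [co_symm_apply, polarCoord_symm_apply, pt_add, smul_pt, pt_add]
    congr 1 <;> ring

lemma polar_meas {S : Set ℝ} (hS : S ⊆ Icc (-(π / 2)) (π / 2)) (hm : MeasurableSet S) (ε : ℝ) :
    MeasurableSet (polarCoord.symm '' (Ioo 1 (1 + ε) ×ˢ S)) := by
  apply (measurableSet_Ioo.prod hm).image_of_continuousOn_injOn
    continuous_polarCoord_symm.continuousOn
  apply polarCoord.symm.injOn.mono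
  rintro ⟨r, s⟩ ⟨h1, h2⟩
  have hpi := pi_pos
  have h3 := hS h2
  simp only [mem_Ioo, mem_Icc] at h1 h3
  refine ⟨?_, ?_, ?_⟩
  · change 0 < r
    linarith [h1.1]
  · change -π < s
    linarith [h3.1]
  · change s < π
    linarith [h3.2]

/-- The arc chart. -/
noncomputable def arc : Chart where
  T := Icc (-(π / 2)) (π / 2)
  P := fun s => pt (π / 4 + cos s) (sin s)
  N := fun s => pt (cos s) (sin s)
  compT := isCompact_Icc
  contP := continuous_pt_comp (by fun_prop) (by fun_prop)
  contN := continuous_pt_comp (by fun_prop) (by fun_prop)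
  normN := fun s => by rw [norm_pt, Real.cos_sq_add_sin_sq, Real.sqrt_one]
  lip := by
    intro S _
    have h1 : LipschitzWith 1 (fun s : ℝ => pt (π / 4 + cos s) (sin s)) := by
      apply LipschitzWith.of_dist_le_mul
      intro x y
      rw [NNReal.coe_one, one_mul, Real.dist_eq]
      exact arc_dist x y
    have := h1.hausdorffMeasure_image_le (d := 1) zero_le_one S
    simpa [hausdorffMeasure_real] using this
  meas := by
    intro S hS hm ε _
    rw [arc_image]
    have h1 := polar_meas hS hm ε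
    have h2 := co.symm.measurableEmbedding.measurableSet_image.mpr h1
    have h3 := (Homeomorph.addRight (pt (π / 4) 0)).measurableEmbedding.measurableSet_image.mpr h2
    exact h3
  vol := by
    intro S hS hm ε hε
    rw [arc_image]
    have h1 := polar_meas hS hm ε
    have h2 := co.symm.measurableEmbedding.measurableSet_image.mpr h1
    have h3 : volume ((fun z => z + pt (π / 4) 0) '' (co.symm '' (polarCoord.symm ''
      (Ioo 1 (1 + ε) ×ˢ S)))) = volume (polarCoord.symm '' (Ioo 1 (1 + ε) ×ˢ S)) := by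
      have e1 := volume_image_iso (IsometryEquiv.addRight (pt (π / 4) 0)) h2
      have e2 : (fun z => z + pt (π / 4) 0) = ⇑(IsometryEquiv.addRight (pt (π / 4) 0)) := rfl
      rw [e2, e1]
      have e3 := co_mp.measure_preimage h1.nullMeasurableSet
      have e4 : co ⁻¹' (polarCoord.symm '' (Ioo 1 (1 + ε) ×ˢ S)) =
          co.symm '' (polarCoord.symm '' (Ioo 1 (1 + ε) ×ˢ S)) := by
        rw [MeasurableEquiv.image_symm]
      rw [← e4, e3]
    rw [h3]
    set Z := polarCoord.symm '' (Ioo 1 (1 + ε) ×ˢ S) with hZ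
    have h5 := lintegral_comp_polarCoord_symm (Z.indicator 1)
    rw [lintegral_indicator_one h1] at h5
    rw [← h5]
    have hsub : Ioo 1 (1 + ε) ×ˢ S ⊆ polarCoord.target := by
      rintro ⟨r, s⟩ ⟨h1, h2⟩
      have hpi := pi_pos
      have h3 := hS h2
      simp only [mem_Ioo, mem_Icc] at h1 h3
      refine ⟨?_, ?_, ?_⟩
      · change 0 < r
        linarith [h1.1]
      · change -π < s
        linarith [h3.1]
      · change s < π
        linarith [h3.2]
    calc ENNReal.ofReal ε * volume S = ∫⁻ _ in Ioo 1 (1 + ε) ×ˢ S, (1 : ENNReal) := by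
          rw [setLIntegral_one, Measure.volume_eq_prod, Measure.prod_prod, Real.volume_Ioo]
          simp
      _ ≤ ∫⁻ p in Ioo 1 (1 + ε) ×ˢ S, ENNReal.ofReal p.1 • Z.indicator 1 (polarCoord.symm p) := by
          apply setLIntegral_mono' (measurableSet_Ioo.prod hm)
          intro p hp
          rw [indicator_of_mem (mem_image_of_mem _ hp)]
          simp only [Pi.one_apply, smul_eq_mul, mul_one]
          rw [← ENNReal.ofReal_one]
          exact ENNReal.ofReal_le_ofReal hp.1.1.le
      _ ≤ _ := lintegral_mono_set hsub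

end Pool.Agent.H55.Stadium
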