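import Pool.Agent.H55.StadiumF
set_option autoImplicit false
open MeasureTheory Metric Set Real
open scoped RealInnerProductSpace

namespace Pool.Agent.H55.Stadium

lemma inner_eq2 (z w : E) : ⟪z, w⟫ = z 0 * w 0 + z 1 * w 1 := by
  rw [PiLp.inner_apply, Fin.sum_univ_two]
  simp [mul_comm]

lemma norm_sq_eq2 (z : E) : ‖z‖ ^ 2 = z 0 ^ 2 + z 1 ^ 2 := by
  rw [← real_inner_self_eq_norm_sq, inner_eq2]
  ring

/-- `ν` is an outer unit normal of `K` at `p` and `K` contains the unit disc touching at `p`. -/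
structure RegPt (K : Set E) (p ν : E) : Prop where
  norm : ‖ν‖ = 1
  supp : ∀ z ∈ K, ⟪z - p, ν⟫ ≤ 0
  ball : closedBall (p - ν) 1 ⊆ K

lemma RegPt.mem {K : Set E} {p ν : E} (h : RegPt K p ν) : p ∈ K := by
  apply h.ball
  rw [mem_closedBall, dist_eq_norm]
  simp [h.norm]

/-- A regular boundary point is not in the open disc of another regular point -/
lemma RegPt.lower {K : Set E} {p ν q μ : E} (h : RegPt K p ν) (h' : RegPt K q μ) :
    -(‖q - p‖ ^ 2 / 2) ≤ ⟪q - p, ν⟫ := by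
  by_contra hcon
  push Not at hcon
  -- then q is in the open ball around p - ν
  have h1 : ‖q - (p - ν)‖ ^ 2 < 1 := by
    have : q - (p - ν) = (q - p) + ν := by abel
    rw [this, norm_add_sq_real, h.norm]
    linarith
  have h2 : ‖q - (p - ν)‖ < 1 := by
    exact (sq_lt_one_iff₀ (norm_nonneg _)).mp h1
  set t := 1 - ‖q - (p - ν)‖ with ht
  have ht0 : 0 < t := by linarith
  have h3 : q + t • μ ∈ K := by
    apply h.ball
    rw [mem_closedBall, dist_eq_norm]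
    have : q + t • μ - (p - ν) = (q - (p - ν)) + t • μ := by abel
    rw [this]
    calc ‖(q - (p - ν)) + t • μ‖ ≤ ‖q - (p - ν)‖ + ‖t • μ‖ := norm_add_le _ _
      _ = 1 := by rw [norm_smul, h'.norm, mul_one, Real.norm_of_nonneg ht0.le]; linarith
  have h4 := h'.supp _ h3
  rw [add_sub_cancel_left, inner_smul_left, real_inner_self_eq_norm_sq, h'.norm] at h4
  simp at h4
  linarith

lemma countable_of_isolated {A : Set E}
    (h : ∀ p ∈ A, ∃ δ > 0, ∀ q ∈ A, dist q p < δ → q = p) : A.Countable := by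
  have : DiscreteTopology A := by
    rw [discreteTopology_iff_isOpen_singleton]
    rintro ⟨p, hp⟩
    obtain ⟨δ, hδ, hq⟩ := h p hp
    rw [Metric.isOpen_iff]
    rintro ⟨q, hqA⟩ hqp
    rw [mem_singleton_iff] at hqp
    refine ⟨δ, hδ, ?_⟩
    rintro ⟨x, hx⟩ hxd
    rw [hqp, mem_ball, Subtype.dist_eq] at hxd
    rw [mem_singleton_iff, Subtype.mk.injEq]
    exact hq x hx hxd
  have : Countable A := countable_of_Lindelof_of_discrete
  exact Set.to_countable A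

/-- Transversal common boundary points are countable. -/
lemma countable_transversal (K K' : Set E) :
    {p : E | ∃ ν ν', RegPt K p ν ∧ RegPt K' p ν' ∧ ν ≠ ν' ∧ ν ≠ -ν'}.Countable := by
  apply countable_of_isolated
  rintro p ⟨ν, ν', h, h', hne, hne'⟩
  set b := ν 0 * ν' 1 - ν 1 * ν' 0 with hb
  have hν := norm_sq_eq2 ν
  have hν' := norm_sq_eq2 ν'
  rw [h.norm, one_pow] at hν
  rw [h'.norm, one_pow] at hν'
  set a := ν 0 * ν' 0 + ν 1 * ν' 1 with ha
  have hab : a ^ 2 + b ^ 2 = 1 := by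
    rw [ha, hb]
    have : (ν 0 * ν' 0 + ν 1 * ν' 1) ^ 2 + (ν 0 * ν' 1 - ν 1 * ν' 0) ^ 2 =
      (ν 0 ^ 2 + ν 1 ^ 2) * (ν' 0 ^ 2 + ν' 1 ^ 2) := by ring
    rw [this, ← hν, ← hν', one_mul]
  have e0 : ν' 0 = a * ν 0 - b * ν 1 := by
    rw [ha, hb]
    linear_combination (ν' 0) * hν
  have e1 : ν' 1 = a * ν 1 + b * ν 0 := by
    rw [ha, hb]
    linear_combination (ν' 1) * hν
  have hb0 : b ≠ 0 := by
    intro hb0
    rw [hb0] at hab e0 e1
    have : a ^ 2 = 1 := by linarith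
    have hor : a = 1 ∨ a = -1 := by
      have : (a - 1) * (a + 1) = 0 := by linear_combination this
      rcases mul_eq_zero.mp this with h1 | h1
      · left; linarith
      · right; linarith
    rcases hor with h1 | h1
    · apply hne
      ext i
      fin_cases i
      · change ν 0 = ν' 0
        rw [e0, h1]; ring
      · change ν 1 = ν' 1
        rw [e1, h1]; ring
    · apply hne'
      ext i
      fin_cases i
      · change ν 0 = - ν' 0
        rw [e0, h1]; ring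
      · change ν 1 = - ν' 1
        rw [e1, h1]; ring
  have hb2 : 0 < b ^ 2 := by positivity
  refine ⟨|b| / 2, by positivity, ?_⟩
  rintro q ⟨μ, μ', g, g', -, -⟩ hd
  by_contra hqp
  set w := q - p with hw
  have hw0 : 0 < ‖w‖ ^ 2 := by
    have : w ≠ 0 := sub_ne_zero.mpr hqp
    positivity
  have i1 := h.lower g
  have i2 := h.supp q g.mem
  have i3 := h'.lower g'
  have i4 := h'.supp q g'.mem
  rw [← hw] at i1 i2 i3 i4
  rw [inner_eq2] at i1 i2 i3 i4
  rw [dist_eq_norm, ← hw] at hd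
  have hwn := norm_sq_eq2 w
  set D := ‖w‖ ^ 2 with hD
  have hdD : D < b ^ 2 / 4 := by
    have : ‖w‖ ^ 2 < (|b| / 2) ^ 2 := by
      apply pow_lt_pow_left₀ hd (norm_nonneg _) two_ne_zero
    rw [div_pow, sq_abs] at this
    linarith
  -- coordinates of w in the frame (ν, ν⊥)
  set X := w 0 * ν 0 + w 1 * ν 1 with hX
  set Y := -(w 0 * ν 1) + w 1 * ν 0 with hY
  have hXY : X ^ 2 + Y ^ 2 = D := by
    rw [hX, hY, hwn]
    have : (w 0 * ν 0 + w 1 * ν 1) ^ 2 + (-(w 0 * ν 1) + w 1 * ν 0) ^ 2 =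
      (w 0 ^ 2 + w 1 ^ 2) * (ν 0 ^ 2 + ν 1 ^ 2) := by ring
    rw [this, ← hν, mul_one]
  have hZ : w 0 * ν' 0 + w 1 * ν' 1 = a * X + b * Y := by
    rw [e0, e1, hX, hY]
    ring
  rw [hZ] at i3 i4
  have ha1 : a ^ 2 ≤ 1 := by linarith
  have hX2 : X ^ 2 ≤ (D / 2) ^ 2 := by
    apply sq_le_sq'
    · linarith
    · linarith
  have hZ2 : (a * X + b * Y) ^ 2 ≤ (D / 2) ^ 2 := by
    apply sq_le_sq'
    · linarith
    · linarith
  -- b^2 Y^2 ≤ 2 (Z^2 + a^2 X^2) ≤ D^2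
  have hbY : b ^ 2 * Y ^ 2 ≤ D ^ 2 := by
    have h1 : (b * Y) ^ 2 ≤ 2 * ((a * X + b * Y) ^ 2 + (a * X) ^ 2) := by
      have e := sq_nonneg (2 * (a * X) + b * Y)
      have e' : 2 * ((a * X + b * Y) ^ 2 + (a * X) ^ 2) - (b * Y) ^ 2 =
        (2 * (a * X) + b * Y) ^ 2 := by ring
      linarith
    have h2 : (a * X) ^ 2 ≤ (D / 2) ^ 2 := by
      rw [mul_pow]
      calc a ^ 2 * X ^ 2 ≤ 1 * (D / 2) ^ 2 := by gcongr
        _ = _ := one_mul _
    calc b ^ 2 * Y ^ 2 = (b * Y) ^ 2 := by ring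
      _ ≤ 2 * ((a * X + b * Y) ^ 2 + (a * X) ^ 2) := h1
      _ ≤ 2 * ((D / 2) ^ 2 + (D / 2) ^ 2) := by linarith
      _ = D ^ 2 := by ring
  have hb1 : b ^ 2 ≤ 1 := by linarith [sq_nonneg a]
  have : b ^ 2 * D ≤ (5 / 4) * D ^ 2 := by
    have h1 : b ^ 2 * X ^ 2 ≤ 1 * (D / 2) ^ 2 := by gcongr
    calc b ^ 2 * D = b ^ 2 * X ^ 2 + b ^ 2 * Y ^ 2 := by rw [← hXY]; ring
      _ ≤ 1 * (D / 2) ^ 2 + D ^ 2 := by linarith
      _ = _ := by ring
  have h5 : b ^ 2 ≤ 5 / 4 * D := by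
    have : b ^ 2 * D ≤ (5 / 4 * D) * D := by linarith
    exact le_of_mul_le_mul_right this hw0
  linarith

end Pool.Agent.H55.Stadium
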