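import Pool.Agent.H55.StadiumG
set_option autoImplicit false
open MeasureTheory Metric Set Real
open scoped RealInnerProductSpace

namespace Pool.Agent.H55.Stadium

/-- Two convex sets lying on both sides of a line, both containing a neighbourhood of `b` in the
line and points on the two sides: then `b` is interior to the union. -/
lemma sandwich {K K' : Set E} (hK : Convex ℝ K) (hK' : Convex ℝ K') {a b c ν : E} {κ : ℝ}
    (hν : ‖ν‖ = 1) (haK : a ∈ K) (haK' : a ∈ K') (hcK : c ∈ K) (hcK' : c ∈ K')
    (h1 : b - ν ∈ K) (h2 : b + ν ∈ K') (hperp : ⟪c - b, ν⟫ = 0) (hcb : c ≠ b) (hκ : 0 < κ)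
    (hab : a - b = -(κ • (c - b))) : b ∈ interior (K ∪ K') := by
  set τ := c - b with hτ
  have hτ0 : τ ≠ 0 := sub_ne_zero.mpr hcb
  set T := ‖τ‖ ^ 2 with hT
  have hT0 : 0 < T := by positivity
  set δ := min 1 κ / 2 with hδ
  have hδ0 : 0 < δ := by
    have : 0 < min 1 κ := lt_min one_pos hκ
    positivity
  set N : Set E := {z | |⟪z - b, τ⟫| < δ * T ∧ |⟪z - b, ν⟫| < 1 / 2} with hN
  have hNopen : IsOpen N := by
    have c1 : Continuous fun z : E => |⟪z - b, τ⟫| := by fun_prop
    have c2 : Continuous fun z : E => |⟪z - b, ν⟫| := by fun_prop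
    exact (isOpen_lt c1 continuous_const).inter (isOpen_lt c2 continuous_const)
  have hbN : b ∈ N := by
    constructor
    · simp only [sub_self, inner_zero_left, abs_zero]
      positivity
    · simp
  rw [mem_interior]
  refine ⟨N, ?_, hNopen, hbN⟩
  rintro z ⟨hz1, hz2⟩
  set x := ⟪z - b, τ⟫ / T with hx
  set y := ⟪z - b, ν⟫ with hy
  have hx1 : |x| < δ := by
    rw [hx, abs_div, abs_of_pos hT0, div_lt_iff₀ hT0]
    exact hz1
  -- decomposition
  have hdec : z = b + x • τ + y • ν := by
    have hνn := norm_sq_eq2 ν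
    rw [hν, one_pow] at hνn
    have hTn : T = τ 0 ^ 2 + τ 1 ^ 2 := norm_sq_eq2 τ
    rw [inner_eq2] at hperp
    set s := -(τ 0 * ν 1) + τ 1 * ν 0 with hs
    have t0 : τ 0 = -(s * ν 1) := by
      rw [hs]
      linear_combination (τ 0) * hνn + (ν 0) * hperp
    have t1 : τ 1 = s * ν 0 := by
      rw [hs]
      linear_combination (τ 1) * hνn + (ν 1) * hperp
    have hTs : T = s ^ 2 := by
      rw [hTn, t0, t1]
      linear_combination (-(s ^ 2)) * hνn
    have hs0 : s ≠ 0 := by
      intro h
      rw [hTs, h] at hT0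
      simp at hT0
    set w := z - b with hw
    have hxs : x * s = -(w 0 * ν 1) + w 1 * ν 0 := by
      rw [hx, inner_eq2, hTs, t0, t1]
      field_simp
    have hzw : z = b + w := by rw [hw]; abel
    rw [hzw, add_assoc]
    congr 1
    ext i
    fin_cases i
    · change w 0 = x * τ 0 + y * ν 0
      rw [t0, hy, inner_eq2]
      linear_combination (w 0) * hνn + (ν 1) * hxs
    · change w 1 = x * τ 1 + y * ν 1
      rw [t1, hy, inner_eq2]
      linear_combination (w 1) * hνn - (ν 0) * hxs
  have hc : c = b + τ := by rw [hτ]; abel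
  have ha : a = b - κ • τ := by
    have : a = b + (a - b) := by abel
    rw [this, hab]; abel
  have hδ1 : δ ≤ 1 / 2 := by
    rw [hδ]
    have := min_le_left 1 κ
    linarith
  have hδ2 : δ ≤ κ / 2 := by
    rw [hδ]
    have := min_le_right 1 κ
    linarith
  have hx2 := abs_lt.mp hx1
  have hy2 := abs_lt.mp hz2
  have hκ1 : 0 < 1 + κ := by linarith
  have main : ∀ (L : Set E), Convex ℝ L → a ∈ L → c ∈ L → ∀ (μ : E) (v : ℝ), 0 ≤ v → v < 1 / 2 →
      b + μ ∈ L → b + x • τ + v • μ ∈ L := by
    intro L hL haL hcL μ v hv0 hv1 hμ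
    have l1 : 0 ≤ (1 - v - x) / (1 + κ) := by
      apply div_nonneg _ hκ1.le
      linarith
    have l2 : 0 ≤ (x + κ * (1 - v)) / (1 + κ) := by
      apply div_nonneg _ hκ1.le
      nlinarith
    have hsum : (1 - v - x) / (1 + κ) + (x + κ * (1 - v)) / (1 + κ) = 1 - v := by
      field_simp
      ring
    have hpt : b + x • τ + v • μ = ((1 - v - x) / (1 + κ)) • a + ((x + κ * (1 - v)) / (1 + κ)) • c +
        v • (b + μ) := by
      rw [ha, hc]
      have e1 : ((1 - v - x) / (1 + κ)) • (b - κ • τ) + ((x + κ * (1 - v)) / (1 + κ)) • (b + τ) =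
          ((1 - v - x) / (1 + κ) + (x + κ * (1 - v)) / (1 + κ)) • b +
          ((x + κ * (1 - v)) / (1 + κ) - κ * ((1 - v - x) / (1 + κ))) • τ := by module
      have e2 : (x + κ * (1 - v)) / (1 + κ) - κ * ((1 - v - x) / (1 + κ)) = x := by
        field_simp
        ring
      rw [e1, hsum, e2]
      module
    rw [hpt]
    have := hL.sum_mem (t := (Finset.univ : Finset (Fin 3)))
      (w := ![(1 - v - x) / (1 + κ), (x + κ * (1 - v)) / (1 + κ), v]) (z := ![a, c, b + μ])
      (by intro i _; fin_cases i <;> simp [l1, l2, hv0])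
      (by simp [Fin.sum_univ_three]; linarith)
      (by intro i _; fin_cases i <;> simp [haL, hcL, hμ])
    simpa [Fin.sum_univ_three] using this
  rcases le_total y 0 with hy0 | hy0
  · left
    have := main K hK haK hcK (-ν) (-y) (by linarith) (by linarith) (by rwa [← sub_eq_add_neg])
    rw [hdec]
    simpa using this
  · right
    have := main K' hK' haK' hcK' ν y hy0 (by linarith) h2
    rw [hdec]
    exact this

/-- Exterior contact points (opposite normals) on the frontier of a bigger set: countable. -/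
lemma countable_contact {K K' U : Set E} (hK : Convex ℝ K) (hK' : Convex ℝ K') (hKU : K ⊆ U)
    (hKU' : K' ⊆ U) :
    {p : E | p ∈ frontier U ∧ ∃ ν, RegPt K p ν ∧ RegPt K' p (-ν)}.Countable := by
  set B := {p : E | p ∈ frontier U ∧ ∃ ν, RegPt K p ν ∧ RegPt K' p (-ν)} with hB
  rcases B.eq_empty_or_nonempty with h0 | ⟨p₁, hp₁, ν₁, g₁, g₁'⟩
  · rw [h0]; exact countable_empty
  -- all points of B are on the line through p₁ orthogonal to ν₁
  set η : E := pt (-(ν₁ 1)) (ν₁ 0) with hη
  have hline : ∀ q ∈ B, q - p₁ = ⟪q - p₁, η⟫ • η := by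
    rintro q ⟨-, μ, g, g'⟩
    have e1 := g₁.supp q g.mem
    have e2 := g₁'.supp q g'.mem
    rw [inner_neg_right] at e2
    have e3 : ⟪q - p₁, ν₁⟫ = 0 := by linarith
    have hν := norm_sq_eq2 ν₁
    rw [g₁.norm, one_pow] at hν
    rw [inner_eq2] at e3
    rw [inner_eq2]
    set w := q - p₁
    ext i
    fin_cases i
    · change w 0 = (w 0 * η 0 + w 1 * η 1) * η 0
      rw [hη, pt_zero, pt_one]
      linear_combination (w 0) * hν + (ν₁ 0) * e3
    · change w 1 = (w 0 * η 0 + w 1 * η 1) * η 1
      rw [hη, pt_zero, pt_one]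
      linear_combination (w 1) * hν + (ν₁ 1) * e3
  set lam : E → ℝ := fun q => ⟪q - p₁, η⟫ with hlam
  have hinj : ∀ q ∈ B, ∀ q' ∈ B, lam q = lam q' → q = q' := by
    intro q hq q' hq' h
    have e1 := hline q hq
    have e2 := hline q' hq'
    have : q - p₁ = q' - p₁ := by
      rw [e1, e2]
      change lam q • η = lam q' • η
      rw [h]
    exact sub_left_injective this
  have hnobetween : ∀ a ∈ B, ∀ b ∈ B, ∀ c ∈ B, lam a < lam b → lam b < lam c → False := by
    rintro a ha b hb c hc hab hbc
    have ea := hline a ha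
    have eb := hline b hb
    have ec := hline c hc
    change a - p₁ = lam a • η at ea
    change b - p₁ = lam b • η at eb
    change c - p₁ = lam c • η at ec
    obtain ⟨hbU, ν, g, g'⟩ := hb
    obtain ⟨-, νa, ga, ga'⟩ := ha
    obtain ⟨-, νc, gc, gc'⟩ := hc
    have hcb : c - b = (lam c - lam b) • η := by
      have : c - b = (c - p₁) - (b - p₁) := by abel
      rw [this, ec, eb]
      module
    have hab' : a - b = (lam a - lam b) • η := by
      have : a - b = (a - p₁) - (b - p₁) := by abel
      rw [this, ea, eb]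
      module
    have hpos : 0 < lam c - lam b := by linarith
    have e1 := g.supp c gc.mem
    have e2 := g'.supp c gc'.mem
    rw [inner_neg_right] at e2
    have hint : b ∈ interior (K ∪ K') := by
      apply sandwich hK hK' (κ := (lam b - lam a) / (lam c - lam b)) g.norm ga.mem ga'.mem
        gc.mem gc'.mem
      · apply g.ball
        simp
      · apply g'.ball
        rw [mem_closedBall, dist_eq_norm]
        simp
      · linarith
      · intro h
        rw [h] at hbc
        exact lt_irrefl _ hbc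
      · apply div_pos <;> linarith
      · rw [hcb, hab', smul_smul, div_mul_cancel₀ _ hpos.ne']
        module
    have : b ∈ interior U := interior_mono (union_subset hKU hKU') hint
    exact hbU.2 this
  have hsub : B ⊆ {p | p ∈ B ∧ ∀ q ∈ B, lam p ≤ lam q} ∪ {p | p ∈ B ∧ ∀ q ∈ B, lam q ≤ lam p} := by
    intro b hb
    by_contra hcon
    simp only [mem_union, mem_ofPred_eq, not_or, not_and, not_forall] at hcon
    obtain ⟨⟨a, ha, hab⟩, ⟨c, hc, hbc⟩⟩ := And.intro (hcon.1 hb) (hcon.2 hb)
    exact hnobetween a ha b hb c hc (not_le.mp hab) (not_le.mp hbc)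
  refine Countable.mono hsub (Countable.union ?_ ?_)
  · apply Set.Subsingleton.countable
    rintro p ⟨hp, hp'⟩ q ⟨hq, hq'⟩
    exact hinj p hp q hq (le_antisymm (hp' q hq) (hq' p hp))
  · apply Set.Subsingleton.countable
    rintro p ⟨hp, hp'⟩ q ⟨hq, hq'⟩
    exact hinj p hp q hq (le_antisymm (hq' p hp) (hp' q hq))

end Pool.Agent.H55.Stadium
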