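import Pool.Agent.H55.StadiumH
set_option autoImplicit false
open MeasureTheory Metric Set Real
open scoped RealInnerProductSpace

namespace Pool.Agent.H55.Stadium

lemma mem_C_iff (z : E) : z ∈ C ↔ ∃ a : ℝ, |a| ≤ π / 4 ∧ (z 0 - a) ^ 2 + (z 1) ^ 2 ≤ 1 := by
  have := mem_thick_iff zero_le_one z
  rwa [one_pow] at this

lemma ball_sub_C {a : ℝ} (ha : |a| ≤ π / 4) : closedBall (pt a 0) 1 ⊆ C := by
  intro z hz
  rw [mem_closedBall, dist_le_iff2 _ _ zero_le_one] at hz
  rw [mem_C_iff]
  refine ⟨a, ha, ?_⟩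
  simpa using hz

lemma reg_arc {s : ℝ} (hs : s ∈ arc.T) : RegPt C (arc.P s) (arc.N s) := by
  have hpi := pi_pos
  have hcos : 0 ≤ cos s := cos_nonneg_of_mem_Icc hs
  refine ⟨arc.normN s, ?_, ?_⟩
  · intro z hz
    obtain ⟨a, ha, h⟩ := (mem_C_iff z).mp hz
    rw [inner_eq2]
    change (z 0 - (π / 4 + cos s)) * cos s + (z 1 - sin s) * sin s ≤ 0
    have h1 : (z 0 - a) * cos s + z 1 * sin s ≤ 1 := by
      have e := Real.sin_sq_add_cos_sq s
      nlinarith [sq_nonneg (z 0 - a - cos s), sq_nonneg (z 1 - sin s)]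
    have h2 : (a - π / 4) * cos s ≤ 0 := by
      apply mul_nonpos_of_nonpos_of_nonneg _ hcos
      linarith [le_abs_self a]
    have e := Real.sin_sq_add_cos_sq s
    nlinarith
  · have : arc.P s - arc.N s = pt (π / 4) 0 := by
      change pt (π / 4 + cos s) (sin s) - pt (cos s) (sin s) = pt (π / 4) 0
      rw [sub_eq_iff_eq_add, pt_add, zero_add]
    rw [this]
    apply ball_sub_C
    rw [abs_of_pos (by positivity)]

lemma reg_flat {s : ℝ} (hs : s ∈ flat.T) : RegPt C (flat.P s) (flat.N s) := by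
  refine ⟨flat.normN s, ?_, ?_⟩
  · intro z hz
    have h := ((mem_C_iff' z).mp hz).1
    rw [inner_eq2]
    change (z 0 - s) * 0 + (z 1 - 1) * 1 ≤ 0
    linarith [le_abs_self (z 1)]
  · have : flat.P s - flat.N s = pt s 0 := by
      change pt s 1 - pt 0 1 = pt s 0
      rw [sub_eq_iff_eq_add, pt_add, zero_add, add_zero]
    rw [this]
    apply ball_sub_C
    exact abs_le.mpr hs

/-- reflection through the origin -/
noncomputable def ng : E ≃ᵢ E := (LinearIsometryEquiv.neg ℝ).toIsometryEquiv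

lemma ng_apply (z : E) : ng z = -z := rfl

lemma ng_C : ng '' C = C := by
  have h : ∀ z ∈ C, -z ∈ C := by
    intro z hz
    rw [mem_C_iff'] at hz ⊢
    have e0 : (-z) 0 = -(z 0) := rfl
    have e1 : (-z) 1 = -(z 1) := rfl
    rw [e0, e1, abs_neg, abs_neg, neg_sq]
    exact hz
  apply Subset.antisymm
  · rintro _ ⟨z, hz, rfl⟩
    exact h z hz
  · intro z hz
    exact ⟨-z, h z hz, by rw [ng_apply, neg_neg]⟩

/-- The frontier of the stadium is covered by the four charts. -/
lemma frontier_C_cover {p : E} (hp : p ∈ C) (hp' : p ∉ interior C) :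
    (∃ s ∈ arc.T, p = arc.P s) ∨ (∃ s ∈ flat.T, p = flat.P s) ∨
    (∃ s ∈ arc.T, p = -(arc.P s)) ∨ (∃ s ∈ flat.T, p = -(flat.P s)) := by
  have hpi := pi_pos
  obtain ⟨h1, h2⟩ := (mem_C_iff' p).mp hp
  by_cases hy : |p 1| = 1
  · have hy2 : (p 1) ^ 2 = 1 := by rw [← sq_abs, hy, one_pow]
    rw [hy2, sub_self, Real.sqrt_zero, add_zero] at h2
    rcases (abs_eq zero_le_one).mp hy with h | h
    · right; left
      refine ⟨p 0, abs_le.mp h2, ?_⟩
      change p = pt (p 0) 1
      rw [← h, pt_eta]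
    · right; right; right
      refine ⟨-(p 0), ?_, ?_⟩
      · have := abs_le.mp h2
        exact ⟨by linarith [this.2], by linarith [this.1]⟩
      · change p = -(pt (-(p 0)) 1)
        ext i
        fin_cases i
        · change p 0 = -(-(p 0))
          ring
        · change p 1 = -1
          exact h
  have hy1 : |p 1| < 1 := lt_of_le_of_ne h1 hy
  have hy2 := abs_lt.mp hy1
  by_cases hx : |p 0| < π / 4 + √(1 - (p 1) ^ 2)
  · exfalso
    apply hp'
    rw [mem_interior]
    refine ⟨{z | |z 1| < 1 ∧ |z 0| < π / 4 + √(1 - (z 1) ^ 2)}, ?_, ?_, ⟨hy1, hx⟩⟩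
    · rintro z ⟨hz1, hz2⟩
      exact (mem_C_iff' z).mpr ⟨hz1.le, hz2.le⟩
    · have c1 : Continuous fun z : E => |z 1| := by fun_prop
      have c2 : Continuous fun z : E => |z 0| := by fun_prop
      have c3 : Continuous fun z : E => π / 4 + √(1 - (z 1) ^ 2) := by fun_prop
      exact (isOpen_lt c1 continuous_const).inter (isOpen_lt c2 c3)
  · have hx' : |p 0| = π / 4 + √(1 - (p 1) ^ 2) := le_antisymm h2 (not_lt.mp hx)
    rcases (abs_eq (by positivity)).mp hx' with h | h
    · left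
      refine ⟨arcsin (p 1), ⟨neg_pi_div_two_le_arcsin _, arcsin_le_pi_div_two _⟩, ?_⟩
      change p = pt (π / 4 + cos (arcsin (p 1))) (sin (arcsin (p 1)))
      rw [cos_arcsin, sin_arcsin hy2.1.le hy2.2.le, ← h, pt_eta]
    · right; right; left
      refine ⟨arcsin (-(p 1)), ⟨neg_pi_div_two_le_arcsin _, arcsin_le_pi_div_two _⟩, ?_⟩
      change p = -(pt (π / 4 + cos (arcsin (-(p 1)))) (sin (arcsin (-(p 1)))))
      rw [cos_arcsin, sin_arcsin (by linarith) (by linarith), neg_sq]
      ext i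
      fin_cases i
      · change p 0 = -(π / 4 + √(1 - (p 1) ^ 2))
        exact h
      · change p 1 = -(-(p 1))
        ring

lemma RegPt.map {K : Set E} {p ν : E} (h : RegPt K p ν) (g : E ≃ᵢ E) :
    RegPt (g '' K) (g p) (g.toRealLinearIsometryEquiv ν) := by
  refine ⟨by rw [LinearIsometryEquiv.norm_map, h.norm], ?_, ?_⟩
  · rintro _ ⟨z, hz, rfl⟩
    have : g z - g p = g.toRealLinearIsometryEquiv (z - p) := by
      have := iso_affine g p (z - p) 1
      rw [one_smul, one_smul, add_sub_cancel] at this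
      rw [this, add_sub_cancel_left]
    rw [this, LinearIsometryEquiv.inner_map_map]
    exact h.supp z hz
  · have : g p - g.toRealLinearIsometryEquiv ν = g (p - ν) := by
      have := iso_affine g p ν (-1)
      rw [neg_smul, one_smul, neg_smul, one_smul, ← sub_eq_add_neg, ← sub_eq_add_neg] at this
      rw [this]
    rw [this, ← IsometryEquiv.image_closedBall]
    exact image_mono h.ball

/-- The chart family of a union of stadiums. -/
noncomputable def fam {n : ℕ} (f : Fin n → (E ≃ᵢ E)) (m : Fin n × Bool × Bool) : Chart :=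
  (if m.2.1 then arc else flat).map (if m.2.2 then f m.1 else ng.trans (f m.1))

lemma fam_reg {n : ℕ} (f : Fin n → (E ≃ᵢ E)) (m : Fin n × Bool × Bool) {s : ℝ}
    (hs : s ∈ (fam f m).T) : RegPt ((f m.1) '' C) ((fam f m).P s) ((fam f m).N s) := by
  obtain ⟨j, b1, b2⟩ := m
  have key : ∀ c : Chart, (∀ s ∈ c.T, RegPt C (c.P s) (c.N s)) → ∀ s ∈ c.T,
      RegPt ((f j) '' C) ((c.map (if b2 then f j else ng.trans (f j))).P s)
        ((c.map (if b2 then f j else ng.trans (f j))).N s) := by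
    clear hs
    intro c hc s' hs'
    cases b2
    · have h := (hc s' hs').map (ng.trans (f j))
      have e : (ng.trans (f j)) '' C = (f j) '' C := by
        rw [show ((ng.trans (f j)) : E → E) = (f j) ∘ ng from rfl, image_comp, ng_C]
      rw [e] at h
      exact h
    · exact (hc s' hs').map (f j)
  cases b1
  · exact key flat (fun s hs => reg_flat hs) s hs
  · exact key arc (fun s hs => reg_arc hs) s hs

lemma fam_cover {n : ℕ} (f : Fin n → (E ≃ᵢ E)) (j : Fin n) {p : E} (hp : p ∈ (f j) '' C)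
    (hp' : p ∉ interior ((f j) '' C)) : ∃ m : Fin n × Bool × Bool, m.1 = j ∧
      ∃ s ∈ (fam f m).T, p = (fam f m).P s := by
  obtain ⟨q, hq, rfl⟩ := hp
  have hq' : q ∉ interior C := by
    intro h
    apply hp'
    have : interior ((f j) '' C) = (f j) '' (interior C) := ((f j).toHomeomorph.image_interior C).symm
    rw [this]
    exact mem_image_of_mem _ h
  rcases frontier_C_cover hq hq' with ⟨s, hs, h⟩ | ⟨s, hs, h⟩ | ⟨s, hs, h⟩ | ⟨s, hs, h⟩
  · exact ⟨(j, true, true), rfl, s, hs, by rw [h]; rfl⟩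
  · exact ⟨(j, false, true), rfl, s, hs, by rw [h]; rfl⟩
  · exact ⟨(j, true, false), rfl, s, hs, by rw [h]; rfl⟩
  · exact ⟨(j, false, false), rfl, s, hs, by rw [h]; rfl⟩

end Pool.Agent.H55.Stadium
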