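import Pool.Agent.H55.StadiumI
set_option autoImplicit false
open MeasureTheory Metric Set Real
open scoped RealInnerProductSpace

namespace Pool.Agent.H55.Stadium

lemma frontier_bound' {ι : Type} [Fintype ι] (ch : ι → Chart) {U : Set E}
    (hPU : ∀ m, ∀ s ∈ (ch m).T, (ch m).P s ∈ U) {r ε : ℝ} (hε : 0 < ε) (hεr : ε ≤ r) :
    ENNReal.ofReal ε * μH[1] (⋃ m, (ch m).P '' (ch m).good U r) ≤ volume (cthickening ε U \ U) := by
  let _ : LinearOrder ι := LinearOrder.lift' (Fintype.equivFin ι) (Equiv.injective _)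
  exact frontier_bound ch hPU hε hεr

lemma good_mono (c : Chart) (U : Set E) {r r' : ℝ} (hr : r' ≤ r) (_hr' : 0 ≤ r') :
    c.good U r ⊆ c.good U r' := by
  rintro s ⟨hs, h⟩
  refine ⟨hs, fun u hu => ?_⟩
  have h1 := h u hu
  have h2 : dist u (c.P s + r • c.N s) ≤ dist u (c.P s + r' • c.N s) +
      dist (c.P s + r' • c.N s) (c.P s + r • c.N s) := dist_triangle _ _ _
  have h3 : dist (c.P s + r' • c.N s) (c.P s + r • c.N s) = r - r' := by
    rw [dist_eq_norm]
    have : c.P s + r' • c.N s - (c.P s + r • c.N s) = (-(r - r')) • c.N s := by module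
    rw [this, norm_smul, c.normN, mul_one, norm_neg, Real.norm_of_nonneg (by linarith)]
  linarith

lemma dist_supp {p ν u : E} (hν : ‖ν‖ = 1) (h : ⟪u - p, ν⟫ ≤ 0) {r : ℝ} (hr : 0 ≤ r) :
    r ≤ dist u (p + r • ν) := by
  rw [dist_eq_norm]
  have e : u - (p + r • ν) = (u - p) - r • ν := by abel
  have h1 : ‖u - (p + r • ν)‖ ^ 2 = ‖u - p‖ ^ 2 - 2 * (r * ⟪u - p, ν⟫) + r ^ 2 := by
    rw [e, norm_sub_sq_real, inner_smul_right, norm_smul, hν, mul_one, Real.norm_of_nonneg hr]
  have h2 : r ^ 2 ≤ ‖u - (p + r • ν)‖ ^ 2 := by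
    rw [h1]
    have : r * ⟪u - p, ν⟫ ≤ 0 := mul_nonpos_of_nonneg_of_nonpos hr h
    nlinarith [sq_nonneg ‖u - p‖]
  exact (sq_le_sq₀ hr (norm_nonneg _)).mp h2

/-- the union -/
noncomputable def Un {n : ℕ} (f : Fin n → (E ≃ᵢ E)) : Set E := ⋃ i, (f i) '' C

lemma isCompact_Un {n : ℕ} (f : Fin n → (E ≃ᵢ E)) : IsCompact (Un f) :=
  isCompact_iUnion fun i => isCompact_imC (f i)

def Bad {n : ℕ} (f : Fin n → (E ≃ᵢ E)) : Set E :=
  (⋃ i, ⋃ j, {p : E | ∃ ν ν', RegPt ((f i) '' C) p ν ∧ RegPt ((f j) '' C) p ν' ∧ ν ≠ ν' ∧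
    ν ≠ -ν'}) ∪
  (⋃ i, ⋃ j, {p : E | p ∈ frontier (Un f) ∧ ∃ ν, RegPt ((f i) '' C) p ν ∧
    RegPt ((f j) '' C) p (-ν)})

lemma convex_imC (g : E ≃ᵢ E) : Convex ℝ (g '' C) := by
  have : (g '' C) = g.toRealAffineIsometryEquiv.toAffineEquiv.toAffineMap '' C := by
    apply image_congr
    intro z _
    simp
  rw [this]
  exact convex_C.affine_image _

lemma countable_Bad {n : ℕ} (f : Fin n → (E ≃ᵢ E)) : (Bad f).Countable := by
  apply Countable.union
  · exact countable_iUnion fun i => countable_iUnion fun j => countable_transversal _ _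
  · refine countable_iUnion fun i => countable_iUnion fun j => ?_
    apply countable_contact (convex_imC _) (convex_imC _)
    · exact subset_iUnion (fun i => (f i) '' C) i
    · exact subset_iUnion (fun i => (f i) '' C) j

lemma frontier_cases {n : ℕ} (f : Fin n → (E ≃ᵢ E)) {p : E} (hp : p ∈ frontier (Un f))
    (hbad : p ∉ Bad f) : ∃ m, ∃ r > 0, p ∈ (fam f m).P '' (fam f m).good (Un f) r := by
  have hcl : IsClosed (Un f) := (isCompact_Un f).isClosed
  have hpU : p ∈ Un f := hcl.frontier_subset hp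
  obtain ⟨j, hj⟩ := mem_iUnion.mp hpU
  have hnint : ∀ i, p ∉ interior ((f i) '' C) := by
    intro i hi
    exact hp.2 (interior_mono (subset_iUnion (fun i => (f i) '' C) i) hi)
  obtain ⟨m, rfl, s, hs, hps⟩ := fam_cover f j hj (hnint j)
  have hreg := fam_reg f m hs
  rw [← hps] at hreg
  set ν := (fam f m).N s with hν
  -- every stadium containing p lies on one side
  have hside : ∀ i, p ∈ (f i) '' C → ∀ z ∈ (f i) '' C, ⟪z - p, ν⟫ ≤ 0 := by
    intro i hi
    obtain ⟨m', rfl, s', hs', hps'⟩ := fam_cover f i hi (hnint i)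
    have hreg' := fam_reg f m' hs'
    rw [← hps'] at hreg'
    by_cases h1 : ν = (fam f m').N s'
    · rw [h1]; exact hreg'.supp
    · exfalso
      by_cases h2 : ν = -((fam f m').N s')
      · apply hbad
        right
        refine mem_iUnion₂.mpr ⟨m.1, m'.1, hp, ν, hreg, ?_⟩
        rw [h2, neg_neg]
        exact hreg'
      · apply hbad
        left
        exact mem_iUnion₂.mpr ⟨m.1, m'.1, ν, _, hreg, hreg', h1, h2⟩
  -- the other stadiums are far
  set V : Set E := ⋃ i ∈ {i | p ∉ (f i) '' C}, (f i) '' C with hV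
  have hVc : IsClosed V := by
    apply (Set.toFinite _).isClosed_biUnion
    intro i _
    exact isClosed_imC _
  have hpV : p ∉ V := by
    intro h
    obtain ⟨i, hi, hi'⟩ := mem_iUnion₂.mp h
    exact hi hi'
  obtain ⟨δ, hδ, hball⟩ := Metric.isOpen_iff.mp hVc.isOpen_compl p hpV
  refine ⟨m, δ / 2, by positivity, s, ⟨hs, ?_⟩, hps.symm⟩
  intro u hu
  rw [← hps]
  obtain ⟨i, hi⟩ := mem_iUnion.mp hu
  by_cases hpi : p ∈ (f i) '' C
  · exact dist_supp hreg.norm (hside i hpi u hi) (by positivity)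
  · have huV : u ∈ V := mem_iUnion₂.mpr ⟨i, hpi, hi⟩
    have h1 : δ ≤ dist u p := by
      by_contra hcon
      push Not at hcon
      exact hball (mem_ball.mpr hcon) huV
    have h2 : dist u p ≤ dist u (p + (δ / 2) • ν) + dist (p + (δ / 2) • ν) p := dist_triangle _ _ _
    have h3 : dist (p + (δ / 2) • ν) p = δ / 2 := by
      rw [dist_eq_norm, add_sub_cancel_left, norm_smul, hreg.norm, mul_one,
        Real.norm_of_nonneg (by positivity)]
    linarith

lemma perimeter_le {n : ℕ} (f : Fin n → (E ≃ᵢ E)) :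
    μH[1] (frontier (Un f)) ≤ ENNReal.ofReal (3 / 2) * volume (Un f) := by
  set A : ℕ → Set E := fun k => ⋃ m, (fam f m).P '' (fam f m).good (Un f) (1 / ((k : ℝ) + 1)) with hA
  have hAmono : Monotone A := by
    intro k l hkl
    apply iUnion_mono
    intro m
    apply image_mono
    apply good_mono
    · apply one_div_le_one_div_of_le (by positivity)
      have : (k : ℝ) ≤ l := by exact_mod_cast hkl
      linarith
    · positivity
  have hcover : frontier (Un f) ⊆ (⋃ k, A k) ∪ Bad f := by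
    intro p hp
    by_cases hb : p ∈ Bad f
    · right; exact hb
    left
    obtain ⟨m, r, hr, hpm⟩ := frontier_cases f hp hb
    obtain ⟨k, hk⟩ := exists_nat_one_div_lt hr
    refine mem_iUnion.mpr ⟨k, mem_iUnion.mpr ⟨m, ?_⟩⟩
    exact image_mono (good_mono _ _ hk.le (by positivity)) hpm
  have hPU : ∀ m, ∀ s ∈ (fam f m).T, (fam f m).P s ∈ Un f := by
    intro m s hs
    exact mem_iUnion.mpr ⟨m.1, (fam_reg f m hs).mem⟩
  have hUcl : IsClosed (Un f) := (isCompact_Un f).isClosed
  have hUfin : volume (Un f) ≠ ⊤ := (isCompact_Un f).measure_lt_top.ne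
  have hAk : ∀ k, μH[1] (A k) ≤ ENNReal.ofReal (3 / 2) * volume (Un f) := by
    intro k
    have h1 : ∀ ε : ℝ, 0 < ε → ε ≤ 1 / ((k : ℝ) + 1) →
        μH[1] (A k) ≤ ENNReal.ofReal (3 / 2) * volume (Un f) + n * ENNReal.ofReal (π * ε) := by
      intro ε hε hεk
      have e1 := frontier_bound' (fam f) hPU hε hεk
      have e2 : volume (cthickening ε (Un f)) ≤
          ENNReal.ofReal (1 + 3 / 2 * ε) * volume (Un f) + n * ENNReal.ofReal (π * ε ^ 2) := by
        have := volume_thick_union (Finset.univ : Finset (Fin n)) f hε.le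
        simpa [Un] using this
      have e3 : volume (cthickening ε (Un f) \ Un f) ≤
          ENNReal.ofReal (3 / 2 * ε) * volume (Un f) + n * ENNReal.ofReal (π * ε ^ 2) := by
        rw [measure_sdiff (self_subset_cthickening _) hUcl.measurableSet.nullMeasurableSet hUfin]
        rw [tsub_le_iff_right]
        refine e2.trans ?_
        rw [ENNReal.ofReal_add zero_le_one (by positivity), ENNReal.ofReal_one]
        apply le_of_eq
        ring
      have e4 : ENNReal.ofReal ε * μH[1] (A k) ≤ ENNReal.ofReal ε *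
          (ENNReal.ofReal (3 / 2) * volume (Un f) + n * ENNReal.ofReal (π * ε)) := by
        refine e1.trans (e3.trans (le_of_eq ?_))
        rw [mul_comm (3 / 2) ε, ENNReal.ofReal_mul hε.le,
          show π * ε ^ 2 = ε * (π * ε) by ring, ENNReal.ofReal_mul hε.le (q := π * ε)]
        ring
      have hne : ENNReal.ofReal ε ≠ 0 := by
        rw [Ne, ENNReal.ofReal_eq_zero, not_le]
        exact hε
      exact (ENNReal.mul_le_mul_iff_right hne ENNReal.ofReal_ne_top).mp e4
    have hlim : Filter.Tendsto (fun ε : ℝ => ENNReal.ofReal (3 / 2) * volume (Un f) +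
        n * ENNReal.ofReal (π * ε)) (nhdsWithin 0 (Ioi 0))
        (nhds (ENNReal.ofReal (3 / 2) * volume (Un f) + n * ENNReal.ofReal (π * 0))) := by
      apply Filter.Tendsto.mono_left _ nhdsWithin_le_nhds
      apply Filter.Tendsto.const_add
      apply ENNReal.Tendsto.const_mul _ (Or.inr (ENNReal.natCast_ne_top n))
      apply (ENNReal.continuous_ofReal.tendsto _).comp
      exact (continuous_const.mul continuous_id).tendsto _
    rw [mul_zero, ENNReal.ofReal_zero, mul_zero, add_zero] at hlim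
    apply ge_of_tendsto hlim
    have : Ioc (0 : ℝ) (1 / ((k : ℝ) + 1)) ∈ nhdsWithin (0 : ℝ) (Ioi 0) :=
      Ioc_mem_nhdsGT (by positivity)
    filter_upwards [this] with ε hε
    exact h1 ε hε.1 hε.2
  have hbad0 : μH[1] (Bad f) = 0 := by
    have := Measure.nullSingletonClass_hausdorff (X := E) one_pos
    exact (countable_Bad f).measure_zero _
  calc μH[1] (frontier (Un f)) ≤ μH[1] ((⋃ k, A k) ∪ Bad f) := measure_mono hcover
    _ ≤ μH[1] (⋃ k, A k) + μH[1] (Bad f) := measure_union_le _ _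
    _ = ⨆ k, μH[1] (A k) := by
        rw [hbad0, add_zero, hAmono.measure_iUnion]
    _ ≤ _ := iSup_le hAk

end Pool.Agent.H55.Stadium
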