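import Pool.Agent.H55.StadiumJ
set_option autoImplicit false
open MeasureTheory Metric Set Real
open scoped RealInnerProductSpace

namespace Pool.Agent.H55.Stadium

lemma arc_lower (φ β : ℝ) (hβ : 0 ≤ β) :
    ENNReal.ofReal (2 * sin β) ≤ μH[1] (arc.P '' Ico (φ - β) (φ + β)) := by
  set u : E := pt (-(sin φ)) (cos φ) with hu
  have hun : ‖u‖ = 1 := by
    rw [hu, norm_pt, neg_sq, Real.sin_sq_add_cos_sq, Real.sqrt_one]
  have hlip : LipschitzWith 1 (fun z : E => ⟪z, u⟫) := by
    apply LipschitzWith.of_dist_le_mul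
    intro x y
    rw [NNReal.coe_one, one_mul, Real.dist_eq, ← inner_sub_left, dist_eq_norm]
    have := abs_real_inner_le_norm (x - y) u
    rwa [hun, mul_one] at this
  have hval : ∀ s, ⟪arc.P s, u⟫ = -(π / 4 * sin φ) + sin (s - φ) := by
    intro s
    rw [inner_eq2, Real.sin_sub]
    change (π / 4 + cos s) * (-(sin φ)) + sin s * cos φ = _
    ring
  have h1 := hlip.hausdorffMeasure_image_le (d := 1) zero_le_one (arc.P '' Ico (φ - β) (φ + β))
  rw [image_image] at h1
  simp_rw [hval] at h1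
  have hcont : ContinuousOn (fun s : ℝ => -(π / 4 * sin φ) + sin (s - φ)) (Icc (φ - β) (φ + β)) := by
    fun_prop
  have h2 := intermediate_value_Ico (by linarith : φ - β ≤ φ + β) hcont
  have h3 := measure_mono (μ := (volume : Measure ℝ)) h2
  rw [Real.volume_Ico] at h3
  rw [hausdorffMeasure_real] at h1
  simp only [ENNReal.coe_one, ENNReal.one_rpow, one_mul] at h1
  refine le_trans (le_of_eq ?_) (h3.trans h1)
  congr 1
  have e1 : φ + β - φ = β := by ring
  have e2 : φ - β - φ = -β := by ring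
  rw [e1, e2, Real.sin_neg]
  ring

lemma arc_injOn : InjOn arc.P (Icc (-(π / 2)) (π / 2)) := by
  intro s hs t ht h
  have : (arc.P s) 1 = (arc.P t) 1 := by rw [h]
  exact injOn_sin hs ht this

lemma arc_sum (β : ℝ) (hβ : 0 ≤ β) (k : ℕ) (hk : 2 * β * k ≤ π) :
    (k : ENNReal) * ENNReal.ofReal (2 * sin β) ≤
      μH[1] (arc.P '' Ico (-(π / 2)) (-(π / 2) + 2 * β * k)) := by
  induction k with
  | zero => simp
  | succ k ih =>
    have hk' : 2 * β * (k : ℝ) ≤ π := by
      push_cast at hk
      nlinarith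
    have ih' := ih hk'
    have h1 := arc_lower (-(π / 2) + 2 * β * k + β) β hβ
    have e1 : -(π / 2) + 2 * β * k + β - β = -(π / 2) + 2 * β * k := by ring
    have e2 : -(π / 2) + 2 * β * k + β + β = -(π / 2) + 2 * β * ((k + 1 : ℕ) : ℝ) := by
      push_cast; ring
    rw [e1, e2] at h1
    have hsub : arc.P '' Ico (-(π / 2)) (-(π / 2) + 2 * β * k) ∪
        arc.P '' Ico (-(π / 2) + 2 * β * k) (-(π / 2) + 2 * β * ((k + 1 : ℕ) : ℝ)) ⊆
        arc.P '' Ico (-(π / 2)) (-(π / 2) + 2 * β * ((k + 1 : ℕ) : ℝ)) := by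
      rw [← image_union]
      apply image_mono
      intro x hx
      rcases hx with hx | hx
      · exact ⟨hx.1, hx.2.trans_le (by push_cast; nlinarith)⟩
      · refine ⟨le_trans ?_ hx.1, hx.2⟩
        have : 0 ≤ 2 * β * k := by positivity
        linarith
    have hle2 : -(π / 2) + 2 * β * ((k + 1 : ℕ) : ℝ) ≤ π / 2 := by linarith
    have hle1 : -(π / 2) ≤ -(π / 2) + 2 * β * k := by
      have : 0 ≤ 2 * β * k := by positivity
      linarith
    have hdisj : Disjoint (arc.P '' Ico (-(π / 2)) (-(π / 2) + 2 * β * k))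
        (arc.P '' Ico (-(π / 2) + 2 * β * k) (-(π / 2) + 2 * β * ((k + 1 : ℕ) : ℝ))) := by
      rw [Set.disjoint_left]
      rintro _ ⟨s, hs, rfl⟩ ⟨t, ht, h⟩
      have := arc_injOn (x₁ := t) (x₂ := s) ⟨by linarith [ht.1], by linarith [ht.2]⟩
        ⟨hs.1, by linarith [hs.2]⟩ h
      rw [this] at ht
      exact absurd hs.2 (not_lt.mpr ht.1)
    have hmeas : MeasurableSet (arc.P '' Ico (-(π / 2)) (-(π / 2) + 2 * β * k)) := by
      apply measurableSet_Ico.image_of_continuousOn_injOn arc.contP.continuousOn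
      exact arc_injOn.mono (show Ico (-(π / 2)) (-(π / 2) + 2 * β * k) ⊆ Icc (-(π / 2)) (π / 2) from
        fun x hx => ⟨hx.1, by linarith [hx.2]⟩)
    calc ((k + 1 : ℕ) : ENNReal) * ENNReal.ofReal (2 * sin β)
        = k * ENNReal.ofReal (2 * sin β) + ENNReal.ofReal (2 * sin β) := by push_cast; ring
      _ ≤ μH[1] (arc.P '' Ico (-(π / 2)) (-(π / 2) + 2 * β * k)) +
          μH[1] (arc.P '' Ico (-(π / 2) + 2 * β * k) (-(π / 2) + 2 * β * ((k + 1 : ℕ) : ℝ))) :=
          add_le_add ih' h1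
      _ = _ := (measure_union' hdisj hmeas).symm
      _ ≤ _ := measure_mono hsub

lemma arc_length : ENNReal.ofReal π ≤ μH[1] (arc.P '' Ico (-(π / 2)) (π / 2)) := by
  have hpi := pi_pos
  have h1 : ∀ k : ℕ, 2 ≤ k → ENNReal.ofReal (π - π ^ 3 / 24 * (1 / (k : ℝ))) ≤
      μH[1] (arc.P '' Ico (-(π / 2)) (π / 2)) := by
    intro k hk
    have hk2 : (2 : ℝ) ≤ k := by exact_mod_cast hk
    have hk0 : (0 : ℝ) < k := by linarith
    set β := π / (2 * k) with hβ
    have hβ0 : 0 < β := by positivity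
    have hβ1 : β ≤ 1 := by
      rw [hβ, div_le_one (by positivity)]
      linarith [pi_le_four]
    have e1 : 2 * β * k = π := by
      rw [hβ]
      field_simp
    have h2 := arc_sum β hβ0.le k e1.le
    rw [e1] at h2
    have e2 : -(π / 2) + π = π / 2 := by ring
    rw [e2] at h2
    refine le_trans ?_ h2
    rw [← ENNReal.ofReal_natCast, ← ENNReal.ofReal_mul hk0.le]
    apply ENNReal.ofReal_le_ofReal
    have h3 := (Real.sin_gt_sub_cube hβ0).le
    have h4 : (k : ℝ) * (2 * (β - β ^ 3 / 6)) ≤ k * (2 * sin β) := by gcongr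
    refine le_trans ?_ h4
    have e3 : (k : ℝ) * (2 * (β - β ^ 3 / 6)) = π - π ^ 3 / 24 * (1 / (k : ℝ) ^ 2) := by
      rw [hβ]
      field_simp
      ring
    rw [e3]
    have h5 : 1 / (k : ℝ) ^ 2 ≤ 1 / k := by
      apply one_div_le_one_div_of_le hk0
      nlinarith
    have h6 : π ^ 3 / 24 * (1 / (k : ℝ) ^ 2) ≤ π ^ 3 / 24 * (1 / k) := by gcongr
    linarith
  have hlim : Filter.Tendsto (fun k : ℕ => ENNReal.ofReal (π - π ^ 3 / 24 * (1 / (k : ℝ))))
      Filter.atTop (nhds (ENNReal.ofReal (π - π ^ 3 / 24 * 0))) := by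
    apply (ENNReal.continuous_ofReal.tendsto _).comp
    apply Filter.Tendsto.const_sub
    apply Filter.Tendsto.const_mul
    exact tendsto_one_div_atTop_nhds_zero_nat
  rw [mul_zero, sub_zero] at hlim
  apply le_of_tendsto hlim
  filter_upwards [Filter.eventually_ge_atTop 2] with k hk
  exact h1 k hk

lemma flat_length : μH[1] (flat.P '' Ioo (-(π / 4)) (π / 4)) = ENNReal.ofReal (π / 2) := by
  have h1 : Isometry (fun s : ℝ => pt s 1) := by
    apply Isometry.of_dist_eq
    intro x y
    rw [dist_eq2]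
    simp [Real.sqrt_sq_eq_abs, Real.dist_eq]
  have := h1.hausdorffMeasure_image (Or.inl zero_le_one) (Ioo (-(π / 4)) (π / 4))
  rw [hausdorffMeasure_real, Real.volume_Ioo] at this
  change μH[1] ((fun s : ℝ => pt s 1) '' Ioo (-(π / 4)) (π / 4)) = _
  rw [this]
  congr 1
  ring

lemma RegPt.frontier {K : Set E} {p ν : E} (h : RegPt K p ν) : p ∈ frontier K := by
  refine ⟨subset_closure h.mem, fun hint => ?_⟩
  obtain ⟨ε, hε, hb⟩ := Metric.mem_nhds_iff.mp (mem_interior_iff_mem_nhds.mp hint)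
  have : p + (ε / 2) • ν ∈ K := by
    apply hb
    rw [mem_ball, dist_eq_norm, add_sub_cancel_left, norm_smul, h.norm, mul_one,
      Real.norm_of_nonneg (by positivity)]
    linarith
  have h1 := h.supp _ this
  rw [add_sub_cancel_left, inner_smul_left, real_inner_self_eq_norm_sq, h.norm] at h1
  simp at h1
  linarith

lemma frontier_neg {p : E} (hp : p ∈ frontier C) : -p ∈ frontier C := by
  have h1 : frontier C = ng '' frontier C := by
    conv_lhs => rw [← ng_C]
    exact (ng.toHomeomorph.image_frontier C).symm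
  rw [h1]
  exact ⟨p, hp, rfl⟩

lemma perimeter_C : ENNReal.ofReal (3 * π) ≤ μH[1] (frontier C) := by
  have hpi := pi_pos
  set R := arc.P '' Ico (-(π / 2)) (π / 2) with hR
  set F := flat.P '' Ioo (-(π / 4)) (π / 4) with hF
  have hRf : R ⊆ frontier C := by
    rintro _ ⟨s, hs, rfl⟩
    exact (reg_arc (s := s) ⟨hs.1, hs.2.le⟩).frontier
  have hFf : F ⊆ frontier C := by
    rintro _ ⟨s, hs, rfl⟩
    exact (reg_flat (s := s) ⟨hs.1.le, hs.2.le⟩).frontier
  have m0 : Measurable (fun z : E => z 0) := by fun_prop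
  have m1 : Measurable (fun z : E => z 1) := by fun_prop
  -- four disjoint measurable regions
  have hngR : μH[1] (ng '' R) = μH[1] R := ng.hausdorffMeasure_image 1 R
  have hngF : μH[1] (ng '' F) = μH[1] F := ng.hausdorffMeasure_image 1 F
  have hngRf : ng '' R ⊆ frontier C := by
    rintro _ ⟨z, hz, rfl⟩
    exact frontier_neg (hRf hz)
  have hngFf : ng '' F ⊆ frontier C := by
    rintro _ ⟨z, hz, rfl⟩
    exact frontier_neg (hFf hz)
  have hR0 : ∀ z ∈ R, π / 4 ≤ z 0 := by
    rintro _ ⟨s, hs, rfl⟩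
    change π / 4 ≤ π / 4 + cos s
    have : 0 ≤ cos s := cos_nonneg_of_mem_Icc ⟨hs.1, hs.2.le⟩
    linarith
  have hR1 : ∀ z ∈ ng '' R, z 0 ≤ -(π / 4) := by
    rintro _ ⟨z, hz, rfl⟩
    have := hR0 z hz
    change -(z 0) ≤ -(π / 4)
    linarith
  have hF0 : ∀ z ∈ F, -(π / 4) < z 0 ∧ z 0 < π / 4 ∧ z 1 = 1 := by
    rintro _ ⟨s, hs, rfl⟩
    exact ⟨hs.1, hs.2, rfl⟩
  have hF1 : ∀ z ∈ ng '' F, -(π / 4) < z 0 ∧ z 0 < π / 4 ∧ z 1 = -1 := by
    rintro _ ⟨z, hz, rfl⟩
    obtain ⟨h1, h2, h3⟩ := hF0 z hz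
    refine ⟨?_, ?_, ?_⟩
    · change -(π / 4) < -(z 0)
      linarith
    · change -(z 0) < π / 4
      linarith
    · change -(z 1) = -1
      rw [h3]
  have mF : MeasurableSet F := by
    apply measurableSet_Ioo.image_of_continuousOn_injOn flat.contP.continuousOn
    intro s _ t _ h
    have : (flat.P s) 0 = (flat.P t) 0 := by rw [h]
    exact this
  have mngF : MeasurableSet (ng '' F) := ng.toHomeomorph.measurableEmbedding.measurableSet_image.mpr mF
  have mR : MeasurableSet R := by
    apply measurableSet_Ico.image_of_continuousOn_injOn arc.contP.continuousOn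
    exact arc_injOn.mono (show Ico (-(π / 2)) (π / 2) ⊆ Icc (-(π / 2)) (π / 2) from
      fun x hx => ⟨hx.1, hx.2.le⟩)
  have mngR : MeasurableSet (ng '' R) := ng.toHomeomorph.measurableEmbedding.measurableSet_image.mpr mR
  have d1 : Disjoint R (ng '' R) := by
    rw [Set.disjoint_left]
    intro z h1 h2
    have := hR0 z h1
    have := hR1 z h2
    linarith
  have d2 : Disjoint (R ∪ ng '' R) F := by
    rw [Set.disjoint_left]
    rintro z (h1 | h1) h2
    · have := hR0 z h1
      have := hF0 z h2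
      linarith
    · have := hR1 z h1
      have := hF0 z h2
      linarith
  have d3 : Disjoint (R ∪ ng '' R ∪ F) (ng '' F) := by
    rw [Set.disjoint_left]
    rintro z ((h1 | h1) | h1) h2
    · have := hR0 z h1
      have := hF1 z h2
      linarith
    · have := hR1 z h1
      have := hF1 z h2
      linarith
    · have := hF0 z h1
      have := hF1 z h2
      linarith
  calc ENNReal.ofReal (3 * π) = ENNReal.ofReal π + ENNReal.ofReal π + ENNReal.ofReal (π / 2) +
        ENNReal.ofReal (π / 2) := by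
        rw [← ENNReal.ofReal_add (by positivity) (by positivity),
          ← ENNReal.ofReal_add (by positivity) (by positivity),
          ← ENNReal.ofReal_add (by positivity) (by positivity)]
        congr 1
        ring
    _ ≤ μH[1] R + μH[1] (ng '' R) + μH[1] F + μH[1] (ng '' F) := by
        rw [hngR, hngF, flat_length]
        gcongr
        · exact arc_length
        · exact arc_length
    _ = μH[1] (R ∪ ng '' R ∪ F ∪ ng '' F) := by
        rw [measure_union d3 mngF, measure_union d2 mF, measure_union d1 mngR]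
    _ ≤ μH[1] (frontier C) := by
        apply measure_mono
        exact union_subset (union_subset (union_subset hRf hngRf) hFf) hngFf

end Pool.Agent.H55.Stadium
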