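import Pool.Agent.H55.StadiumK
set_option autoImplicit false
open MeasureTheory Metric Set Real
open scoped RealInnerProductSpace

namespace Pool.Agent.H55.Stadium

lemma interior_C_nonempty : (interior C).Nonempty := by
  refine ⟨pt 0 0, ?_⟩
  rw [mem_interior]
  refine ⟨ball (pt 0 0) 1, ?_, isOpen_ball, mem_ball_self one_pos⟩
  have h := ball_sub_C (a := 0) (by rw [abs_zero]; positivity)
  exact ball_subset_closedBall.trans h

lemma C_ne_ball (x : E) (r : ℝ) : C ≠ closedBall x r := by
  intro h
  have hpi := pi_pos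
  set b := π / 4 + 1 with hb
  have hb1 : 1 < b := by
    rw [hb]
    have : 0 < π / 4 := by positivity
    linarith
  have h1 : pt b 0 ∈ C := by
    rw [mem_C_iff']
    simp only [pt_zero, pt_one]
    refine ⟨by simp, ?_⟩
    rw [abs_of_pos (by linarith), hb]
    simp
  have h2 : pt (-b) 0 ∈ C := by
    rw [mem_C_iff']
    simp only [pt_zero, pt_one]
    refine ⟨by simp, ?_⟩
    rw [abs_neg, abs_of_pos (by linarith), hb]
    simp
  have hr : 0 ≤ r := by
    by_contra hcon
    push Not at hcon
    rw [h, closedBall_eq_empty.mpr hcon] at h1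
    exact h1
  rw [h, mem_closedBall, dist_le_iff2 _ _ hr] at h1 h2
  simp only [pt_zero, pt_one] at h1 h2
  have key : ∀ c : ℝ, c ^ 2 = b ^ 2 → 0 ≤ c * x 1 → False := by
    intro c hc hcx
    have h3 : pt 0 c ∈ C := by
      rw [h, mem_closedBall, dist_le_iff2 _ _ hr]
      simp only [pt_zero, pt_one]
      nlinarith
    rw [mem_C_iff'] at h3
    have h4 := h3.1
    simp only [pt_one] at h4
    have h5 : c ^ 2 ≤ 1 := by
      rw [← sq_abs]
      exact pow_le_one₀ (abs_nonneg _) h4
    nlinarith
  rcases le_total 0 (x 1) with hx | hx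
  · exact key b rfl (mul_nonneg (by linarith) hx)
  · exact key (-b) (by ring) (mul_nonneg_of_nonpos_of_nonpos (by linarith) hx)

theorem stadium_self_maximising (n : ℕ) (f : Fin n → (E ≃ᵢ E)) :
    μH[1] (frontier (⋃ i, (f i) '' C)) * volume C
      ≤ μH[1] (frontier C) * volume (⋃ i, (f i) '' C) := by
  have hpi := pi_pos
  have h1 : μH[1] (frontier (⋃ i, (f i) '' C)) ≤
      ENNReal.ofReal (3 / 2) * volume (⋃ i, (f i) '' C) := perimeter_le f
  calc μH[1] (frontier (⋃ i, (f i) '' C)) * volume C
      ≤ (ENNReal.ofReal (3 / 2) * volume (⋃ i, (f i) '' C)) * ENNReal.ofReal (2 * π) := by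
        rw [volume_C]
        gcongr
    _ = ENNReal.ofReal (3 * π) * volume (⋃ i, (f i) '' C) := by
        have : ENNReal.ofReal (3 * π) = ENNReal.ofReal (3 / 2) * ENNReal.ofReal (2 * π) := by
          rw [← ENNReal.ofReal_mul (by norm_num)]
          congr 1
          ring
        rw [this]
        ring
    _ ≤ _ := by
        gcongr
        exact perimeter_C

end Pool.Agent.H55.Stadium
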